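import Pool.Agent.Helper91.KF.F4
import Pool.Agent.Helper13.KC.Core

set_option autoImplicit false

/-!
The table forms for the mask function of the checker.
-/

namespace KF

open Finset

theorem msk_eq {V : Type} (E : V → V → V → Bool) (φ : Fin 7 → V) : msk E φ = KC.msk E φ := by
  unfold msk KC.msk
  congr 1
  funext b
  fin_cases b <;> rfl

section
variable {V : Type} [Fintype V]

theorem kcS5 (E : V → V → V → Bool) {w : V → ℝ} (hw : ∀ v, 0 ≤ w v) {Q : ℕ → ℕ → ℕ → ℝ}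
    (hQ : ∀ r, Psd 1024 (Q r)) : 0 ≤ Ev 7 w (fun φ => gS5 Q (KC.msk E φ)) := by
  simpa only [msk_eq] using evS5 E hw hQ

theorem kcS3 (E : V → V → V → Bool) {w : V → ℝ} (hw : ∀ v, 0 ≤ w v) {Q : ℕ → ℕ → ℕ → ℝ}
    (hQ : ∀ r, Psd 1024 (Q r)) : 0 ≤ Ev 7 w (fun φ => gS3 Q (KC.msk E φ)) := by
  simpa only [msk_eq] using evS3 E hw hQ

theorem kcS1 (E : V → V → V → Bool) {w : V → ℝ} (hw : ∀ v, 0 ≤ w v) {Q : ℕ → ℕ → ℝ}
    (hQ : Psd 16 Q) : 0 ≤ Ev 7 w (fun φ => gS1 Q (KC.msk E φ)) := by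
  simpa only [msk_eq] using evS1 E hw hQ

theorem kcM {E : V → V → V → Bool} (hE : K4m E) {w : V → ℝ} (hw : ∀ v, 0 ≤ w v)
    {μ : ℕ → ℝ} {C : ℕ → ℕ → ℝ} (hμ : ∀ r, 0 ≤ μ r) (hC : ∀ r l, 0 ≤ C r l) :
    0 ≤ Ev 7 w (fun φ => gM μ C L (KC.msk E φ)) := by
  simpa only [msk_eq] using evM hE hw hμ hC

theorem kcR {E : V → V → V → Bool} (hE : K4m E) {w : V → ℝ} (hw : Wt w)
    {μ : ℕ → ℝ} {C : ℕ → ℕ → ℝ} (hμ : ∀ r, 0 ≤ μ r) (hC : ∀ r l, 0 ≤ C r l)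
    (hC1 : ∀ r l, C r l ≤ 1) :
    -(L - dens E w) * Ev 7 w (fun φ => μ (KC.msk E φ % 16)) ≤
      Ev 7 w (fun φ => gR μ C L (KC.msk E φ)) := by
  simpa only [msk_eq] using evR hE hw hμ hC hC1

theorem kcH {E : V → V → V → Bool} {w : V → ℝ} (ho : Opt E w)
    {μ : ℕ → ℝ} {C : ℕ → ℕ → ℝ} (hμ : ∀ r, 0 ≤ μ r) :
    0 ≤ Ev 7 w (fun φ => gH μ C (dens E w) (KC.msk E φ)) := by
  simpa only [msk_eq] using evH ho hμ

theorem kcD {E : V → V → V → Bool} {w : V → ℝ} (ho : Opt E w) (K : ℕ → ℝ) :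
    Ev 7 w (fun φ => gD K (dens E w) (KC.msk E φ)) = 0 := by
  simpa only [msk_eq] using evD ho K

theorem kc_dens (E : V → V → V → Bool) {w : V → ℝ} (hw : ∑ v, w v = 1) :
    Ev 7 w (fun φ => b2r ((KC.msk E φ).testBit 0)) = dens E w := by
  simpa only [msk_eq] using ev_dens E hw

end

end KF
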