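import Pool.Agent.Helper91.KF.F6

set_option autoImplicit false

/-!
Family (V) in table form.
-/

namespace KF

open Finset

section
variable {V : Type} [Fintype V]

/-- Sum over the choice of the special vertex. -/
theorem special_symm (w : V → ℝ) (hw : ∑ v, w v = 1) (F : V → V → V → ℝ)
    (hF : ∀ x y z, F x y z = F x z y) :
    Ev 3 w (fun ψ => F (ψ 0) (ψ 1) (ψ 2) + F (ψ 1) (ψ 0) (ψ 2) + F (ψ 2) (ψ 0) (ψ 1)) =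
      3 * Ev 3 w (fun ψ => F (ψ 0) (ψ 1) (ψ 2)) := by
  have h1 : Ev 3 w (fun ψ => F (ψ 1) (ψ 0) (ψ 2)) = Ev 3 w (fun ψ => F (ψ 0) (ψ 1) (ψ 2)) := by
    rw [← Ev_perm (Equiv.swap 0 1) w hw]
    refine Ev_congr 3 w fun ψ => ?_
    have e0 : (Equiv.swap (0 : Fin 3) 1) 0 = 1 := by decide
    have e1 : (Equiv.swap (0 : Fin 3) 1) 1 = 0 := by decide
    have e2 : (Equiv.swap (0 : Fin 3) 1) 2 = 2 := by decide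
    beta_reduce
    rw [e0, e1, e2]
  have h2 : Ev 3 w (fun ψ => F (ψ 2) (ψ 0) (ψ 1)) = Ev 3 w (fun ψ => F (ψ 0) (ψ 1) (ψ 2)) := by
    rw [← Ev_perm (Equiv.swap 0 2) w hw]
    refine Ev_congr 3 w fun ψ => ?_
    have e0 : (Equiv.swap (0 : Fin 3) 2) 0 = 2 := by decide
    have e1 : (Equiv.swap (0 : Fin 3) 2) 1 = 1 := by decide
    have e2 : (Equiv.swap (0 : Fin 3) 2) 2 = 0 := by decide
    beta_reduce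
    rw [e0, e1, e2, hF]
  have h3 : Ev 3 w (fun ψ => F (ψ 0) (ψ 1) (ψ 2) + F (ψ 1) (ψ 0) (ψ 2) + F (ψ 2) (ψ 0) (ψ 1)) =
      Ev 3 w (fun ψ => F (ψ 0) (ψ 1) (ψ 2)) + Ev 3 w (fun ψ => F (ψ 1) (ψ 0) (ψ 2)) +
      Ev 3 w (fun ψ => F (ψ 2) (ψ 0) (ψ 1)) := by
    rw [← Ev_add, ← Ev_add]
  rw [h3, h1, h2]
  ring

end

/-- Integrand of (V). -/
def gV (μ : ℕ → ℝ) (G C : ℕ → ℕ → ℝ) (p : ℝ) (m : ℕ) : ℝ :=
  μ (m % 16) * (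
    G (m % 16) (m / 16 % 64) *
      ((C (m % 16) (m / 2 ^ 10 % 64) + C (m % 16) (m / 2 ^ 20 % 64) -
        C (m % 16) (m / 2 ^ 10 % 64) * C (m % 16) (m / 2 ^ 20 % 64)) * b2r (m.testBit 34) -
        p * (C (m % 16) (m / 2 ^ 10 % 64) * C (m % 16) (m / 2 ^ 20 % 64))) +
    G (m % 16) (m / 2 ^ 10 % 64) *
      ((C (m % 16) (m / 16 % 64) + C (m % 16) (m / 2 ^ 20 % 64) -
        C (m % 16) (m / 16 % 64) * C (m % 16) (m / 2 ^ 20 % 64)) * b2r (m.testBit 34) -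
        p * (C (m % 16) (m / 16 % 64) * C (m % 16) (m / 2 ^ 20 % 64))) +
    G (m % 16) (m / 2 ^ 20 % 64) *
      ((C (m % 16) (m / 16 % 64) + C (m % 16) (m / 2 ^ 10 % 64) -
        C (m % 16) (m / 16 % 64) * C (m % 16) (m / 2 ^ 10 % 64)) * b2r (m.testBit 34) -
        p * (C (m % 16) (m / 16 % 64) * C (m % 16) (m / 2 ^ 10 % 64))) +
    C (m % 16) (m / 16 % 64) * C (m % 16) (m / 2 ^ 10 % 64) * C (m % 16) (m / 2 ^ 20 % 64) *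
      (p - b2r (m.testBit 34)))

/-- The coefficient of `p` in `gV`. -/
def dV (μ : ℕ → ℝ) (G C : ℕ → ℕ → ℝ) (m : ℕ) : ℝ :=
  μ (m % 16) * (
    C (m % 16) (m / 16 % 64) * C (m % 16) (m / 2 ^ 10 % 64) * C (m % 16) (m / 2 ^ 20 % 64) -
    G (m % 16) (m / 16 % 64) * (C (m % 16) (m / 2 ^ 10 % 64) * C (m % 16) (m / 2 ^ 20 % 64)) -
    G (m % 16) (m / 2 ^ 10 % 64) * (C (m % 16) (m / 16 % 64) * C (m % 16) (m / 2 ^ 20 % 64)) -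
    G (m % 16) (m / 2 ^ 20 % 64) * (C (m % 16) (m / 16 % 64) * C (m % 16) (m / 2 ^ 10 % 64)))

theorem gV_split (μ : ℕ → ℝ) (G C : ℕ → ℕ → ℝ) (p q : ℝ) (m : ℕ) :
    gV μ G C q m = gV μ G C p m + (q - p) * dV μ G C m := by
  unfold gV dV; ring

theorem gV_zero (μ : ℕ → ℝ) (C : ℕ → ℕ → ℝ) (p : ℝ) (m : ℕ) :
    gV μ (fun _ _ => 0) C p m = gM μ C p m := by
  unfold gV gM cub; ring

theorem gV_self (μ : ℕ → ℝ) (C : ℕ → ℕ → ℝ) (p : ℝ) (m : ℕ) :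
    gV μ C C p m = 2 * gR μ C p m := by
  unfold gV gR cub par; ring

section
variable {V : Type} [Fintype V]

theorem evV {E : V → V → V → Bool} {w : V → ℝ} (ho : Opt E w)
    {μ : ℕ → ℝ} {G C : ℕ → ℕ → ℝ} (hμ : ∀ r, 0 ≤ μ r) (hG : ∀ r l, 0 ≤ G r l)
    (hGC : ∀ r l, G r l ≤ C r l) (hC1 : ∀ r l, C r l ≤ 1) :
    -(2 * (L - dens E w)) * Ev 7 w (fun φ => μ (msk E φ % 16)) ≤
      Ev 7 w (fun φ => gV μ G C L (msk E φ)) := by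
  have hE := ho.free
  have hw := ho.wt
  rw [← Ev_mul, Ev_append 4 3 w, Ev_append 4 3 w]
  refine Ev_mono 4 w hw.nn fun ρ => ?_
  have h := ineqV ho (c := fun x => C (m4 E ρ) (l4 E ρ x)) (g := fun x => G (m4 E ρ) (l4 E ρ x))
    (fun x => hC1 _ _) (fun x => hG _ _) (fun x => hGC _ _)
  have h2 := mul_le_mul_of_nonneg_left h (hμ (m4 E ρ))
  have e1 : Ev 3 w (fun ψ => -(2 * (L - dens E w)) *
      μ (msk E (Fin.append ρ ψ : Fin 7 → V) % 16)) = μ (m4 E ρ) * -(2 * (L - dens E w)) := by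
    rw [← Ev_const 3 w hw.one (μ (m4 E ρ) * -(2 * (L - dens E w)))]
    refine Ev_congr 3 w fun ψ => ?_
    rw [msk_m4, app4]
    ring
  have e2 : Ev 3 w (fun ψ => gV μ G C L (msk E (Fin.append ρ ψ : Fin 7 → V))) =
      μ (m4 E ρ) * Ev 3 w (fun ψ =>
      3 * (G (m4 E ρ) (l4 E ρ (ψ 0)) * ((C (m4 E ρ) (l4 E ρ (ψ 1)) + C (m4 E ρ) (l4 E ρ (ψ 2)) -
        C (m4 E ρ) (l4 E ρ (ψ 1)) * C (m4 E ρ) (l4 E ρ (ψ 2))) * b2r (E (ψ 0) (ψ 1) (ψ 2)) -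
        L * (C (m4 E ρ) (l4 E ρ (ψ 1)) * C (m4 E ρ) (l4 E ρ (ψ 2))))) +
      C (m4 E ρ) (l4 E ρ (ψ 0)) * C (m4 E ρ) (l4 E ρ (ψ 1)) * C (m4 E ρ) (l4 E ρ (ψ 2)) *
        (L - b2r (E (ψ 0) (ψ 1) (ψ 2)))) := by
    have h3 := special_symm w hw.one (fun x y z =>
      G (m4 E ρ) (l4 E ρ x) * ((C (m4 E ρ) (l4 E ρ y) + C (m4 E ρ) (l4 E ρ z) -
        C (m4 E ρ) (l4 E ρ y) * C (m4 E ρ) (l4 E ρ z)) * b2r (E x y z) -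
        L * (C (m4 E ρ) (l4 E ρ y) * C (m4 E ρ) (l4 E ρ z)))) (by
        intro x y z
        rw [hE.s23 x y z]
        ring)
    have h4 : ∀ ψ : Fin 3 → V, gV μ G C L (msk E (Fin.append ρ ψ : Fin 7 → V)) =
        μ (m4 E ρ) * ((
      G (m4 E ρ) (l4 E ρ (ψ 0)) * ((C (m4 E ρ) (l4 E ρ (ψ 1)) + C (m4 E ρ) (l4 E ρ (ψ 2)) -
        C (m4 E ρ) (l4 E ρ (ψ 1)) * C (m4 E ρ) (l4 E ρ (ψ 2))) * b2r (E (ψ 0) (ψ 1) (ψ 2)) -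
        L * (C (m4 E ρ) (l4 E ρ (ψ 1)) * C (m4 E ρ) (l4 E ρ (ψ 2)))) +
      G (m4 E ρ) (l4 E ρ (ψ 1)) * ((C (m4 E ρ) (l4 E ρ (ψ 0)) + C (m4 E ρ) (l4 E ρ (ψ 2)) -
        C (m4 E ρ) (l4 E ρ (ψ 0)) * C (m4 E ρ) (l4 E ρ (ψ 2))) * b2r (E (ψ 1) (ψ 0) (ψ 2)) -
        L * (C (m4 E ρ) (l4 E ρ (ψ 0)) * C (m4 E ρ) (l4 E ρ (ψ 2)))) +
      G (m4 E ρ) (l4 E ρ (ψ 2)) * ((C (m4 E ρ) (l4 E ρ (ψ 0)) + C (m4 E ρ) (l4 E ρ (ψ 1)) -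
        C (m4 E ρ) (l4 E ρ (ψ 0)) * C (m4 E ρ) (l4 E ρ (ψ 1))) * b2r (E (ψ 2) (ψ 0) (ψ 1)) -
        L * (C (m4 E ρ) (l4 E ρ (ψ 0)) * C (m4 E ρ) (l4 E ρ (ψ 1))))) +
      C (m4 E ρ) (l4 E ρ (ψ 0)) * C (m4 E ρ) (l4 E ρ (ψ 1)) * C (m4 E ρ) (l4 E ρ (ψ 2)) *
        (L - b2r (E (ψ 0) (ψ 1) (ψ 2)))) := by
      intro ψ
      have s1 : E (ψ 1) (ψ 0) (ψ 2) = E (ψ 0) (ψ 1) (ψ 2) := hE.s12 _ _ _
      have s2 : E (ψ 2) (ψ 0) (ψ 1) = E (ψ 0) (ψ 1) (ψ 2) := by rw [hE.s12, hE.s23]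
      rw [s1, s2]
      unfold gV
      rw [msk_m4, msk_l4a, msk_l4b, msk_l4c, bit34, app4]
      rw [show (Fin.append ρ ψ : Fin 7 → V) 4 = ψ 0 from rfl,
        show (Fin.append ρ ψ : Fin 7 → V) 5 = ψ 1 from rfl,
        show (Fin.append ρ ψ : Fin 7 → V) 6 = ψ 2 from rfl]
    rw [Ev_congr 3 w h4, Ev_mul, Ev_add, h3, Ev_add, Ev_mul]
  rw [e1, e2]
  exact h2

theorem kcV {E : V → V → V → Bool} {w : V → ℝ} (ho : Opt E w)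
    {μ : ℕ → ℝ} {G C : ℕ → ℕ → ℝ} (hμ : ∀ r, 0 ≤ μ r) (hG : ∀ r l, 0 ≤ G r l)
    (hGC : ∀ r l, G r l ≤ C r l) (hC1 : ∀ r l, C r l ≤ 1) :
    -(2 * (L - dens E w)) * Ev 7 w (fun φ => μ (KC.msk E φ % 16)) ≤
      Ev 7 w (fun φ => gV μ G C L (KC.msk E φ)) := by
  simpa only [msk_eq] using evV ho hμ hG hGC hC1

end

end KF
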