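import Pool.Agent.Helper91.KF.F2

set_option autoImplicit false

/-!
Inequality families for optimal weighted K4^- -free 3-graphs, in the form needed by a flag
certificate: statements on the sampling functional `Ev n w`.
-/

namespace KF

open Finset

section
variable {V : Type} [Fintype V]

/-- Fubini. -/
theorem Ev_append (k m : ℕ) (w : V → ℝ) (F : (Fin (k + m) → V) → ℝ) :
    Ev (k + m) w F = Ev k w (fun ρ => Ev m w (fun ψ => F (Fin.append ρ ψ))) := by
  unfold Ev
  rw [← Equiv.sum_comp (Fin.appendEquiv k m), Fintype.sum_prod_type]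
  refine Finset.sum_congr rfl fun ρ _ => ?_
  rw [Finset.mul_sum]
  refine Finset.sum_congr rfl fun ψ _ => ?_
  have h : Fin.appendEquiv k m (ρ, ψ) = Fin.append ρ ψ := rfl
  rw [h, Fin.prod_univ_add]
  simp only [Fin.append_left, Fin.append_right]
  ring

/-- Invariance under permutations of the coordinates. -/
theorem Ev_perm {n : ℕ} (σ : Equiv.Perm (Fin n)) (w : V → ℝ) (hw : ∑ v, w v = 1)
    (F : (Fin n → V) → ℝ) : Ev n w (fun φ => F (fun i => φ (σ i))) = Ev n w F :=
  Ev_inj (fun i => σ i) σ.injective w hw F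

theorem Ev_nonneg (n : ℕ) (w : V → ℝ) (hw : ∀ v, 0 ≤ w v) {f : (Fin n → V) → ℝ}
    (h : ∀ φ, 0 ≤ f φ) : 0 ≤ Ev n w f :=
  Finset.sum_nonneg fun φ _ => mul_nonneg (Finset.prod_nonneg fun i _ => hw _) (h φ)

theorem Ev_sub (n : ℕ) (w : V → ℝ) (f g : (Fin n → V) → ℝ) :
    Ev n w (fun φ => f φ - g φ) = Ev n w f - Ev n w g := by
  unfold Ev
  rw [← Finset.sum_sub_distrib]
  exact Finset.sum_congr rfl fun φ _ => by ring

theorem Ev_congr (n : ℕ) (w : V → ℝ) {f g : (Fin n → V) → ℝ} (h : ∀ φ, f φ = g φ) :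
    Ev n w f = Ev n w g := by
  have : f = g := funext h
  rw [this]

/-- Independence. -/
theorem Ev_mul_indep (k m : ℕ) (w : V → ℝ) (f : (Fin k → V) → ℝ) (g : (Fin m → V) → ℝ) :
    Ev (k + m) w (fun φ => f (fun i => φ (Fin.castAdd m i)) * g (fun i => φ (Fin.natAdd k i))) =
      Ev k w f * Ev m w g := by
  rw [Ev_append]
  simp only [Fin.append_left, Fin.append_right]
  have : ∀ ρ : Fin k → V, Ev m w (fun ψ => f ρ * g ψ) = f ρ * Ev m w g := fun ρ => Ev_mul m w _ _
  have h2 : (fun ρ : Fin k → V => Ev m w (fun ψ => f (fun i => ρ i) * g (fun i => ψ i))) =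
      fun ρ => Ev m w g * f ρ := by
    funext ρ
    rw [Ev_mul]; ring
  rw [h2, Ev_mul]
  ring

/-- (S) A square: roots `k`, two disjoint blocks of `l` further vertices. -/
theorem Ev_sq (k l : ℕ) (w : V → ℝ) (hw : ∀ v, 0 ≤ w v) (g : (Fin k → V) → (Fin l → V) → ℝ) :
    0 ≤ Ev (k + (l + l)) w (fun φ => g (fun i => φ (Fin.castAdd (l + l) i))
      (fun i => φ (Fin.natAdd k (Fin.castAdd l i))) *
      g (fun i => φ (Fin.castAdd (l + l) i)) (fun i => φ (Fin.natAdd k (Fin.natAdd l i)))) := by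
  rw [Ev_append]
  refine Ev_nonneg k w hw fun ρ => ?_
  simp only [Fin.append_left, Fin.append_right]
  have := Ev_mul_indep l l w (g ρ) (g ρ)
  rw [this]
  exact mul_self_nonneg _

/-- (S) for a positive semidefinite combination given by a sum of squares. -/
theorem Ev_sos {ι κ : Type} (s : Finset ι) (t : Finset κ) (k l : ℕ) (w : V → ℝ)
    (hw : ∀ v, 0 ≤ w v) (D : κ → ℝ) (hD : ∀ r, 0 ≤ D r) (R : κ → ι → ℝ)
    (g : ι → (Fin k → V) → (Fin l → V) → ℝ) :
    0 ≤ Ev (k + (l + l)) w (fun φ => ∑ a ∈ s, ∑ b ∈ s, (∑ r ∈ t, D r * R r a * R r b) *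
      (g a (fun i => φ (Fin.castAdd (l + l) i)) (fun i => φ (Fin.natAdd k (Fin.castAdd l i))) *
      g b (fun i => φ (Fin.castAdd (l + l) i)) (fun i => φ (Fin.natAdd k (Fin.natAdd l i))))) := by
  have h1 : ∀ φ : Fin (k + (l + l)) → V, (∑ a ∈ s, ∑ b ∈ s, (∑ r ∈ t, D r * R r a * R r b) *
      (g a (fun i => φ (Fin.castAdd (l + l) i)) (fun i => φ (Fin.natAdd k (Fin.castAdd l i))) *
      g b (fun i => φ (Fin.castAdd (l + l) i)) (fun i => φ (Fin.natAdd k (Fin.natAdd l i))))) =
      ∑ r ∈ t, D r * ((∑ a ∈ s, R r a * g a (fun i => φ (Fin.castAdd (l + l) i))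
        (fun i => φ (Fin.natAdd k (Fin.castAdd l i)))) *
        (∑ b ∈ s, R r b * g b (fun i => φ (Fin.castAdd (l + l) i))
        (fun i => φ (Fin.natAdd k (Fin.natAdd l i))))) := by
    intro φ
    have e1 : ∀ r : κ, r ∈ t → D r * ((∑ a ∈ s, R r a * g a (fun i => φ (Fin.castAdd (l + l) i))
        (fun i => φ (Fin.natAdd k (Fin.castAdd l i)))) *
        (∑ b ∈ s, R r b * g b (fun i => φ (Fin.castAdd (l + l) i))
        (fun i => φ (Fin.natAdd k (Fin.natAdd l i))))) =
        ∑ a ∈ s, ∑ b ∈ s, (D r * R r a * R r b) *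
      (g a (fun i => φ (Fin.castAdd (l + l) i)) (fun i => φ (Fin.natAdd k (Fin.castAdd l i))) *
      g b (fun i => φ (Fin.castAdd (l + l) i)) (fun i => φ (Fin.natAdd k (Fin.natAdd l i)))) := by
      intro r _
      rw [Finset.sum_mul_sum, Finset.mul_sum]
      refine Finset.sum_congr rfl fun a _ => ?_
      rw [Finset.mul_sum]
      refine Finset.sum_congr rfl fun b _ => ?_
      ring
    rw [Finset.sum_congr (rfl : t = t) e1]
    symm
    refine Finset.sum_comm.trans ?_
    refine Finset.sum_congr rfl fun a _ => ?_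
    refine Finset.sum_comm.trans ?_
    refine Finset.sum_congr rfl fun b _ => ?_
    rw [Finset.sum_mul]
  simp only [h1]
  rw [Ev_sum]
  refine Finset.sum_nonneg fun r _ => ?_
  rw [Ev_mul]
  exact mul_nonneg (hD r) (Ev_sq k l w hw (fun ρ ψ => ∑ a ∈ s, R r a * g a ρ ψ))

/-! Weighted forms as expectations. -/

theorem dens_mul (E : V → V → V → Bool) (w c : V → ℝ) :
    dens E (fun v => w v * c v) =
      Ev 3 w (fun ψ => c (ψ 0) * c (ψ 1) * c (ψ 2) * b2r (E (ψ 0) (ψ 1) (ψ 2))) := by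
  rw [Ev_three w (fun x y z => c x * c y * c z * b2r (E x y z))]
  unfold dens
  refine Finset.sum_congr rfl fun x _ => Finset.sum_congr rfl fun y _ =>
    Finset.sum_congr rfl fun z _ => by ring

theorem tri_mul (E : V → V → V → Bool) (w a b c : V → ℝ) :
    tri E (fun v => w v * a v) (fun v => w v * b v) (fun v => w v * c v) =
      Ev 3 w (fun ψ => a (ψ 0) * b (ψ 1) * c (ψ 2) * b2r (E (ψ 0) (ψ 1) (ψ 2))) := by
  rw [Ev_three w (fun x y z => a x * b y * c z * b2r (E x y z))]
  unfold tri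
  refine Finset.sum_congr rfl fun x _ => Finset.sum_congr rfl fun y _ =>
    Finset.sum_congr rfl fun z _ => by ring

theorem prod3 (w a b c : V → ℝ) :
    (∑ v, w v * a v) * (∑ v, w v * b v) * (∑ v, w v * c v) =
      Ev 3 w (fun ψ => a (ψ 0) * b (ψ 1) * c (ψ 2)) := by
  rw [Ev_three w (fun x y z => a x * b y * c z)]
  rw [Finset.sum_mul_sum, Finset.sum_mul]
  refine Finset.sum_congr rfl fun x _ => ?_
  rw [Finset.sum_mul_sum]
  refine Finset.sum_congr rfl fun y _ => Finset.sum_congr rfl fun z _ => by ring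

/-- (M) for fixed roots. -/
theorem ineqM {E : V → V → V → Bool} (hE : K4m E) {w : V → ℝ} (hw : ∀ v, 0 ≤ w v) {c : V → ℝ}
    (hc : ∀ v, 0 ≤ c v) :
    0 ≤ Ev 3 w (fun ψ => c (ψ 0) * c (ψ 1) * c (ψ 2) * (L - b2r (E (ψ 0) (ψ 1) (ψ 2)))) := by
  have h1 := dens_le_L_hom hE (u := fun v => w v * c v) (fun v => mul_nonneg (hw v) (hc v))
  rw [dens_mul] at h1
  have h2 : (∑ v, w v * c v) ^ 3 = Ev 3 w (fun ψ => c (ψ 0) * c (ψ 1) * c (ψ 2)) := by
    rw [← prod3]; ring
  rw [h2, ← Ev_mul] at h1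
  have h3 : Ev 3 w (fun ψ => c (ψ 0) * c (ψ 1) * c (ψ 2) * (L - b2r (E (ψ 0) (ψ 1) (ψ 2)))) =
      Ev 3 w (fun ψ => L * (c (ψ 0) * c (ψ 1) * c (ψ 2))) -
      Ev 3 w (fun ψ => c (ψ 0) * c (ψ 1) * c (ψ 2) * b2r (E (ψ 0) (ψ 1) (ψ 2))) := by
    rw [← Ev_sub]
    exact Ev_congr 3 w fun ψ => by ring
  rw [h3]
  linarith

/-- Second variation of an optimal weight. -/
theorem second_var {E : V → V → V → Bool} {w : V → ℝ} (ho : Opt E w) (u : V → ℝ) :
    tri E u u w ≤ dens E w * (∑ v, u v) ^ 2 := by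
  have hE := ho.free
  have hlin : ∀ q : V → ℝ, tri E q w w = dens E w * ∑ v, q v := by
    intro q
    have : tri E q w w = ∑ v, q v * deg E w v := by
      unfold tri deg
      refine Finset.sum_congr rfl fun x _ => ?_
      rw [Finset.mul_sum]
      refine Finset.sum_congr rfl fun y _ => ?_
      rw [Finset.mul_sum]
      refine Finset.sum_congr rfl fun z _ => by ring
    rw [this, Finset.mul_sum]
    refine Finset.sum_congr rfl fun v _ => ?_
    rw [ho.reg v]; ring
  -- zero mean case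
  have hz : ∀ q : V → ℝ, ∑ v, q v = 0 → tri E q q w ≤ 0 := by
    intro q hq
    by_contra hcon
    push Not at hcon
    set a := tri E q q w with ha
    set b := tri E q q q with hb
    -- choose t > 0 small with w + t q >= 0 and 3 a + t b > 0
    have hex : ∃ t : ℝ, 0 < t ∧ (∀ v, 0 ≤ w v + t * q v) ∧ 0 < 3 * a + t * b := by
      have h1 : ∀ v, ∀ᶠ t : ℝ in nhdsWithin 0 (Set.Ioi 0), 0 ≤ w v + t * q v := by
        intro v
        have : Filter.Tendsto (fun t : ℝ => w v + t * q v) (nhds 0) (nhds (w v + 0 * q v)) := by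
          apply Continuous.tendsto; fun_prop
        rw [zero_mul, add_zero] at this
        have h2 := this.eventually (lt_mem_nhds (ho.pos v))
        exact (h2.filter_mono nhdsWithin_le_nhds).mono fun t ht => ht.le
      have h2 : ∀ᶠ t : ℝ in nhdsWithin 0 (Set.Ioi 0), ∀ v, 0 ≤ w v + t * q v :=
        Filter.eventually_all.2 h1
      have h3 : ∀ᶠ t : ℝ in nhdsWithin 0 (Set.Ioi 0), 0 < 3 * a + t * b := by
        have : Filter.Tendsto (fun t : ℝ => 3 * a + t * b) (nhds 0) (nhds (3 * a + 0 * b)) := by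
          apply Continuous.tendsto; fun_prop
        rw [zero_mul, add_zero] at this
        exact (this.eventually (lt_mem_nhds (by linarith))).filter_mono nhdsWithin_le_nhds
      have h4 : ∀ᶠ t : ℝ in nhdsWithin 0 (Set.Ioi 0), 0 < t := self_mem_nhdsWithin
      obtain ⟨t, ht⟩ := (h2.and (h3.and h4)).exists
      exact ⟨t, ht.2.2, ht.1, ht.2.1⟩
    obtain ⟨t, ht, hpos, hab⟩ := hex
    have h5 := ho.max (w + t • q) (fun v => by
      simp only [Pi.add_apply, Pi.smul_apply, smul_eq_mul]; exact hpos v)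
    have h6 : ∑ v, (w + t • q) v = 1 := by
      simp only [Pi.add_apply, Pi.smul_apply, smul_eq_mul, Finset.sum_add_distrib,
        ← Finset.mul_sum, hq, ho.wt.one]; ring
    rw [h6] at h5
    have h7 : dens E (w + t • q) = dens E w + 3 * t * tri E q w w + 3 * t ^ 2 * a + t ^ 3 * b := by
      rw [dens_eq_tri, dens_eq_tri]
      simp only [tri_add1, tri_add2 hE, tri_add3 hE, tri_smul1, tri_smul2 hE, tri_smul3 hE]
      rw [tri_swap13 hE w w q, tri_swap12 hE w q w, tri_swap23 hE q w q, tri_swap13 hE w q q]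
      ring
    rw [h7, hlin q, hq] at h5
    have h8 : 0 < t ^ 2 * (3 * a + t * b) := by positivity
    nlinarith
  set s := ∑ v, u v with hs
  have hq : ∑ v, (u + (-s) • w) v = 0 := by
    simp only [Pi.add_apply, Pi.smul_apply, smul_eq_mul, Finset.sum_add_distrib,
      ← Finset.mul_sum, ho.wt.one, ← hs]; ring
  have h1 := hz _ hq
  have h2 : tri E (u + (-s) • w) (u + (-s) • w) w = tri E u u w - dens E w * s ^ 2 := by
    simp only [tri_add1, tri_add2 hE, tri_smul1, tri_smul2 hE]
    rw [tri_swap12 hE w u w, hlin u, ← dens_eq_tri, ← hs]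
    ring
  rw [h2] at h1
  linarith

/-- (H) for fixed roots, with the density `d` of the optimal object. -/
theorem ineqH {E : V → V → V → Bool} {w : V → ℝ} (ho : Opt E w) (h : V → ℝ) :
    0 ≤ Ev 3 w (fun ψ => h (ψ 0) * h (ψ 1) * (dens E w - b2r (E (ψ 0) (ψ 1) (ψ 2)))) := by
  have h1 := second_var ho (fun v => w v * h v)
  have h2 : tri E (fun v => w v * h v) (fun v => w v * h v) w =
      Ev 3 w (fun ψ => h (ψ 0) * h (ψ 1) * 1 * b2r (E (ψ 0) (ψ 1) (ψ 2))) := by
    have := tri_mul E w h h (fun _ => 1)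
    simp only [mul_one] at this
    rw [this]
    exact Ev_congr 3 w fun ψ => by ring
  have h3 : (∑ v, w v * h v) ^ 2 = Ev 3 w (fun ψ => h (ψ 0) * h (ψ 1)) := by
    have := prod3 w h h (fun _ => 1)
    simp only [mul_one, ho.wt.one] at this
    rw [← this]; ring
  rw [h2, h3, ← Ev_mul] at h1
  have h4 : Ev 3 w (fun ψ => h (ψ 0) * h (ψ 1) * (dens E w - b2r (E (ψ 0) (ψ 1) (ψ 2)))) =
      Ev 3 w (fun ψ => dens E w * (h (ψ 0) * h (ψ 1))) -
      Ev 3 w (fun ψ => h (ψ 0) * h (ψ 1) * 1 * b2r (E (ψ 0) (ψ 1) (ψ 2))) := by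
    rw [← Ev_sub]
    exact Ev_congr 3 w fun ψ => by ring
  rw [h4]
  linarith

theorem Ev_two (w : V → ℝ) (g : V → V → ℝ) :
    Ev 2 w (fun φ => g (φ 0) (φ 1)) = ∑ x, ∑ y, w x * w y * g x y := by
  unfold Ev
  let e : (V × V) ≃ (Fin 2 → V) :=
    { toFun := fun t => ![t.1, t.2]
      invFun := fun φ => (φ 0, φ 1)
      left_inv := fun t => rfl
      right_inv := fun φ => by
        funext i
        fin_cases i <;> rfl }
  rw [← Equiv.sum_comp e, Fintype.sum_prod_type]
  refine Finset.sum_congr rfl fun x _ => Finset.sum_congr rfl fun y _ => ?_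
  simp [e, Fin.prod_univ_two]

/-- (D) for fixed roots: the degree of a vertex. -/
theorem eqD {E : V → V → V → Bool} {w : V → ℝ} (ho : Opt E w) (v : V) :
    Ev 2 w (fun ψ => b2r (E v (ψ 0) (ψ 1)) - dens E w) = 0 := by
  rw [Ev_sub, Ev_const 2 w ho.wt.one, Ev_two w (fun x y => b2r (E v x y))]
  have := ho.reg v
  unfold deg at this
  rw [this, sub_self]

end

/-! (N): a new vertex with an admissible link. -/

/-- Adding a vertex `none` with link `N`. -/
def addv {V : Type} (E : V → V → V → Bool) (N : V → V → Bool) :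
    Option V → Option V → Option V → Bool
  | some a, some b, some c => E a b c
  | none, some b, some c => N b c
  | some a, none, some c => N a c
  | some a, some b, none => N a b
  | _, _, _ => false

/-- A link that can be added. -/
structure Adm {V : Type} (E : V → V → V → Bool) (N : V → V → Bool) : Prop where
  symm : ∀ a b, N a b = N b a
  irr : ∀ a, N a a = false
  tri : ∀ a b c, N a b = true → N a c = true → N b c = true → False
  path : ∀ a b c, N a b = true → N a c = true → E a b c = true → False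

theorem addv_K4m {V : Type} {E : V → V → V → Bool} (hE : K4m E) {N : V → V → Bool}
    (hN : Adm E N) : K4m (addv E N) := by
  have s12 := hE.s12
  have s23 := hE.s23
  have rot : ∀ a b c, E a b c = E b c a := fun a b c => by rw [s12, s23]
  refine ⟨?_, ?_, ?_, ?_⟩
  · rintro (_ | a) (_ | b) (_ | c) <;> simp only [addv]
    · exact hN.symm _ _
    · exact s12 _ _ _
  · rintro (_ | a) (_ | b) (_ | c) <;> simp only [addv]
    · exact hN.symm _ _
    · exact s23 _ _ _
  · rintro (_ | a) (_ | b) <;> simp only [addv]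
    · exact hN.irr _
    · exact hE.irr _ _
  · rintro (_ | a) (_ | b) (_ | c) (_ | d) h1 h2 h3 <;> simp only [addv] at h1 h2 h3 <;>
      first
      | exact absurd h1 Bool.false_ne_true
      | exact absurd h2 Bool.false_ne_true
      | exact absurd h3 Bool.false_ne_true
      | exact hE.free _ _ _ _ h1 h2 h3
      | exact hN.tri _ _ _ h1 h2 h3
      | exact hN.path _ _ _ h1 h2 h3
      | exact hN.path _ _ _ h1 h3 h2
      | exact hN.path _ _ _ h2 h1 h3
      | exact hN.path _ _ _ h2 h3 h1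
      | exact hN.path _ _ _ h3 h1 h2
      | exact hN.path _ _ _ h3 h2 h1
      | (refine hN.path _ _ _ h1 h2 ?_; rw [s23]; exact h3)

theorem dens_addv {V : Type} [Fintype V] {E : V → V → V → Bool}
    {N : V → V → Bool} (hN : Adm E N) (w : V → ℝ) (t : ℝ) :
    dens (addv E N) (fun o => o.elim t w) = dens E w +
      3 * t * ∑ y, ∑ z, w y * w z * b2r (N y z) := by
  unfold dens
  simp only [Fintype.sum_option, Option.elim_none, Option.elim_some, addv, b2r_false, mul_zero,
    Finset.sum_const_zero, add_zero, zero_add, Finset.sum_add_distrib]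
  have h1 : ∑ y, ∑ z, t * w y * w z * b2r (N y z) = t * ∑ y, ∑ z, w y * w z * b2r (N y z) := by
    simp only [Finset.mul_sum]
    exact Finset.sum_congr rfl fun y _ => Finset.sum_congr rfl fun z _ => by ring
  have h2 : ∑ y, ∑ z, w y * t * w z * b2r (N y z) = t * ∑ y, ∑ z, w y * w z * b2r (N y z) := by
    simp only [Finset.mul_sum]
    exact Finset.sum_congr rfl fun y _ => Finset.sum_congr rfl fun z _ => by ring
  have h3 : ∑ y, ∑ z, w y * w z * t * b2r (N y z) = t * ∑ y, ∑ z, w y * w z * b2r (N y z) := by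
    simp only [Finset.mul_sum]
    exact Finset.sum_congr rfl fun y _ => Finset.sum_congr rfl fun z _ => by ring
  rw [h1, h2, h3]
  ring

/-- (N) for fixed roots, with an error tending to `0` with `L - dens`. -/
theorem ineqN {V : Type} [Fintype V] {E : V → V → V → Bool} (hE : K4m E) {w : V → ℝ}
    (hw : Wt w) {N : V → V → Bool} (hN : Adm E N) {t : ℝ} (ht : 0 < t) (ht1 : t ≤ 1) :
    Ev 2 w (fun ψ => b2r (N (ψ 0) (ψ 1))) ≤ L + (L - dens E w) / (3 * t) + 2 * t := by
  have h1 := dens_le_L_hom (addv_K4m hE hN) (u := fun o => o.elim t w) (by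
    rintro (_ | v)
    · exact ht.le
    · exact hw.nn v)
  rw [dens_addv hN] at h1
  simp only [Fintype.sum_option, Option.elim_none, Option.elim_some, hw.one] at h1
  rw [Ev_two w (fun x y => b2r (N x y))]
  set A := ∑ y, ∑ z, w y * w z * b2r (N y z) with hA
  have hL1 : L ≤ 1 := by
    refine csSup_le vals_nonempty ?_
    rintro x ⟨n, E', w', _, hw', rfl⟩
    have := dens_le_cube E' hw'.nn
    rw [hw'.one] at this
    simpa using this
  have hL0 := L_nonneg
  have h2 : 3 * t * A ≤ 3 * t * (L + (L - dens E w) / (3 * t) + 2 * t) := by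
    have h3 : 3 * t * (L + (L - dens E w) / (3 * t) + 2 * t) =
        3 * t * L + (L - dens E w) + 6 * t ^ 2 := by
      field_simp
      ring
    rw [h3]
    have h4 : L * (t + 1) ^ 3 = L + 3 * t * L + L * (3 * t ^ 2 + t ^ 3) := by ring
    have h5 : L * (3 * t ^ 2 + t ^ 3) ≤ 4 * t ^ 2 := by
      have : t ^ 3 ≤ t ^ 2 := by nlinarith [sq_nonneg t]
      have h6 : L * (3 * t ^ 2 + t ^ 3) ≤ 1 * (3 * t ^ 2 + t ^ 3) :=
        mul_le_mul_of_nonneg_right hL1 (by positivity)
      nlinarith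
    nlinarith [sq_nonneg t]
  exact le_of_mul_le_mul_left h2 (by positivity)

/-! (R'): rebuilding the inside of a set. -/

/-- New 3-graph on `V × Option (Fin m)`: `(v, none)` is the copy of `v` outside the set `X`,
`(v, some i)` is the copy inside. -/
def reb {V : Type} (E : V → V → V → Bool) {m : ℕ} (E' : Fin m → Fin m → Fin m → Bool) :
    V × Option (Fin m) → V × Option (Fin m) → V × Option (Fin m) → Bool
  | (a, none), (b, none), (c, none) => E a b c
  | (a, some _), (b, none), (c, none) => E a b c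
  | (a, none), (b, some _), (c, none) => E a b c
  | (a, none), (b, none), (c, some _) => E a b c
  | (_, some i), (_, some j), (_, some k) => E' i j k
  | _, _, _ => false

theorem reb_K4m {V : Type} {E : V → V → V → Bool} (hE : K4m E) {m : ℕ}
    {E' : Fin m → Fin m → Fin m → Bool} (hE' : K4m E') : K4m (reb E E') := by
  refine ⟨?_, ?_, ?_, ?_⟩
  · rintro ⟨a, _ | i⟩ ⟨b, _ | j⟩ ⟨c, _ | k⟩ <;> simp only [reb] <;>
      first
      | exact hE.s12 _ _ _
      | exact hE'.s12 _ _ _
  · rintro ⟨a, _ | i⟩ ⟨b, _ | j⟩ ⟨c, _ | k⟩ <;> simp only [reb] <;>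
      first
      | exact hE.s23 _ _ _
      | exact hE'.s23 _ _ _
  · rintro ⟨a, _ | i⟩ ⟨b, _ | j⟩ <;> simp only [reb] <;>
      first
      | exact hE.irr _ _
      | exact hE'.irr _ _
  · rintro ⟨a, _ | i⟩ ⟨b, _ | j⟩ ⟨c, _ | k⟩ ⟨d, _ | l⟩ h1 h2 h3 <;>
      simp only [reb] at h1 h2 h3 <;>
      first
      | exact absurd h1 Bool.false_ne_true
      | exact absurd h2 Bool.false_ne_true
      | exact absurd h3 Bool.false_ne_true
      | exact hE.free _ _ _ _ h1 h2 h3
      | exact hE'.free _ _ _ _ h1 h2 h3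

theorem L_le_one : L ≤ 1 := by
  refine csSup_le vals_nonempty ?_
  rintro x ⟨n, E', w', _, hw', rfl⟩
  have := dens_le_cube E' hw'.nn
  rw [hw'.one] at this
  simpa using this

theorem dens_reb {V : Type} [Fintype V] {E : V → V → V → Bool} (hE : K4m E) {m : ℕ}
    (E' : Fin m → Fin m → Fin m → Bool) (w c : V → ℝ) {w' : Fin m → ℝ} (hw' : ∑ i, w' i = 1) :
    dens (reb E E') (fun o => o.2.elim (w o.1 * (1 - c o.1)) (fun i => w o.1 * c o.1 * w' i)) =
      dens E w - 3 * tri E (fun v => w v * c v) (fun v => w v * c v) w +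
        2 * dens E (fun v => w v * c v) + (∑ v, w v * c v) ^ 3 * dens E' w' := by
  have hE2 := hE
  set p : V → ℝ := fun v => w v * c v with hp
  set q : V → ℝ := fun v => w v * (1 - c v) with hq
  have key : dens (reb E E') (fun o => o.2.elim (w o.1 * (1 - c o.1))
      (fun i => w o.1 * c o.1 * w' i)) =
      tri E q q q + tri E p q q + tri E q p q + tri E q q p + (∑ v, p v) ^ 3 * dens E' w' := by
    unfold dens
    simp only [Fintype.sum_prod_type, Fintype.sum_option, Option.elim_none, Option.elim_some, reb,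
      b2r_false, mul_zero, Finset.sum_const_zero, add_zero, zero_add, Finset.sum_add_distrib]
    have h1 : ∑ x, ∑ i : Fin m, ∑ y, ∑ z, w x * c x * w' i * (w y * (1 - c y)) * (w z * (1 - c z)) *
        b2r (E x y z) = tri E p q q := by
      unfold tri
      refine Finset.sum_congr rfl fun x _ => ?_
      calc _ = ∑ i : Fin m, w' i * ∑ y, ∑ z, p x * q y * q z * b2r (E x y z) := by
            refine Finset.sum_congr rfl fun i _ => ?_
            simp only [Finset.mul_sum]
            exact Finset.sum_congr rfl fun y _ => Finset.sum_congr rfl fun z _ => by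
              simp only [hp, hq]; ring
        _ = _ := by rw [← Finset.sum_mul, hw', one_mul]
    have h2 : ∑ x, ∑ y, ∑ i : Fin m, ∑ z, w x * (1 - c x) * (w y * c y * w' i) * (w z * (1 - c z)) *
        b2r (E x y z) = tri E q p q := by
      unfold tri
      refine Finset.sum_congr rfl fun x _ => Finset.sum_congr rfl fun y _ => ?_
      calc _ = ∑ i : Fin m, w' i * ∑ z, q x * p y * q z * b2r (E x y z) := by
            refine Finset.sum_congr rfl fun i _ => ?_
            simp only [Finset.mul_sum]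
            exact Finset.sum_congr rfl fun z _ => by simp only [hp, hq]; ring
        _ = _ := by rw [← Finset.sum_mul, hw', one_mul]
    have h3 : ∑ x, ∑ y, ∑ z, ∑ i : Fin m, w x * (1 - c x) * (w y * (1 - c y)) * (w z * c z * w' i) *
        b2r (E x y z) = tri E q q p := by
      unfold tri
      refine Finset.sum_congr rfl fun x _ => Finset.sum_congr rfl fun y _ =>
        Finset.sum_congr rfl fun z _ => ?_
      calc _ = ∑ i : Fin m, w' i * (q x * q y * p z * b2r (E x y z)) := by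
            exact Finset.sum_congr rfl fun i _ => by simp only [hp, hq]; ring
        _ = _ := by rw [← Finset.sum_mul, hw', one_mul]
    have h4 : ∑ x, ∑ i : Fin m, ∑ y, ∑ j : Fin m, ∑ z, ∑ k : Fin m,
        w x * c x * w' i * (w y * c y * w' j) * (w z * c z * w' k) * b2r (E' i j k) =
        (∑ v, p v) ^ 3 * ∑ i, ∑ j, ∑ k, w' i * w' j * w' k * b2r (E' i j k) := by
      have e1 : ∀ (x : V) (i : Fin m) (y : V) (j : Fin m), ∑ z, ∑ k : Fin m,
          w x * c x * w' i * (w y * c y * w' j) * (w z * c z * w' k) * b2r (E' i j k) =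
          p x * (p y * ((∑ v, p v) * ∑ k, w' i * w' j * w' k * b2r (E' i j k))) := by
        intro x i y j
        rw [Finset.sum_mul_sum, Finset.mul_sum, Finset.mul_sum]
        refine Finset.sum_congr rfl fun z _ => ?_
        rw [Finset.mul_sum, Finset.mul_sum]
        exact Finset.sum_congr rfl fun k _ => by simp only [hp]; ring
      have e2 : ∀ (x : V) (i : Fin m), ∑ y, ∑ j : Fin m,
          p x * (p y * ((∑ v, p v) * ∑ k, w' i * w' j * w' k * b2r (E' i j k))) =
          p x * ((∑ v, p v) * ((∑ v, p v) * ∑ j, ∑ k, w' i * w' j * w' k * b2r (E' i j k))) := by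
        intro x i
        rw [Finset.mul_sum Finset.univ _ (∑ v, p v), Finset.sum_mul_sum, Finset.mul_sum]
        refine Finset.sum_congr rfl fun y _ => ?_
        rw [Finset.mul_sum]
      simp only [e1, e2]
      have e3 : ∑ x, ∑ i : Fin m,
          p x * ((∑ v, p v) * ((∑ v, p v) * ∑ j, ∑ k, w' i * w' j * w' k * b2r (E' i j k))) =
          (∑ v, p v) * ((∑ v, p v) * ((∑ v, p v) * ∑ i, ∑ j, ∑ k, w' i * w' j * w' k *
            b2r (E' i j k))) := by
        rw [Finset.mul_sum Finset.univ _ (∑ v, p v), Finset.mul_sum Finset.univ _ (∑ v, p v),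
          Finset.sum_mul_sum]
      rw [e3]; ring
    have h0 : ∑ x, ∑ y, ∑ z, w x * (1 - c x) * (w y * (1 - c y)) * (w z * (1 - c z)) *
        b2r (E x y z) = tri E q q q := by
      unfold tri
      rfl
    rw [h0, h1, h2, h3, h4]
    ring
  rw [key]
  have hqp : q = w + (-1 : ℝ) • p := by
    funext v
    simp only [hq, hp, Pi.add_apply, Pi.smul_apply, smul_eq_mul]; ring
  rw [hqp]
  simp only [dens_eq_tri E, tri_add1, tri_add2 hE2, tri_add3 hE2, tri_smul1, tri_smul2 hE2,
    tri_smul3 hE2]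
  rw [tri_swap23 hE2 p w p, tri_swap13 hE2 w p p, tri_swap13 hE2 w w p, tri_swap12 hE2 w p w]
  ring

/-- (R') for fixed roots. -/
theorem ineqR {V : Type} [Fintype V] {E : V → V → V → Bool} (hE : K4m E) {w : V → ℝ}
    (hw : Wt w) {c : V → ℝ} (hc : ∀ v, 0 ≤ c v) (hc1 : ∀ v, c v ≤ 1) :
    -(L - dens E w) ≤ Ev 3 w (fun ψ => 3 * (c (ψ 0) * c (ψ 1) * b2r (E (ψ 0) (ψ 1) (ψ 2))) -
      2 * (c (ψ 0) * c (ψ 1) * c (ψ 2) * b2r (E (ψ 0) (ψ 1) (ψ 2))) -
      L * (c (ψ 0) * c (ψ 1) * c (ψ 2))) := by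
  have h1 : ∀ x ∈ Vals, dens E w - 3 * tri E (fun v => w v * c v) (fun v => w v * c v) w +
      2 * dens E (fun v => w v * c v) + (∑ v, w v * c v) ^ 3 * x ≤ L := by
    rintro x ⟨m, E', w', hE', hw', rfl⟩
    rw [← dens_reb hE E' w c hw'.one]
    refine dens_le_L (reb_K4m hE hE') ⟨?_, ?_⟩
    · rintro ⟨v, _ | i⟩
      · simp only [Option.elim_none]
        exact mul_nonneg (hw.nn v) (by linarith [hc1 v])
      · simp only [Option.elim_some]
        exact mul_nonneg (mul_nonneg (hw.nn v) (hc v)) (hw'.nn i)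
    · simp only [Fintype.sum_prod_type, Fintype.sum_option, Option.elim_none, Option.elim_some,
        ← Finset.mul_sum, hw'.one]
      have e0 : ∑ v, (w v * (1 - c v) + w v * c v * 1) = ∑ v, w v :=
        Finset.sum_congr rfl fun v _ => by ring
      rw [e0, hw.one]
  have hs0 : 0 ≤ ∑ v, w v * c v := Finset.sum_nonneg fun v _ => mul_nonneg (hw.nn v) (hc v)
  have h2 : dens E w - 3 * tri E (fun v => w v * c v) (fun v => w v * c v) w +
      2 * dens E (fun v => w v * c v) + (∑ v, w v * c v) ^ 3 * L ≤ L := by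
    set K := dens E w - 3 * tri E (fun v => w v * c v) (fun v => w v * c v) w +
      2 * dens E (fun v => w v * c v) with hK
    rcases hs0.eq_or_lt with h | h
    · obtain ⟨x, hx⟩ := vals_nonempty
      have := h1 x hx
      rw [← h] at this ⊢
      simpa using this
    · have h3 : L ≤ (L - K) / (∑ v, w v * c v) ^ 3 := by
        refine csSup_le vals_nonempty fun x hx => ?_
        rw [le_div_iff₀ (by positivity)]
        have := h1 x hx
        linarith
      rw [le_div_iff₀ (by positivity)] at h3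
      linarith
  have e1 : tri E (fun v => w v * c v) (fun v => w v * c v) w =
      Ev 3 w (fun ψ => c (ψ 0) * c (ψ 1) * b2r (E (ψ 0) (ψ 1) (ψ 2))) := by
    have := tri_mul E w c c (fun _ => 1)
    simp only [mul_one] at this
    rw [this]
  have e2 := dens_mul E w c
  have e3 : (∑ v, w v * c v) ^ 3 = Ev 3 w (fun ψ => c (ψ 0) * c (ψ 1) * c (ψ 2)) := by
    rw [← prod3]; ring
  rw [e1, e2, e3] at h2
  have e4 : Ev 3 w (fun ψ => 3 * (c (ψ 0) * c (ψ 1) * b2r (E (ψ 0) (ψ 1) (ψ 2))) -
      2 * (c (ψ 0) * c (ψ 1) * c (ψ 2) * b2r (E (ψ 0) (ψ 1) (ψ 2))) -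
      L * (c (ψ 0) * c (ψ 1) * c (ψ 2))) =
      3 * Ev 3 w (fun ψ => c (ψ 0) * c (ψ 1) * b2r (E (ψ 0) (ψ 1) (ψ 2))) -
      2 * Ev 3 w (fun ψ => c (ψ 0) * c (ψ 1) * c (ψ 2) * b2r (E (ψ 0) (ψ 1) (ψ 2))) -
      L * Ev 3 w (fun ψ => c (ψ 0) * c (ψ 1) * c (ψ 2)) := by
    rw [← Ev_mul, ← Ev_mul, ← Ev_mul, ← Ev_sub, ← Ev_sub]
  rw [e4]
  linarith

/-- The final argument with errors. -/
theorem final2 {p0 c C : ℝ} (hc : 0 < c)
    (h : ∀ η : ℝ, 0 < η → ∃ θ : ℝ, 0 < θ ∧ ∀ (n : ℕ) (E : Fin n → Fin n → Fin n → Bool)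
      (w : Fin n → ℝ), Opt E w → L - θ < dens E w →
      ∃ A B : ℝ, (p0 - L) * A + (dens E w - p0) * B - η ≤ p0 - dens E w ∧ c ≤ 1 - A + B ∧ B ≤ C) :
    L ≤ p0 := by
  by_contra hcon
  push Not at hcon
  set x := L - p0 with hx
  have hx0 : 0 < x := by linarith
  have hC : 0 < |C| + 1 := by positivity
  obtain ⟨θ, hθ, hh⟩ := h (c * x / 4) (by positivity)
  obtain ⟨n, E, w, ho, hd⟩ := exists_opt (ε := min θ (c * x / (|C| + 1) / 4)) (by positivity)
  have hd1 : L - θ < dens E w := lt_of_le_of_lt (by linarith [min_le_left θ (c * x / (|C| + 1) / 4)]) hd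
  obtain ⟨A, B, h1, h2, h3⟩ := hh n E w ho hd1
  have hle : dens E w ≤ L := dens_le_L ho.free ho.wt
  set y := L - dens E w with hy
  have hy0 : 0 ≤ y := by linarith
  have hyx : y < c * x / (|C| + 1) / 4 := by
    have := min_le_right θ (c * x / (|C| + 1) / 4)
    linarith
  have h4 : x * (1 - A + B) ≤ y * (1 + B) + c * x / 4 := by nlinarith
  have h5 : c * x ≤ x * (1 - A + B) := by nlinarith
  have h6 : y * (1 + B) ≤ y * (|C| + 1) := by
    refine mul_le_mul_of_nonneg_left ?_ hy0
    have := le_abs_self C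
    linarith
  have h7 : y * (|C| + 1) < c * x / 2 := by
    have h8 : y * (|C| + 1) < c * x / (|C| + 1) / 4 * (|C| + 1) :=
      mul_lt_mul_of_pos_right hyx hC
    have h9 : c * x / (|C| + 1) / 4 * (|C| + 1) = c * x / 4 := by field_simp
    have h10 : 0 < c * x := by positivity
    linarith
  have h10 : 0 < c * x := by positivity
  linarith

end KF
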