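import Pool.Agent.Helper91.KF.F7

set_option autoImplicit false

/-!
Trace inequality for positive semidefinite tables and the Hessian family with a positive
semidefinite table on the link classes of four roots.
-/

namespace KF

open Finset

theorem posSemidef_of_psd {n : ℕ} {q : ℕ → ℕ → ℝ} (hq : Psd n q) (sq : ∀ a b, q a b = q b a) :
    (Matrix.of (fun i j : Fin n => q i j)).PosSemidef := by
  rw [Matrix.posSemidef_iff_dotProduct_mulVec]
  refine ⟨?_, fun x => ?_⟩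
  · ext i j
    simp [Matrix.conjTranspose_apply, sq]
  · have h := hq (fun a => if h : a < n then x ⟨a, h⟩ else 0)
    rw [Finset.sum_range] at h
    refine h.trans_eq ?_
    simp only [dotProduct, Matrix.mulVec, star_trivial, Matrix.of_apply]
    refine Finset.sum_congr rfl fun i _ => ?_
    rw [Finset.sum_range, Finset.mul_sum]
    refine Finset.sum_congr rfl fun j _ => ?_
    rw [dif_pos i.2, dif_pos j.2]
    ring

/-- The trace of the product of two positive semidefinite tables is nonnegative. -/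
theorem psd_trace {n : ℕ} {q k : ℕ → ℕ → ℝ} (hq : Psd n q) (sq : ∀ a b, q a b = q b a)
    (hk : Psd n k) (sk : ∀ a b, k a b = k b a) :
    0 ≤ ∑ a ∈ range n, ∑ b ∈ range n, q a b * k a b := by
  have h := (posSemidef_of_psd hq sq).hadamard (posSemidef_of_psd hk sk)
  rw [Matrix.posSemidef_iff_dotProduct_mulVec] at h
  have h2 := h.2 (fun _ => 1)
  refine h2.trans_eq ?_
  simp only [dotProduct, Matrix.mulVec, star_trivial, Matrix.of_apply, Matrix.hadamard_apply]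
  rw [Finset.sum_range]
  refine Finset.sum_congr rfl fun i _ => ?_
  rw [Finset.sum_range, one_mul]
  exact Finset.sum_congr rfl fun j _ => by ring

/-- Integrand of (H) with a table on the link classes. -/
def gHP (Q : ℕ → ℕ → ℕ → ℝ) (p : ℝ) (m : ℕ) : ℝ :=
  (Q (m % 16) (m / 16 % 64) (m / 2 ^ 10 % 64) + Q (m % 16) (m / 16 % 64) (m / 2 ^ 20 % 64) +
    Q (m % 16) (m / 2 ^ 10 % 64) (m / 2 ^ 20 % 64)) * (p - b2r (m.testBit 34))

/-- The coefficient of `p`. -/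
def dHP (Q : ℕ → ℕ → ℕ → ℝ) (m : ℕ) : ℝ :=
  Q (m % 16) (m / 16 % 64) (m / 2 ^ 10 % 64) + Q (m % 16) (m / 16 % 64) (m / 2 ^ 20 % 64) +
    Q (m % 16) (m / 2 ^ 10 % 64) (m / 2 ^ 20 % 64)

theorem gHP_split (Q : ℕ → ℕ → ℕ → ℝ) (p q : ℝ) (m : ℕ) :
    gHP Q q m = gHP Q p m + (q - p) * dHP Q m := by
  unfold gHP dHP; ring

section
variable {V : Type} [Fintype V]

/-- (H) for fixed roots with a table on classes. -/
theorem ineqHP {E : V → V → V → Bool} {w : V → ℝ} (ho : Opt E w) {n : ℕ} (κ : V → ℕ)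
    (hκ : ∀ v, κ v < n) {q : ℕ → ℕ → ℝ} (hq : Psd n q) (sq : ∀ a b, q a b = q b a) :
    0 ≤ Ev 3 w (fun ψ => q (κ (ψ 0)) (κ (ψ 1)) * (dens E w - b2r (E (ψ 0) (ψ 1) (ψ 2)))) := by
  have hE := ho.free
  set k : ℕ → ℕ → ℝ := fun a b => Ev 3 w (fun ψ => (if κ (ψ 0) = a then (1 : ℝ) else 0) *
    (if κ (ψ 1) = b then (1 : ℝ) else 0) * (dens E w - b2r (E (ψ 0) (ψ 1) (ψ 2)))) with hk
  have sk : ∀ a b, k a b = k b a := by
    intro a b
    rw [hk]
    beta_reduce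
    rw [← Ev_perm (Equiv.swap 0 1) w ho.wt.one]
    refine Ev_congr 3 w fun ψ => ?_
    have e0 : (Equiv.swap (0 : Fin 3) 1) 0 = 1 := by decide
    have e1 : (Equiv.swap (0 : Fin 3) 1) 1 = 0 := by decide
    have e2 : (Equiv.swap (0 : Fin 3) 1) 2 = 2 := by decide
    beta_reduce
    rw [e0, e1, e2, hE.s12]
    ring
  have pk : Psd n k := by
    intro f
    have h := ineqH ho (fun x => f (κ x))
    refine h.trans_eq ?_
    have h1 : ∀ ψ : Fin 3 → V, f (κ (ψ 0)) * f (κ (ψ 1)) *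
        (dens E w - b2r (E (ψ 0) (ψ 1) (ψ 2))) = ∑ a ∈ range n, ∑ b ∈ range n,
        (f a * f b) * ((if κ (ψ 0) = a then (1 : ℝ) else 0) *
    (if κ (ψ 1) = b then (1 : ℝ) else 0) * (dens E w - b2r (E (ψ 0) (ψ 1) (ψ 2)))) := by
      intro ψ
      rw [Finset.sum_eq_single (κ (ψ 0)), Finset.sum_eq_single (κ (ψ 1))]
      · rw [if_pos rfl, if_pos rfl]; ring
      · intro b _ hb
        rw [if_neg (Ne.symm hb)]; ring
      · intro h2
        exact absurd (Finset.mem_range.2 (hκ _)) h2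
      · intro a _ ha
        refine Finset.sum_eq_zero fun b _ => ?_
        rw [if_neg (Ne.symm ha)]; ring
      · intro h2
        exact absurd (Finset.mem_range.2 (hκ _)) h2
    rw [Ev_congr 3 w h1, Ev_sum]
    refine Finset.sum_congr rfl fun a _ => ?_
    rw [Ev_sum]
    refine Finset.sum_congr rfl fun b _ => ?_
    rw [Ev_mul]
    ring
  have h := psd_trace hq sq pk sk
  refine h.trans_eq ?_
  have h1 : ∀ ψ : Fin 3 → V, q (κ (ψ 0)) (κ (ψ 1)) *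
      (dens E w - b2r (E (ψ 0) (ψ 1) (ψ 2))) = ∑ a ∈ range n, ∑ b ∈ range n,
      q a b * ((if κ (ψ 0) = a then (1 : ℝ) else 0) *
    (if κ (ψ 1) = b then (1 : ℝ) else 0) * (dens E w - b2r (E (ψ 0) (ψ 1) (ψ 2)))) := by
    intro ψ
    rw [Finset.sum_eq_single (κ (ψ 0)), Finset.sum_eq_single (κ (ψ 1))]
    · rw [if_pos rfl, if_pos rfl]; ring
    · intro b _ hb
      rw [if_neg (Ne.symm hb)]; ring
    · intro h2
      exact absurd (Finset.mem_range.2 (hκ _)) h2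
    · intro a _ ha
      refine Finset.sum_eq_zero fun b _ => ?_
      rw [if_neg (Ne.symm ha)]; ring
    · intro h2
      exact absurd (Finset.mem_range.2 (hκ _)) h2
  rw [Ev_congr 3 w h1, Ev_sum]
  refine Finset.sum_congr rfl fun a _ => ?_
  rw [Ev_sum]
  refine Finset.sum_congr rfl fun b _ => ?_
  rw [Ev_mul]

/-- Sum over the three pairs. -/
theorem pairs_symm (w : V → ℝ) (hw : ∑ v, w v = 1) (F : V → V → V → ℝ)
    (hF : ∀ x y z, F x y z = F y x z) :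
    Ev 3 w (fun ψ => F (ψ 0) (ψ 1) (ψ 2) + F (ψ 0) (ψ 2) (ψ 1) + F (ψ 1) (ψ 2) (ψ 0)) =
      3 * Ev 3 w (fun ψ => F (ψ 0) (ψ 1) (ψ 2)) := by
  have h := special_symm w hw (fun z x y => F x y z) (fun x y z => hF _ _ _)
  have h1 : Ev 3 w (fun ψ => F (ψ 1) (ψ 2) (ψ 0)) = Ev 3 w (fun ψ => F (ψ 0) (ψ 1) (ψ 2)) := by
    rw [← Ev_perm (Equiv.swap 0 2) w hw]
    refine Ev_congr 3 w fun ψ => ?_
    have e0 : (Equiv.swap (0 : Fin 3) 2) 0 = 2 := by decide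
    have e1 : (Equiv.swap (0 : Fin 3) 2) 1 = 1 := by decide
    have e2 : (Equiv.swap (0 : Fin 3) 2) 2 = 0 := by decide
    beta_reduce
    rw [e0, e1, e2, hF]
  rw [← h1, ← h]
  exact Ev_congr 3 w fun ψ => by ring

theorem evHP {E : V → V → V → Bool} {w : V → ℝ} (ho : Opt E w) {Q : ℕ → ℕ → ℕ → ℝ}
    (hQ : ∀ r, Psd 64 (Q r)) (sQ : ∀ r a b, Q r a b = Q r b a) :
    0 ≤ Ev 7 w (fun φ => gHP Q (dens E w) (msk E φ)) := by
  have hE := ho.free
  rw [Ev_append 4 3 w]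
  refine Ev_nonneg 4 w ho.wt.nn fun ρ => ?_
  have h := ineqHP ho (fun x => l4 E ρ x) (fun x => l4_lt E ρ x) (hQ (m4 E ρ)) (sQ (m4 E ρ))
  have h3 := pairs_symm w ho.wt.one (fun x y z => Q (m4 E ρ) (l4 E ρ x) (l4 E ρ y) *
    (dens E w - b2r (E x y z))) (by
      intro x y z
      rw [sQ, hE.s12])
  have h4 : ∀ ψ : Fin 3 → V, gHP Q (dens E w) (msk E (Fin.append ρ ψ : Fin 7 → V)) =
      Q (m4 E ρ) (l4 E ρ (ψ 0)) (l4 E ρ (ψ 1)) * (dens E w - b2r (E (ψ 0) (ψ 1) (ψ 2))) +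
      Q (m4 E ρ) (l4 E ρ (ψ 0)) (l4 E ρ (ψ 2)) * (dens E w - b2r (E (ψ 0) (ψ 2) (ψ 1))) +
      Q (m4 E ρ) (l4 E ρ (ψ 1)) (l4 E ρ (ψ 2)) * (dens E w - b2r (E (ψ 1) (ψ 2) (ψ 0))) := by
    intro ψ
    have s1 : E (ψ 0) (ψ 2) (ψ 1) = E (ψ 0) (ψ 1) (ψ 2) := hE.s23 _ _ _
    have s2 : E (ψ 1) (ψ 2) (ψ 0) = E (ψ 0) (ψ 1) (ψ 2) := by rw [hE.s23, hE.s12]
    rw [s1, s2]
    unfold gHP
    rw [msk_m4, msk_l4a, msk_l4b, msk_l4c, bit34, app4]
    rw [show (Fin.append ρ ψ : Fin 7 → V) 4 = ψ 0 from rfl,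
      show (Fin.append ρ ψ : Fin 7 → V) 5 = ψ 1 from rfl,
      show (Fin.append ρ ψ : Fin 7 → V) 6 = ψ 2 from rfl]
    ring
  rw [Ev_congr 3 w h4, h3]
  exact mul_nonneg (by norm_num) h

theorem kcHP {E : V → V → V → Bool} {w : V → ℝ} (ho : Opt E w) {Q : ℕ → ℕ → ℕ → ℝ}
    (hQ : ∀ r, Psd 64 (Q r)) (sQ : ∀ r a b, Q r a b = Q r b a) :
    0 ≤ Ev 7 w (fun φ => gHP Q (dens E w) (KC.msk E φ)) := by
  simpa only [msk_eq] using evHP ho hQ sQ

end

end KF
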