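import Pool.Agent.Helper91.KF.F1

set_option autoImplicit false

namespace KF

open Finset

/-! Marginals of the sampling functional. -/

section
variable {V : Type} [Fintype V]

theorem prod_w_sum {I : Type} [Fintype I] [DecidableEq I] (w : V → ℝ) (hw : ∑ v, w v = 1) :
    ∑ b : I → V, ∏ i, w (b i) = 1 := by
  have h := Finset.prod_univ_sum (fun _ : I => (Finset.univ : Finset V)) (fun _ v => w v)
  rw [Fintype.piFinset_univ] at h
  rw [← h]
  simp [hw]

theorem Ev_inj {k n : ℕ} (ι : Fin k → Fin n) (hι : Function.Injective ι) (w : V → ℝ)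
    (hw : ∑ v, w v = 1) (f : (Fin k → V) → ℝ) :
    Ev n w (fun φ => f (fun i => φ (ι i))) = Ev k w f := by
  classical
  unfold Ev
  let p : Fin n → Prop := fun i => i ∈ Set.range ι
  let e := Equiv.piEquivPiSubtypeProd p (fun _ => V)
  let g : Fin k ≃ {i // p i} := Equiv.ofInjective ι hι
  rw [← Equiv.sum_comp e.symm, Fintype.sum_prod_type]
  have h1 : ∀ (a : {i // p i} → V) (b : {i // ¬ p i} → V),
      ∏ i, w (e.symm (a, b) i) = (∏ i, w (a i)) * ∏ i, w (b i) := by
    intro a b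
    rw [← Fintype.prod_subtype_mul_prod_subtype p]
    congr 1
    · refine Finset.prod_congr (by ext; simp) fun i _ => ?_
      congr 1
      simp only [e, Equiv.piEquivPiSubtypeProd_symm_apply]
      rw [dif_pos i.2]
    · refine Finset.prod_congr (by ext; simp) fun i _ => ?_
      congr 1
      simp only [e, Equiv.piEquivPiSubtypeProd_symm_apply]
      rw [dif_neg i.2]
  have h2 : ∀ (a : {i // p i} → V) (b : {i // ¬ p i} → V),
      (fun i => e.symm (a, b) (ι i)) = fun i => a (g i) := by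
    intro a b
    funext i
    simp only [e, Equiv.piEquivPiSubtypeProd_symm_apply]
    have : p (ι i) := ⟨i, rfl⟩
    rw [dif_pos this]
    rfl
  simp only [h1, h2]
  have h3 : ∀ a : {i // p i} → V, ∑ b : {i // ¬ p i} → V,
      (∏ i, w (a i)) * (∏ i, w (b i)) * f (fun i => a (g i)) =
      (∏ i, w (a i)) * f (fun i => a (g i)) := by
    intro a
    calc _ = ∑ b : {i // ¬ p i} → V, (∏ i, w (b i)) * ((∏ i, w (a i)) * f (fun i => a (g i))) :=
          Finset.sum_congr rfl fun b _ => by ring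
      _ = _ := by rw [← Finset.sum_mul, prod_w_sum w hw, one_mul]
  simp only [h3]
  rw [← Equiv.sum_comp (Equiv.arrowCongr g (Equiv.refl V))]
  refine Finset.sum_congr rfl fun a _ => ?_
  have h4 : ∏ i : {i // p i}, w ((Equiv.arrowCongr g (Equiv.refl V)) a i) = ∏ i, w (a i) := by
    rw [← Equiv.prod_comp g]
    refine Finset.prod_congr rfl fun i _ => ?_
    simp [Equiv.arrowCongr]
  rw [h4]
  congr 2
  funext i
  simp [Equiv.arrowCongr]

theorem Ev_const (n : ℕ) (w : V → ℝ) (hw : ∑ v, w v = 1) (c : ℝ) : Ev n w (fun _ => c) = c := by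
  unfold Ev
  rw [← Finset.sum_mul, prod_w_sum w hw, one_mul]

theorem Ev_mono (n : ℕ) (w : V → ℝ) (hw : ∀ v, 0 ≤ w v) {f g : (Fin n → V) → ℝ}
    (h : ∀ φ, f φ ≤ g φ) : Ev n w f ≤ Ev n w g :=
  Finset.sum_le_sum fun φ _ => mul_le_mul_of_nonneg_left (h φ) (Finset.prod_nonneg fun i _ => hw _)

theorem Ev_add (n : ℕ) (w : V → ℝ) (f g : (Fin n → V) → ℝ) :
    Ev n w (fun φ => f φ + g φ) = Ev n w f + Ev n w g := by
  unfold Ev
  rw [← Finset.sum_add_distrib]
  exact Finset.sum_congr rfl fun φ _ => by ring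

theorem Ev_mul (n : ℕ) (w : V → ℝ) (c : ℝ) (f : (Fin n → V) → ℝ) :
    Ev n w (fun φ => c * f φ) = c * Ev n w f := by
  unfold Ev
  rw [Finset.mul_sum]
  exact Finset.sum_congr rfl fun φ _ => by ring

theorem Ev_sum {ι : Type} (s : Finset ι) (n : ℕ) (w : V → ℝ) (f : ι → (Fin n → V) → ℝ) :
    Ev n w (fun φ => ∑ i ∈ s, f i φ) = ∑ i ∈ s, Ev n w (f i) := by
  unfold Ev
  rw [Finset.sum_comm]
  refine Finset.sum_congr rfl fun φ _ => ?_
  rw [Finset.mul_sum]

/-- Sampling three points. -/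
theorem Ev_three (w : V → ℝ) (g : V → V → V → ℝ) :
    Ev 3 w (fun φ => g (φ 0) (φ 1) (φ 2)) = ∑ x, ∑ y, ∑ z, w x * w y * w z * g x y z := by
  unfold Ev
  let e : (V × V × V) ≃ (Fin 3 → V) :=
    { toFun := fun t => ![t.1, t.2.1, t.2.2]
      invFun := fun φ => (φ 0, φ 1, φ 2)
      left_inv := fun t => rfl
      right_inv := fun φ => by
        funext i
        fin_cases i <;> rfl }
  rw [← Equiv.sum_comp e, Fintype.sum_prod_type]
  refine Finset.sum_congr rfl fun x _ => ?_
  rw [Fintype.sum_prod_type]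
  refine Finset.sum_congr rfl fun y _ => Finset.sum_congr rfl fun z _ => ?_
  simp [e, Fin.prod_univ_three]

theorem Ev_triple {n : ℕ} (w : V → ℝ) (hw : ∑ v, w v = 1) (g : V → V → V → ℝ) (i j k : Fin n)
    (hij : i ≠ j) (hik : i ≠ k) (hjk : j ≠ k) :
    Ev n w (fun φ => g (φ i) (φ j) (φ k)) = ∑ x, ∑ y, ∑ z, w x * w y * w z * g x y z := by
  rw [← Ev_three]
  have hinj : Function.Injective (![i, j, k] : Fin 3 → Fin n) := by
    intro a b hab
    fin_cases a <;> fin_cases b <;> simp_all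
  have := Ev_inj (![i, j, k] : Fin 3 → Fin n) hinj w hw (fun φ => g (φ 0) (φ 1) (φ 2))
  simpa using this

end

/-! Ordered and unordered triples. -/

section
variable {V : Type} [Fintype V] [DecidableEq V]

theorem fib_card (e : Finset V) (he : e.card = 3) :
    ((Finset.univ : Finset (V × V × V)).filter (fun t => t.1 ≠ t.2.1 ∧ t.1 ≠ t.2.2 ∧
      t.2.1 ≠ t.2.2 ∧ ({t.1, t.2.1, t.2.2} : Finset V) = e)).card = 6 := by
  obtain ⟨a, b, c, hab, hac, hbc, rfl⟩ := Finset.card_eq_three.1 he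
  have h : ((Finset.univ : Finset (V × V × V)).filter (fun t => t.1 ≠ t.2.1 ∧ t.1 ≠ t.2.2 ∧
      t.2.1 ≠ t.2.2 ∧ ({t.1, t.2.1, t.2.2} : Finset V) = {a, b, c})) =
      {(a, b, c), (a, c, b), (b, a, c), (b, c, a), (c, a, b), (c, b, a)} := by
    ext ⟨x, y, z⟩
    simp only [Finset.mem_filter, Finset.mem_univ, true_and, Finset.mem_insert,
      Finset.mem_singleton, Prod.mk.injEq]
    constructor
    · rintro ⟨h1, h2, h3, h4⟩
      have hx : x ∈ ({a, b, c} : Finset V) := by rw [← h4]; simp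
      have hy : y ∈ ({a, b, c} : Finset V) := by rw [← h4]; simp
      have hz : z ∈ ({a, b, c} : Finset V) := by rw [← h4]; simp
      simp only [Finset.mem_insert, Finset.mem_singleton] at hx hy hz
      rcases hx with rfl | rfl | rfl <;> rcases hy with rfl | rfl | rfl <;>
        rcases hz with rfl | rfl | rfl <;> simp_all
    · have key : ∀ p q r : V, ({p, q, r} : Finset V) = {a, b, c} → p ≠ q → p ≠ r → q ≠ r →
          (p ≠ q ∧ p ≠ r ∧ q ≠ r ∧ ({p, q, r} : Finset V) = {a, b, c}) := fun p q r h h1 h2 h3 =>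
        ⟨h1, h2, h3, h⟩
      rintro (⟨rfl, rfl, rfl⟩ | ⟨rfl, rfl, rfl⟩ | ⟨rfl, rfl, rfl⟩ | ⟨rfl, rfl, rfl⟩ |
        ⟨rfl, rfl, rfl⟩ | ⟨rfl, rfl, rfl⟩) <;>
      refine key _ _ _ (by ext t; simp only [Finset.mem_insert, Finset.mem_singleton] <;> tauto)
        (by tauto) (by tauto) (by tauto)
  rw [h]
  rw [Finset.card_insert_of_notMem, Finset.card_insert_of_notMem, Finset.card_insert_of_notMem,
    Finset.card_insert_of_notMem, Finset.card_insert_of_notMem, Finset.card_singleton]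
  all_goals simp only [Finset.mem_insert, Finset.mem_singleton, Prod.mk.injEq, not_or, not_and]
  all_goals tauto

/-- The Boolean function of a family of triples. -/
def ofSet (H : Finset (Finset V)) : V → V → V → Bool := fun a b c =>
  decide (a ≠ b ∧ a ≠ c ∧ b ≠ c ∧ ({a, b, c} : Finset V) ∈ H)

theorem sum_ofSet (H : Finset (Finset V)) (hH : ∀ e ∈ H, e.card = 3) :
    ∑ x, ∑ y, ∑ z, b2r (ofSet H x y z) = 6 * (H.card : ℝ) := by
  have h1 : ∑ x, ∑ y, ∑ z, b2r (ofSet H x y z) =
      ∑ t : V × V × V, b2r (ofSet H t.1 t.2.1 t.2.2) := by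
    rw [Fintype.sum_prod_type]
    refine Finset.sum_congr rfl fun x _ => ?_
    rw [Fintype.sum_prod_type]
  rw [h1]
  have h2 : ∑ t : V × V × V, b2r (ofSet H t.1 t.2.1 t.2.2) =
      (((Finset.univ : Finset (V × V × V)).filter (fun t => t.1 ≠ t.2.1 ∧ t.1 ≠ t.2.2 ∧
      t.2.1 ≠ t.2.2 ∧ ({t.1, t.2.1, t.2.2} : Finset V) ∈ H)).card : ℝ) := by
    rw [Finset.card_filter]
    push_cast
    refine Finset.sum_congr rfl fun t _ => ?_
    simp only [b2r, ofSet, decide_eq_true_eq]
  rw [h2]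
  have h3 : ((Finset.univ : Finset (V × V × V)).filter (fun t => t.1 ≠ t.2.1 ∧ t.1 ≠ t.2.2 ∧
      t.2.1 ≠ t.2.2 ∧ ({t.1, t.2.1, t.2.2} : Finset V) ∈ H)).card = ∑ e ∈ H, 6 := by
    rw [Finset.card_eq_sum_card_fiberwise (f := fun t : V × V × V =>
      ({t.1, t.2.1, t.2.2} : Finset V)) (t := H)]
    · refine Finset.sum_congr rfl fun e he => ?_
      rw [← fib_card e (hH e he)]
      congr 1
      ext t
      simp only [Finset.mem_filter, Finset.mem_univ, true_and]
      constructor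
      · rintro ⟨⟨a, b, c, _⟩, d⟩; exact ⟨a, b, c, d⟩
      · rintro ⟨a, b, c, d⟩; exact ⟨⟨a, b, c, d ▸ he⟩, d⟩
    · intro t ht
      simp only [Finset.coe_filter, Finset.mem_univ, true_and, Set.mem_ofPred_eq] at ht
      exact ht.2.2.2
  rw [h3]
  simp [mul_comm]

/-- The family of triples of a Boolean function. -/
def toSet (E : V → V → V → Bool) : Finset (Finset V) :=
  (Finset.univ.filter (fun t : V × V × V => E t.1 t.2.1 t.2.2 = true)).image
    (fun t => ({t.1, t.2.1, t.2.2} : Finset V))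

theorem K4m.ne {E : V → V → V → Bool} (hE : K4m E) {a b c : V} (h : E a b c = true) :
    a ≠ b ∧ a ≠ c ∧ b ≠ c := by
  refine ⟨?_, ?_, ?_⟩
  · rintro rfl
    rw [hE.irr] at h; exact absurd h (by simp)
  · rintro rfl
    rw [hE.s23, hE.irr] at h; exact absurd h (by simp)
  · rintro rfl
    rw [hE.s12, hE.s23, hE.irr] at h; exact absurd h (by simp)

theorem mem_toSet {E : V → V → V → Bool} (hE : K4m E) {a b c : V} (h1 : a ≠ b) (h2 : a ≠ c)
    (h3 : b ≠ c) : ({a, b, c} : Finset V) ∈ toSet E ↔ E a b c = true := by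
  unfold toSet
  simp only [Finset.mem_image, Finset.mem_filter, Finset.mem_univ, true_and, Prod.exists]
  constructor
  · rintro ⟨x, y, z, h, he⟩
    obtain ⟨n1, n2, n3⟩ := hE.ne h
    have ha : a ∈ ({x, y, z} : Finset V) := by rw [he]; simp
    have hb : b ∈ ({x, y, z} : Finset V) := by rw [he]; simp
    have hc : c ∈ ({x, y, z} : Finset V) := by rw [he]; simp
    simp only [Finset.mem_insert, Finset.mem_singleton] at ha hb hc
    have s12 := hE.s12
    have s23 := hE.s23
    rcases ha with rfl | rfl | rfl <;> rcases hb with rfl | rfl | rfl <;>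
      rcases hc with rfl | rfl | rfl <;> first
      | exact absurd rfl h1
      | exact absurd rfl h2
      | exact absurd rfl h3
      | exact h
      | (rw [s12]; exact h)
      | (rw [s23]; exact h)
      | (rw [s12, s23]; exact h)
      | (rw [s23, s12]; exact h)
      | (rw [s12, s23, s12]; exact h)
  · intro h
    exact ⟨a, b, c, h, rfl⟩

theorem toSet_card {E : V → V → V → Bool} (hE : K4m E) : ∀ e ∈ toSet E, e.card = 3 := by
  intro e he
  unfold toSet at he
  simp only [Finset.mem_image, Finset.mem_filter, Finset.mem_univ, true_and, Prod.exists] at he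
  obtain ⟨x, y, z, h, rfl⟩ := he
  obtain ⟨n1, n2, n3⟩ := hE.ne h
  exact Finset.card_eq_three.2 ⟨x, y, z, n1, n2, n3, rfl⟩

theorem ofSet_toSet {E : V → V → V → Bool} (hE : K4m E) : ofSet (toSet E) = E := by
  funext a b c
  unfold ofSet
  by_cases h : E a b c = true
  · obtain ⟨n1, n2, n3⟩ := hE.ne h
    rw [h, decide_eq_true_eq]
    exact ⟨n1, n2, n3, (mem_toSet hE n1 n2 n3).2 h⟩
  · have h' : E a b c = false := by simpa using h
    rw [h', decide_eq_false_iff_not]
    rintro ⟨n1, n2, n3, hm⟩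
    exact h ((mem_toSet hE n1 n2 n3).1 hm)

end

/-! The Turan number. -/

theorem toSet_free {n : ℕ} {E : Fin n → Fin n → Fin n → Bool} (hE : K4m E) :
    K4mFree (toSet E) := by
  intro a b c d h1 h2 h3 h4 h5 h6 ⟨m1, m2, m3⟩
  exact hE.free a b c d ((mem_toSet hE h1 h2 h4).1 m1) ((mem_toSet hE h1 h3 h5).1 m2)
    ((mem_toSet hE h2 h3 h6).1 m3)

theorem ofSet_K4m {n : ℕ} {H : Finset (Finset (Fin n))} (hH : K4mFree H) : K4m (ofSet H) := by
  refine ⟨fun a b c => ?_, fun a b c => ?_, fun a b => ?_, fun a b c d h1 h2 h3 => ?_⟩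
  · unfold ofSet
    rw [decide_eq_decide]
    have : ({a, b, c} : Finset (Fin n)) = {b, a, c} := by
      ext t; simp only [Finset.mem_insert, Finset.mem_singleton]; tauto
    rw [this]
    tauto
  · unfold ofSet
    rw [decide_eq_decide]
    have : ({a, b, c} : Finset (Fin n)) = {a, c, b} := by
      ext t; simp only [Finset.mem_insert, Finset.mem_singleton]; tauto
    rw [this]
    tauto
  · simp [ofSet]
  · unfold ofSet at h1 h2 h3
    rw [decide_eq_true_eq] at h1 h2 h3
    exact hH a b c d h1.1 h1.2.1 h2.2.1 h1.2.2.1 h2.2.2.1 h3.2.2.1 ⟨h1.2.2.2, h2.2.2.2, h3.2.2.2⟩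

theorem ex_bdd (n : ℕ) : BddAbove {m | ∃ H : Finset (Finset (Fin n)), IsGraph3 H ∧ K4mFree H ∧
    H.card = m} := by
  refine ⟨Fintype.card (Finset (Fin n)), ?_⟩
  rintro m ⟨H, _, _, rfl⟩
  exact Finset.card_le_univ H

theorem ex_mem (n : ℕ) : ∃ H : Finset (Finset (Fin n)), IsGraph3 H ∧ K4mFree H ∧
    H.card = ex n := by
  have hne : {m | ∃ H : Finset (Finset (Fin n)), IsGraph3 H ∧ K4mFree H ∧ H.card = m}.Nonempty :=
    ⟨0, ∅, fun e he => by simp at he, fun a b c d _ _ _ _ _ _ h => by simp at h, rfl⟩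
  exact Nat.sSup_mem hne (ex_bdd n)

theorem ex_upper (n : ℕ) : 6 * (ex n : ℝ) ≤ L * (n : ℝ) ^ 3 := by
  obtain ⟨H, h1, h2, h3⟩ := ex_mem n
  have h4 := dens_le_L_hom (ofSet_K4m h2) (u := fun _ => (1 : ℝ)) (fun _ => zero_le_one)
  have h5 : dens (ofSet H) (fun _ => (1 : ℝ)) = 6 * (H.card : ℝ) := by
    rw [← sum_ofSet H h1]
    unfold dens
    simp
  rw [h5, h3] at h4
  simpa using h4

theorem ex_lower (n : ℕ) {V : Type} [Fintype V] {E : V → V → V → Bool} (hE : K4m E) {w : V → ℝ}
    (hw : Wt w) : (n.choose 3 : ℝ) * dens E w ≤ ex n := by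
  have h1 : ∀ φ : Fin n → V, (∑ i, ∑ j, ∑ k, b2r (E (φ i) (φ j) (φ k))) / 6 ≤ ex n := by
    intro φ
    have hK := hE.comp φ
    have h2 := sum_ofSet (toSet (fun a b c => E (φ a) (φ b) (φ c))) (toSet_card hK)
    rw [ofSet_toSet hK] at h2
    rw [h2]
    have h3 : (toSet (fun a b c => E (φ a) (φ b) (φ c))).card ≤ ex n :=
      le_csSup (ex_bdd n) ⟨_, toSet_card hK, toSet_free hK, rfl⟩
    have h4 : ((toSet (fun a b c => E (φ a) (φ b) (φ c))).card : ℝ) ≤ ex n := by exact_mod_cast h3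
    linarith
  have h2 := Ev_mono n w hw.nn h1
  rw [Ev_const n w hw.one] at h2
  refine le_trans (le_of_eq ?_) h2
  have h3 : Ev n w (fun φ => (∑ i, ∑ j, ∑ k, b2r (E (φ i) (φ j) (φ k))) / 6) =
      (∑ i : Fin n, ∑ j : Fin n, ∑ k : Fin n, Ev n w (fun φ => b2r (E (φ i) (φ j) (φ k)))) / 6 := by
    have e1 : (fun φ : Fin n → V => (∑ i, ∑ j, ∑ k, b2r (E (φ i) (φ j) (φ k))) / 6) =
        fun φ => (1 / 6) * ∑ i, ∑ j, ∑ k, b2r (E (φ i) (φ j) (φ k)) := by
      funext φ; ring
    rw [e1, Ev_mul, Ev_sum]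
    simp only [Ev_sum]
    ring
  rw [h3]
  have h4 : ∀ i j k : Fin n, Ev n w (fun φ => b2r (E (φ i) (φ j) (φ k))) =
      if i ≠ j ∧ i ≠ k ∧ j ≠ k then dens E w else 0 := by
    intro i j k
    split
    · rename_i h
      exact Ev_triple w hw.one (fun x y z => b2r (E x y z)) i j k h.1 h.2.1 h.2.2
    · rename_i h
      have : (fun φ : Fin n → V => b2r (E (φ i) (φ j) (φ k))) = fun _ => 0 := by
        funext φ
        by_contra hb
        have hb' : E (φ i) (φ j) (φ k) = true := by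
          by_contra hc
          simp only [Bool.not_eq_true] at hc
          exact hb (by rw [hc]; simp)
        classical
        obtain ⟨n1, n2, n3⟩ := hE.ne hb'
        exact h ⟨fun e => n1 (by rw [e]), fun e => n2 (by rw [e]), fun e => n3 (by rw [e])⟩
      rw [this, Ev_const n w hw.one]
  simp only [h4]
  have h5 : (∑ i : Fin n, ∑ j : Fin n, ∑ k : Fin n, if i ≠ j ∧ i ≠ k ∧ j ≠ k then dens E w else 0)
      = 6 * (n.choose 3 : ℝ) * dens E w := by
    have h6 := sum_ofSet (Finset.powersetCard 3 (Finset.univ : Finset (Fin n)))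
      (fun e he => (Finset.mem_powersetCard.1 he).2)
    rw [Finset.card_powersetCard, Finset.card_univ, Fintype.card_fin] at h6
    rw [← h6, Finset.sum_mul]
    refine Finset.sum_congr rfl fun i _ => ?_
    rw [Finset.sum_mul]
    refine Finset.sum_congr rfl fun j _ => ?_
    rw [Finset.sum_mul]
    refine Finset.sum_congr rfl fun k _ => ?_
    by_cases h : i ≠ j ∧ i ≠ k ∧ j ≠ k
    · rw [if_pos h]
      have : ofSet (Finset.powersetCard 3 (Finset.univ : Finset (Fin n))) i j k = true := by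
        unfold ofSet
        rw [decide_eq_true_eq]
        refine ⟨h.1, h.2.1, h.2.2, ?_⟩
        rw [Finset.mem_powersetCard]
        exact ⟨Finset.subset_univ _, Finset.card_eq_three.2 ⟨i, j, k, h.1, h.2.1, h.2.2, rfl⟩⟩
      rw [this]; simp
    · rw [if_neg h]
      have : ofSet (Finset.powersetCard 3 (Finset.univ : Finset (Fin n))) i j k = false := by
        unfold ofSet
        rw [decide_eq_false_iff_not]
        rintro ⟨a, b, c, _⟩
        exact h ⟨a, b, c⟩
      rw [this]; simp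
  rw [h5]
  ring

theorem ex_lower_L (n : ℕ) : (n.choose 3 : ℝ) * L ≤ ex n := by
  rcases Nat.eq_zero_or_pos (n.choose 3) with h | h
  · rw [h]; simp
  · have h0 : (0 : ℝ) < n.choose 3 := by exact_mod_cast h
    have : L ≤ (ex n : ℝ) / n.choose 3 := by
      refine csSup_le vals_nonempty ?_
      rintro x ⟨m, E, w, hE, hw, rfl⟩
      rw [le_div_iff₀ h0, mul_comm]
      exact ex_lower n hE hw
    rw [le_div_iff₀ h0] at this
    linarith

/-- The Turan density exists and is `L`. -/
theorem tendsto_L : Filter.Tendsto (fun n : ℕ => (ex n : ℝ) / (n.choose 3 : ℝ)) Filter.atTop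
    (nhds L) := by
  have h1 : Filter.Tendsto (fun n : ℕ => L * (((n : ℝ) / (n + (-1))) * ((n : ℝ) / (n + (-2)))))
      Filter.atTop (nhds (L * (1 * 1))) :=
    ((tendsto_natCast_div_add_atTop (-1 : ℝ)).mul (tendsto_natCast_div_add_atTop (-2 : ℝ))).const_mul L
  rw [mul_one, mul_one] at h1
  refine tendsto_of_tendsto_of_tendsto_of_le_of_le' tendsto_const_nhds h1 ?_ ?_
  · filter_upwards [Filter.eventually_ge_atTop 3] with n hn
    have h0 : (0 : ℝ) < n.choose 3 := by exact_mod_cast Nat.choose_pos hn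
    rw [le_div_iff₀ h0, mul_comm]
    exact ex_lower_L n
  · filter_upwards [Filter.eventually_ge_atTop 3] with n hn
    have h0 : (0 : ℝ) < n.choose 3 := by exact_mod_cast Nat.choose_pos hn
    have hn' : (3 : ℝ) ≤ n := by exact_mod_cast hn
    have hc : 6 * (n.choose 3 : ℝ) = n * (n - 1) * (n - 2) := by
      have h2 := Nat.cast_choose_eq_ascPochhammer_div ℝ n 3
      have h3 : (n.choose 3 : ℝ) = n * (n - 1) * (n - 2) / 6 := by
        obtain ⟨m, rfl⟩ : ∃ m, n = m + 3 := ⟨n - 3, by omega⟩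
        have h4 : (m + 3).choose 3 * 6 = (m + 3) * (m + 2) * (m + 1) := by
          have := Nat.descFactorial_eq_factorial_mul_choose (m + 3) 3
          simp only [Nat.descFactorial, Nat.factorial] at this
          have e : (m + 3 - 2) * ((m + 3 - 1) * ((m + 3 - 0) * 1)) = (m + 3) * (m + 2) * (m + 1) := by
            have a1 : m + 3 - 2 = m + 1 := by omega
            have a2 : m + 3 - 1 = m + 2 := by omega
            have a3 : m + 3 - 0 = m + 3 := by omega
            rw [a1, a2, a3]; ring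
          rw [e] at this
          omega
        have h5 : (((m + 3).choose 3 : ℕ) : ℝ) * 6 = ((m : ℝ) + 3) * (m + 2) * (m + 1) := by
          exact_mod_cast h4
        push_cast
        linarith
      rw [h3]; ring
    rw [div_le_iff₀ h0]
    have h3 := ex_upper n
    have hpos : 0 < (n : ℝ) + (-1) := by linarith
    have hpos2 : 0 < (n : ℝ) + (-2) := by linarith
    have h4 : L * ((n : ℝ) / (n + (-1)) * ((n : ℝ) / (n + (-2)))) * (n.choose 3 : ℝ) =
        L * (n : ℝ) ^ 3 / 6 := by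
      have : (n.choose 3 : ℝ) = n * (n - 1) * (n - 2) / 6 := by linarith
      rw [this]
      field_simp
      ring
    rw [h4]
    linarith

/-! The lower bound. -/

/-- The `2-(6,3,2)` design. -/
def D6 : Fin 6 → Fin 6 → Fin 6 → Bool := fun i j k =>
  decide (i ≠ j) && decide (i ≠ k) && decide (j ≠ k) &&
    ([7, 11, 21, 41, 49, 38, 26, 50, 28, 44] : List ℕ).contains (2 ^ (i : ℕ) + 2 ^ (j : ℕ) + 2 ^ (k : ℕ))

theorem D6_K4m : K4m D6 := by
  refine ⟨by decide, by decide, by decide, by decide⟩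

/-- The blow-up with copies inside the parts. -/
def blow {V : Type} (E : V → V → V → Bool) : Fin 6 × V → Fin 6 × V → Fin 6 × V → Bool :=
  fun a b c => if a.1 = b.1 ∧ a.1 = c.1 then E a.2 b.2 c.2 else D6 a.1 b.1 c.1

theorem blow_K4m {V : Type} {E : V → V → V → Bool} (hE : K4m E) : K4m (blow E) := by
  have hD := D6_K4m
  refine ⟨fun a b c => ?_, fun a b c => ?_, fun a b => ?_, fun a b c d h1 h2 h3 => ?_⟩
  · unfold blow
    by_cases h : a.1 = b.1 ∧ a.1 = c.1
    · rw [if_pos h, if_pos ⟨h.1.symm, h.1.symm.trans h.2⟩, hE.s12]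
    · rw [if_neg h, if_neg (fun h' => h ⟨h'.1.symm, h'.1.symm.trans h'.2⟩), hD.s12]
  · unfold blow
    by_cases h : a.1 = b.1 ∧ a.1 = c.1
    · rw [if_pos h, if_pos ⟨h.2, h.1⟩, hE.s23]
    · rw [if_neg h, if_neg (fun h' => h ⟨h'.2, h'.1⟩), hD.s23]
  · unfold blow
    by_cases h : a.1 = a.1 ∧ a.1 = b.1
    · rw [if_pos h, hE.irr]
    · rw [if_neg h, hD.irr]
  · unfold blow at h1 h2 h3
    by_cases hbc : a.1 = b.1 ∧ a.1 = c.1
    · rw [if_pos hbc] at h1
      by_cases hd : a.1 = d.1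
      · rw [if_pos ⟨hbc.1, hd⟩] at h2
        rw [if_pos ⟨hbc.2, hd⟩] at h3
        exact hE.free _ _ _ _ h1 h2 h3
      · rw [if_neg (fun h => hd h.2), ← hbc.1, hD.irr] at h2
        exact absurd h2 (by simp)
    · rw [if_neg hbc] at h1
      obtain ⟨n1, n2, n3⟩ := hD.ne h1
      rw [if_neg (fun h => n1 h.1)] at h2
      rw [if_neg (fun h => n2 h.1)] at h3
      exact hD.free _ _ _ _ h1 h2 h3

theorem sum_D6 : ∑ i, ∑ j, ∑ k, b2r (D6 i j k) = 60 := by
  have h : ∀ i j k, b2r (D6 i j k) = (((if D6 i j k = true then 1 else 0 : ℕ)) : ℝ) := by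
    intro i j k
    unfold b2r
    split <;> simp
  simp only [h]
  have h2 : ∑ i : Fin 6, ∑ j : Fin 6, ∑ k : Fin 6, (if D6 i j k = true then 1 else 0 : ℕ) = 60 := by
    decide
  exact_mod_cast h2

theorem blow_dens {V : Type} [Fintype V] (E : V → V → V → Bool) {w : V → ℝ} (hw : Wt w) :
    dens (blow E) (fun a => w a.2 / 6) = 5 / 18 + dens E w / 36 := by
  have h1 : dens (blow E) (fun a => w a.2 / 6) = (1 / 216) * ∑ i : Fin 6, ∑ j : Fin 6, ∑ k : Fin 6,
      ∑ x, ∑ y, ∑ z, w x * w y * w z * b2r (blow E (i, x) (j, y) (k, z)) := by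
    unfold dens
    rw [Fintype.sum_prod_type, Finset.mul_sum]
    refine Finset.sum_congr rfl fun i _ => ?_
    have e1 : ∀ x : V, ∑ b : Fin 6 × V, ∑ c : Fin 6 × V, w x / 6 * (w b.2 / 6) * (w c.2 / 6) *
        b2r (blow E (i, x) b c) = ∑ j : Fin 6, ∑ k : Fin 6, ∑ y, ∑ z, (1 / 216) *
          (w x * w y * w z * b2r (blow E (i, x) (j, y) (k, z))) := by
      intro x
      rw [Fintype.sum_prod_type]
      refine Finset.sum_congr rfl fun j _ => ?_
      rw [Finset.sum_comm' (t' := Finset.univ) (s' := fun _ => Finset.univ) (by simp)]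
      rw [Fintype.sum_prod_type]
      refine Finset.sum_congr rfl fun k _ => ?_
      rw [Finset.sum_comm]
      refine Finset.sum_congr rfl fun y _ => Finset.sum_congr rfl fun z _ => by ring
    simp only [e1]
    rw [Finset.sum_comm, Finset.mul_sum]
    refine Finset.sum_congr rfl fun j _ => ?_
    rw [Finset.sum_comm, Finset.mul_sum]
    refine Finset.sum_congr rfl fun k _ => ?_
    rw [Finset.mul_sum]
    refine Finset.sum_congr rfl fun x _ => ?_
    rw [Finset.mul_sum]
    refine Finset.sum_congr rfl fun y _ => ?_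
    rw [Finset.mul_sum]
  have h2 : ∀ i j k : Fin 6, ∑ x, ∑ y, ∑ z, w x * w y * w z * b2r (blow E (i, x) (j, y) (k, z)) =
      (if i = j ∧ i = k then dens E w else 0) + b2r (D6 i j k) := by
    intro i j k
    have hs : ∑ x, ∑ y, ∑ z, w x * w y * w z = 1 := by
      have : ∑ x, ∑ y, ∑ z, w x * w y * w z = (∑ x, w x) * (∑ x, w x) * (∑ x, w x) := by
        rw [Finset.sum_mul_sum, Finset.sum_mul]
        refine Finset.sum_congr rfl fun x _ => ?_
        rw [Finset.sum_mul_sum]
      rw [this, hw.one]; norm_num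
    by_cases h : i = j ∧ i = k
    · rw [if_pos h]
      have hD : D6 i j k = false := by rw [← h.1]; exact D6_K4m.irr _ _
      rw [hD, b2r_false, add_zero]
      unfold dens
      refine Finset.sum_congr rfl fun x _ => Finset.sum_congr rfl fun y _ =>
        Finset.sum_congr rfl fun z _ => ?_
      unfold blow
      rw [if_pos h]
    · rw [if_neg h, zero_add]
      have : ∀ x y z, b2r (blow E (i, x) (j, y) (k, z)) = b2r (D6 i j k) := by
        intro x y z
        unfold blow
        rw [if_neg h]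
      simp only [this, ← Finset.sum_mul]
      rw [hs, one_mul]
  rw [h1]
  simp only [h2, Finset.sum_add_distrib]
  rw [sum_D6]
  have h3 : ∑ i : Fin 6, ∑ j : Fin 6, ∑ k : Fin 6, (if i = j ∧ i = k then dens E w else 0) =
      6 * dens E w := by
    have : ∀ i j k : Fin 6, (if i = j ∧ i = k then dens E w else 0) =
        dens E w * (((if i = j ∧ i = k then 1 else 0 : ℕ)) : ℝ) := by
      intro i j k
      split <;> simp
    simp only [this, ← Finset.mul_sum]
    have h4 : ∑ i : Fin 6, ∑ j : Fin 6, ∑ k : Fin 6, (if i = j ∧ i = k then 1 else 0 : ℕ) = 6 := by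
      decide
    have h5 : ∑ i : Fin 6, ∑ j : Fin 6, ∑ k : Fin 6, (((if i = j ∧ i = k then 1 else 0 : ℕ)) : ℝ)
        = 6 := by exact_mod_cast h4
    rw [h5]; ring
  rw [h3]
  ring

theorem L_ge : 2 / 7 ≤ L := by
  have h1 : ∀ x ∈ Vals, x ≤ 36 * L - 10 := by
    rintro x ⟨n, E, w, hE, hw, rfl⟩
    have hw' : Wt (fun a : Fin 6 × Fin n => w a.2 / 6) := by
      refine ⟨fun a => div_nonneg (hw.nn _) (by norm_num), ?_⟩
      rw [Fintype.sum_prod_type]
      simp only [← Finset.sum_div, hw.one]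
      simp
    have h2 := dens_le_L (blow_K4m hE) hw'
    rw [blow_dens E hw] at h2
    linarith
  have h2 : L ≤ 36 * L - 10 := csSup_le vals_nonempty h1
  linarith

/-- The frame: an upper bound for all densities gives the Turan density. -/
theorem frame (h : L ≤ 2 / 7) : Filter.Tendsto (fun n : ℕ => (ex n : ℝ) / (n.choose 3 : ℝ))
    Filter.atTop (nhds (2 / 7)) := by
  have : L = 2 / 7 := le_antisymm h L_ge
  rw [← this]
  exact tendsto_L

end KF
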