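import Mathlib

set_option autoImplicit false

/-!
Frame for the Turan density of K4^- : weighted 3-graphs on finite types.
-/

namespace KF

/-- A K4^- -free 3-graph, given by a symmetric Boolean function. -/
structure K4m {V : Type} (E : V → V → V → Bool) : Prop where
  s12 : ∀ a b c, E a b c = E b a c
  s23 : ∀ a b c, E a b c = E a c b
  irr : ∀ a b, E a a b = false
  free : ∀ a b c d, E a b c = true → E a b d = true → E a c d = true → False

/-- Probability weights. -/
structure Wt {V : Type} [Fintype V] (w : V → ℝ) : Prop where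
  nn : ∀ v, 0 ≤ w v
  one : ∑ v, w v = 1

/-- The real number of a Boolean. -/
def b2r (b : Bool) : ℝ := if b = true then 1 else 0

/-- Ordered triple density (homogeneous of degree three in `w`). -/
noncomputable def dens {V : Type} [Fintype V] (E : V → V → V → Bool) (w : V → ℝ) : ℝ :=
  ∑ x, ∑ y, ∑ z, w x * w y * w z * b2r (E x y z)

/-- The degree of a vertex. -/
noncomputable def deg {V : Type} [Fintype V] (E : V → V → V → Bool) (w : V → ℝ) (v : V) : ℝ :=
  ∑ y, ∑ z, w y * w z * b2r (E v y z)

/-- Expectation over `n` independent samples. -/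
noncomputable def Ev {V : Type} [Fintype V] (n : ℕ) (w : V → ℝ) (f : (Fin n → V) → ℝ) : ℝ :=
  ∑ φ : Fin n → V, (∏ i, w (φ i)) * f φ

/-- The set of all densities of weighted K4^- -free 3-graphs. -/
def Vals : Set ℝ :=
  {x | ∃ (n : ℕ) (E : Fin n → Fin n → Fin n → Bool) (w : Fin n → ℝ), K4m E ∧ Wt w ∧ x = dens E w}

/-- The supremum of the densities. -/
noncomputable def L : ℝ := sSup Vals

/-- `E w` is an optimal configuration with full support: positive weights, all degrees equal to
the density, and `w` is a maximiser for `E`. -/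
structure Opt {V : Type} [Fintype V] (E : V → V → V → Bool) (w : V → ℝ) : Prop where
  free : K4m E
  wt : Wt w
  pos : ∀ v, 0 < w v
  reg : ∀ v, deg E w v = dens E w
  max : ∀ u : V → ℝ, (∀ v, 0 ≤ u v) → dens E u ≤ dens E w * (∑ v, u v) ^ 3

/-! The definitions of the statement. -/

/-- A family of triples. -/
def IsGraph3 {n : ℕ} (H : Finset (Finset (Fin n))) : Prop := ∀ e ∈ H, e.card = 3

/-- No four vertices span three edges. -/
def K4mFree {n : ℕ} (H : Finset (Finset (Fin n))) : Prop :=
  ∀ a b c d : Fin n, a ≠ b → a ≠ c → a ≠ d → b ≠ c → b ≠ d → c ≠ d →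
    ¬ (({a, b, c} : Finset (Fin n)) ∈ H ∧ ({a, b, d} : Finset (Fin n)) ∈ H ∧
      ({a, c, d} : Finset (Fin n)) ∈ H)

/-- The Turan number of K4^-. -/
noncomputable def ex (n : ℕ) : ℕ :=
  sSup {m | ∃ H : Finset (Finset (Fin n)), IsGraph3 H ∧ K4mFree H ∧ H.card = m}

end KF
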