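import Pool.Agent.Helper91.KF.Defs

set_option autoImplicit false

namespace KF

open Finset

section
variable {V : Type} [Fintype V]

theorem b2r_nonneg (b : Bool) : 0 ≤ b2r b := by unfold b2r; split <;> norm_num

theorem b2r_le_one (b : Bool) : b2r b ≤ 1 := by unfold b2r; split <;> norm_num

@[simp] theorem b2r_true : b2r true = 1 := by simp [b2r]

@[simp] theorem b2r_false : b2r false = 0 := by simp [b2r]

/-- The trilinear form. -/
noncomputable def tri (E : V → V → V → Bool) (u v w : V → ℝ) : ℝ :=
  ∑ x, ∑ y, ∑ z, u x * v y * w z * b2r (E x y z)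

theorem dens_eq_tri (E : V → V → V → Bool) (w : V → ℝ) : dens E w = tri E w w w := rfl

theorem tri_add1 (E : V → V → V → Bool) (u u' v w : V → ℝ) :
    tri E (u + u') v w = tri E u v w + tri E u' v w := by
  simp only [tri, Pi.add_apply, ← Finset.sum_add_distrib]
  refine Finset.sum_congr rfl fun x _ => Finset.sum_congr rfl fun y _ =>
    Finset.sum_congr rfl fun z _ => by ring

theorem tri_smul1 (E : V → V → V → Bool) (c : ℝ) (u v w : V → ℝ) :
    tri E (c • u) v w = c * tri E u v w := by
  simp only [tri, Pi.smul_apply, smul_eq_mul, Finset.mul_sum]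
  refine Finset.sum_congr rfl fun x _ => Finset.sum_congr rfl fun y _ =>
    Finset.sum_congr rfl fun z _ => by ring

theorem tri_swap12 {E : V → V → V → Bool} (hE : K4m E) (u v w : V → ℝ) :
    tri E u v w = tri E v u w := by
  unfold tri
  rw [Finset.sum_comm]
  refine Finset.sum_congr rfl fun x _ => Finset.sum_congr rfl fun y _ =>
    Finset.sum_congr rfl fun z _ => ?_
  rw [hE.s12 y x z]; ring

theorem tri_swap23 {E : V → V → V → Bool} (hE : K4m E) (u v w : V → ℝ) :
    tri E u v w = tri E u w v := by
  unfold tri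
  refine Finset.sum_congr rfl fun x _ => ?_
  rw [Finset.sum_comm]
  refine Finset.sum_congr rfl fun y _ =>
    Finset.sum_congr rfl fun z _ => ?_
  rw [hE.s23 x z y]; ring

theorem tri_swap13 {E : V → V → V → Bool} (hE : K4m E) (u v w : V → ℝ) :
    tri E u v w = tri E w v u := by
  rw [tri_swap12 hE, tri_swap23 hE, tri_swap12 hE]

theorem tri_add2 {E : V → V → V → Bool} (hE : K4m E) (u v v' w : V → ℝ) :
    tri E u (v + v') w = tri E u v w + tri E u v' w := by
  rw [tri_swap12 hE, tri_add1, tri_swap12 hE v, tri_swap12 hE v']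

theorem tri_add3 {E : V → V → V → Bool} (hE : K4m E) (u v w w' : V → ℝ) :
    tri E u v (w + w') = tri E u v w + tri E u v w' := by
  rw [tri_swap13 hE, tri_add1, tri_swap13 hE w, tri_swap13 hE w']

theorem tri_smul2 {E : V → V → V → Bool} (hE : K4m E) (c : ℝ) (u v w : V → ℝ) :
    tri E u (c • v) w = c * tri E u v w := by
  rw [tri_swap12 hE, tri_smul1, tri_swap12 hE v]

theorem tri_smul3 {E : V → V → V → Bool} (hE : K4m E) (c : ℝ) (u v w : V → ℝ) :
    tri E u v (c • w) = c * tri E u v w := by
  rw [tri_swap13 hE, tri_smul1, tri_swap13 hE w]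

theorem tri_nonneg (E : V → V → V → Bool) {u v w : V → ℝ} (hu : ∀ x, 0 ≤ u x)
    (hv : ∀ x, 0 ≤ v x) (hw : ∀ x, 0 ≤ w x) : 0 ≤ tri E u v w :=
  Finset.sum_nonneg fun x _ => Finset.sum_nonneg fun y _ => Finset.sum_nonneg fun z _ =>
    mul_nonneg (mul_nonneg (mul_nonneg (hu x) (hv y)) (hw z)) (b2r_nonneg _)

theorem tri_le (E : V → V → V → Bool) {u v w : V → ℝ} (hu : ∀ x, 0 ≤ u x)
    (hv : ∀ x, 0 ≤ v x) (hw : ∀ x, 0 ≤ w x) :
    tri E u v w ≤ (∑ x, u x) * (∑ x, v x) * (∑ x, w x) := by
  have h1 : (∑ x, u x) * (∑ x, v x) * (∑ x, w x) = ∑ x, ∑ y, ∑ z, u x * v y * w z := by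
    rw [Finset.sum_mul_sum, Finset.sum_mul]
    refine Finset.sum_congr rfl fun x _ => ?_
    rw [Finset.sum_mul_sum]
  rw [h1]
  refine Finset.sum_le_sum fun x _ => Finset.sum_le_sum fun y _ => Finset.sum_le_sum fun z _ => ?_
  have h2 : 0 ≤ u x * v y * w z := mul_nonneg (mul_nonneg (hu x) (hv y)) (hw z)
  nlinarith [b2r_le_one (E x y z)]

theorem dens_nonneg (E : V → V → V → Bool) {w : V → ℝ} (hw : ∀ x, 0 ≤ w x) : 0 ≤ dens E w :=
  tri_nonneg E hw hw hw

theorem dens_le_cube (E : V → V → V → Bool) {w : V → ℝ} (hw : ∀ x, 0 ≤ w x) :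
    dens E w ≤ (∑ x, w x) ^ 3 := by
  have := tri_le E hw hw hw
  rw [dens_eq_tri]; calc _ ≤ _ := this
    _ = _ := by ring

theorem dens_smul (E : V → V → V → Bool) (c : ℝ) (w : V → ℝ) :
    dens E (c • w) = c ^ 3 * dens E w := by
  simp only [dens, Pi.smul_apply, smul_eq_mul, Finset.mul_sum]
  refine Finset.sum_congr rfl fun x _ => Finset.sum_congr rfl fun y _ =>
    Finset.sum_congr rfl fun z _ => by ring

/-- The point mass. -/
noncomputable def pt [DecidableEq V] (v : V) : V → ℝ := fun x => if x = v then 1 else 0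

theorem tri_pt [DecidableEq V] (E : V → V → V → Bool) (v : V) (u w : V → ℝ) :
    tri E (pt v) u w = ∑ y, ∑ z, u y * w z * b2r (E v y z) := by
  unfold tri pt
  rw [Finset.sum_eq_single v]
  · refine Finset.sum_congr rfl fun y _ => Finset.sum_congr rfl fun z _ => ?_
    simp
  · intro b _ hb
    simp [hb]
  · simp

theorem tri_pt_deg [DecidableEq V] (E : V → V → V → Bool) (v : V) (w : V → ℝ) :
    tri E (pt v) w w = deg E w v := tri_pt E v w w

theorem tri_pt_pt [DecidableEq V] {E : V → V → V → Bool} (hE : K4m E) (v : V) (w : V → ℝ) :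
    tri E (pt v) (pt v) w = 0 := by
  rw [tri_pt]
  refine Finset.sum_eq_zero fun y _ => Finset.sum_eq_zero fun z _ => ?_
  unfold pt
  by_cases h : y = v
  · subst h; simp [hE.irr]
  · simp [h]

theorem tri_pt_pt' [DecidableEq V] {E : V → V → V → Bool} (hE : K4m E) (v : V) (w : V → ℝ) :
    tri E (pt v) w (pt v) = 0 := by rw [tri_swap23 hE, tri_pt_pt hE]

theorem tri_pt_pt'' [DecidableEq V] {E : V → V → V → Bool} (hE : K4m E) (v : V) (w : V → ℝ) :
    tri E w (pt v) (pt v) = 0 := by rw [tri_swap12 hE, tri_pt_pt' hE]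

/-- Adding mass at one vertex. -/
theorem dens_add_pt [DecidableEq V] {E : V → V → V → Bool} (hE : K4m E) (v : V) (w : V → ℝ)
    (t : ℝ) : dens E (w + t • pt v) = dens E w + 3 * t * deg E w v := by
  rw [dens_eq_tri, dens_eq_tri]
  simp only [tri_add1, tri_add2 hE, tri_add3 hE, tri_smul1, tri_smul2 hE, tri_smul3 hE,
    tri_pt_pt hE, tri_pt_pt' hE, tri_pt_pt'' hE]
  rw [tri_swap13 hE w w (pt v), tri_swap12 hE w (pt v) w, tri_pt_deg]
  ring

theorem sum_pt [DecidableEq V] (v : V) : ∑ x, pt v x = 1 := by simp [pt]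

theorem pt_nonneg [DecidableEq V] (v x : V) : 0 ≤ pt v x := by unfold pt; split <;> norm_num

/-- The sum of the degrees. -/
theorem sum_deg (E : V → V → V → Bool) (w : V → ℝ) : ∑ v, w v * deg E w v = dens E w := by
  unfold deg dens
  refine Finset.sum_congr rfl fun x _ => ?_
  rw [Finset.mul_sum]
  refine Finset.sum_congr rfl fun y _ => ?_
  rw [Finset.mul_sum]
  refine Finset.sum_congr rfl fun z _ => by ring

/-- First order condition: with `u`-maximality of `w` all degrees are at most the density. -/
theorem deg_le_of_max [DecidableEq V] {E : V → V → V → Bool} (hE : K4m E) {w : V → ℝ}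
    (hw : Wt w) (hmax : ∀ u : V → ℝ, (∀ v, 0 ≤ u v) → dens E u ≤ dens E w * (∑ v, u v) ^ 3)
    (v : V) : deg E w v ≤ dens E w := by
  have hm0 : 0 ≤ dens E w := dens_nonneg E hw.nn
  have key : ∀ t : ℝ, 0 < t → deg E w v ≤ dens E w * (1 + t + t ^ 2 / 3) := by
    intro t ht
    have h1 := hmax (w + t • pt v) (fun x => by
      have := hw.nn x
      have h2 := pt_nonneg v x
      simp only [Pi.add_apply, Pi.smul_apply, smul_eq_mul]
      positivity)
    have h3 : ∑ x, (w + t • pt v) x = 1 + t := by
      simp only [Pi.add_apply, Pi.smul_apply, smul_eq_mul, Finset.sum_add_distrib,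
        ← Finset.mul_sum, sum_pt, hw.one]; ring
    rw [h3, dens_add_pt hE] at h1
    have h4 : 3 * t * deg E w v ≤ 3 * t * (dens E w * (1 + t + t ^ 2 / 3)) := by
      nlinarith
    exact le_of_mul_le_mul_left h4 (by positivity)
  have hlim : Filter.Tendsto (fun t : ℝ => dens E w * (1 + t + t ^ 2 / 3)) (nhdsWithin 0 (Set.Ioi 0))
      (nhds (dens E w)) := by
    have : Filter.Tendsto (fun t : ℝ => dens E w * (1 + t + t ^ 2 / 3)) (nhds 0)
        (nhds (dens E w * (1 + 0 + 0 ^ 2 / 3))) := by
      apply Continuous.tendsto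
      fun_prop
    simp only [ne_eq, OfNat.ofNat_ne_zero, not_false_eq_true, zero_pow, zero_div, add_zero,
      mul_one] at this
    exact this.mono_left nhdsWithin_le_nhds
  exact ge_of_tendsto hlim (Filter.eventually_of_mem self_mem_nhdsWithin fun t ht => key t ht)

/-- First order condition on the support. -/
theorem deg_eq_of_max [DecidableEq V] {E : V → V → V → Bool} (hE : K4m E) {w : V → ℝ}
    (hw : Wt w) (hmax : ∀ u : V → ℝ, (∀ v, 0 ≤ u v) → dens E u ≤ dens E w * (∑ v, u v) ^ 3)
    (v : V) (hv : 0 < w v) : deg E w v = dens E w := by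
  have h1 := sum_deg E w
  have h2 : ∑ x, w x * (dens E w - deg E w x) = 0 := by
    have : ∑ x, w x * (dens E w - deg E w x) = (∑ x, w x) * dens E w - ∑ x, w x * deg E w x := by
      rw [Finset.sum_mul, ← Finset.sum_sub_distrib]
      refine Finset.sum_congr rfl fun x _ => by ring
    rw [this, h1, hw.one]; ring
  have h3 := (Finset.sum_eq_zero_iff_of_nonneg (fun x _ => mul_nonneg (hw.nn x)
    (sub_nonneg.2 (deg_le_of_max hE hw hmax x)))).1 h2 v (Finset.mem_univ v)
  rcases mul_eq_zero.1 h3 with h | h
  · exact absurd h hv.ne'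
  · linarith

/-- Existence of optimal weights. -/
theorem exists_max [Nonempty V] (E : V → V → V → Bool) : ∃ w : V → ℝ, Wt w ∧
    ∀ u : V → ℝ, (∀ v, 0 ≤ u v) → dens E u ≤ dens E w * (∑ v, u v) ^ 3 := by
  have hc : IsCompact (stdSimplex ℝ V) := isCompact_stdSimplex ℝ V
  have hne : (stdSimplex ℝ V).Nonempty := by
    classical
    exact ⟨pt (Classical.arbitrary V), fun x => pt_nonneg _ _, sum_pt _⟩
  have hcont : Continuous (fun w : V → ℝ => dens E w) := by
    unfold dens
    fun_prop
  obtain ⟨w, hw, hmax⟩ := hc.exists_isMaxOn hne hcont.continuousOn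
  refine ⟨w, ⟨hw.1, hw.2⟩, fun u hu => ?_⟩
  rcases (Finset.sum_nonneg fun v (_ : v ∈ Finset.univ) => hu v).eq_or_lt with h0 | hpos
  · have hz := (Finset.sum_eq_zero_iff_of_nonneg (fun v _ => hu v)).1 h0.symm
    have : u = 0 := funext fun v => hz v (Finset.mem_univ v)
    subst this
    simp [dens]
  · set s := ∑ v, u v with hs
    have h1 : (s⁻¹ • u) ∈ stdSimplex ℝ V := by
      refine ⟨fun v => mul_nonneg (inv_nonneg.2 hpos.le) (hu v), ?_⟩
      simp only [Pi.smul_apply, smul_eq_mul, ← Finset.mul_sum, ← hs]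
      exact inv_mul_cancel₀ hpos.ne'
    have h2 := hmax h1
    simp only [Set.mem_ofPred_eq] at h2
    rw [dens_smul] at h2
    have h3 : dens E u = s ^ 3 * (s⁻¹ ^ 3 * dens E u) := by
      field_simp
    rw [h3, mul_comm (dens E w)]
    exact mul_le_mul_of_nonneg_left h2 (by positivity)

end

/-! Transport. -/

theorem K4m.comp {V W : Type} {E : V → V → V → Bool} (hE : K4m E) (g : W → V) :
    K4m (fun a b c => E (g a) (g b) (g c)) :=
  ⟨fun _ _ _ => hE.s12 _ _ _, fun _ _ _ => hE.s23 _ _ _, fun _ _ => hE.irr _ _,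
    fun _ _ _ _ => hE.free _ _ _ _⟩

theorem dens_equiv {V W : Type} [Fintype V] [Fintype W] (e : W ≃ V) (E : V → V → V → Bool)
    (w : V → ℝ) : dens (fun a b c => E (e a) (e b) (e c)) (fun a => w (e a)) = dens E w := by
  unfold dens
  rw [← Equiv.sum_comp e]
  refine Finset.sum_congr rfl fun x _ => ?_
  rw [← Equiv.sum_comp e]
  refine Finset.sum_congr rfl fun y _ => ?_
  rw [← Equiv.sum_comp e]

theorem deg_equiv {V W : Type} [Fintype V] [Fintype W] (e : W ≃ V) (E : V → V → V → Bool)
    (w : V → ℝ) (v : W) :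
    deg (fun a b c => E (e a) (e b) (e c)) (fun a => w (e a)) v = deg E w (e v) := by
  unfold deg
  rw [← Equiv.sum_comp e]
  refine Finset.sum_congr rfl fun y _ => ?_
  rw [← Equiv.sum_comp e]

theorem Wt.equiv {V W : Type} [Fintype V] [Fintype W] (e : W ≃ V) {w : V → ℝ} (hw : Wt w) :
    Wt (fun a => w (e a)) := ⟨fun a => hw.nn _, by rw [Equiv.sum_comp e, hw.one]⟩

theorem bdd : BddAbove Vals := by
  refine ⟨1, ?_⟩
  rintro x ⟨n, E, w, _, hw, rfl⟩
  have := dens_le_cube E hw.nn
  rw [hw.one] at this
  simpa using this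

theorem dens_le_L {V : Type} [Fintype V] {E : V → V → V → Bool} (hE : K4m E) {w : V → ℝ}
    (hw : Wt w) : dens E w ≤ L := by
  refine le_csSup bdd ?_
  let e := (Fintype.equivFin V).symm
  exact ⟨Fintype.card V, _, _, hE.comp e, hw.equiv e, (dens_equiv e E w).symm⟩

/-- The homogeneous form of the bound by `L`. -/
theorem dens_le_L_hom {V : Type} [Fintype V] {E : V → V → V → Bool} (hE : K4m E) {u : V → ℝ}
    (hu : ∀ v, 0 ≤ u v) : dens E u ≤ L * (∑ v, u v) ^ 3 := by
  by_cases hV : Nonempty V
  · obtain ⟨w, hw, hmax⟩ := exists_max E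
    refine (hmax u hu).trans ?_
    exact mul_le_mul_of_nonneg_right (dens_le_L hE hw)
      (pow_nonneg (Finset.sum_nonneg fun v _ => hu v) 3)
  · rw [not_nonempty_iff] at hV
    simp [dens]

theorem vals_nonempty : Vals.Nonempty :=
  ⟨_, 1, fun _ _ _ => false, fun _ => 1, ⟨fun _ _ _ => rfl, fun _ _ _ => rfl, fun _ _ => rfl,
    fun _ _ _ _ h => by simp at h⟩, ⟨fun _ => zero_le_one, by simp⟩, rfl⟩

theorem L_nonneg : 0 ≤ L := by
  obtain ⟨x, hx⟩ := vals_nonempty
  have := le_csSup bdd hx
  obtain ⟨n, E, w, _, hw, rfl⟩ := hx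
  exact (dens_nonneg E hw.nn).trans this

/-- The sum over the support. -/
theorem sum_support {V : Type} [Fintype V] (w : V → ℝ) (hw : ∀ v, 0 ≤ w v) (f : V → ℝ) :
    ∑ v : {v // 0 < w v}, w v * f v = ∑ v, w v * f v := by
  classical
  have h1 : ∑ v : {v // 0 < w v}, w v * f v = ∑ v ∈ Finset.univ.filter (fun v => 0 < w v), w v * f v := by
    rw [← Finset.sum_subtype_eq_sum_filter, Finset.subtype_univ]
  rw [h1, Finset.sum_filter]
  refine Finset.sum_congr rfl fun v _ => ?_
  split
  · rfl
  · rename_i h
    have : w v = 0 := le_antisymm (not_lt.1 h) (hw v)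
    simp [this]

/-- Restriction to the support. -/
theorem exists_opt_sub {V : Type} [Fintype V] {E : V → V → V → Bool} (hE : K4m E) {w : V → ℝ}
    (hw : Wt w) (hmax : ∀ u : V → ℝ, (∀ v, 0 ≤ u v) → dens E u ≤ dens E w * (∑ v, u v) ^ 3) :
    Opt (fun a b c : {v // 0 < w v} => E a b c) (fun a => w a) ∧
      dens (fun a b c : {v // 0 < w v} => E a b c) (fun a => w a) = dens E w := by
  classical
  have hd : dens (fun a b c : {v // 0 < w v} => E a b c) (fun a => w a) = dens E w := by
    unfold dens
    have h1 : ∀ (g : V → V → V → ℝ), ∑ x : {v // 0 < w v}, ∑ y : {v // 0 < w v},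
        ∑ z : {v // 0 < w v}, w x * w y * w z * g x y z = ∑ x, ∑ y, ∑ z, w x * w y * w z * g x y z := by
      intro g
      have e3 : ∀ x y : V, ∑ z : {v // 0 < w v}, w x * w y * w z * g x y z =
          ∑ z, w x * w y * w z * g x y z := by
        intro x y
        have := sum_support w hw.nn (fun z => w x * w y * g x y z)
        calc _ = ∑ z : {v // 0 < w v}, w z * (w x * w y * g x y z) :=
              Finset.sum_congr rfl fun z _ => by ring
          _ = _ := this
          _ = _ := Finset.sum_congr rfl fun z _ => by ring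
      have e2 : ∀ x : V, ∑ y : {v // 0 < w v}, ∑ z, w x * w y * w z * g x y z =
          ∑ y, ∑ z, w x * w y * w z * g x y z := by
        intro x
        have := sum_support w hw.nn (fun y => ∑ z, w x * w z * g x y z)
        calc _ = ∑ y : {v // 0 < w v}, w y * ∑ z, w x * w z * g x y z := by
              refine Finset.sum_congr rfl fun y _ => ?_
              rw [Finset.mul_sum]
              exact Finset.sum_congr rfl fun z _ => by ring
          _ = _ := this
          _ = _ := by
              refine Finset.sum_congr rfl fun y _ => ?_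
              rw [Finset.mul_sum]
              exact Finset.sum_congr rfl fun z _ => by ring
      have e1 : ∑ x : {v // 0 < w v}, ∑ y, ∑ z, w x * w y * w z * g x y z =
          ∑ x, ∑ y, ∑ z, w x * w y * w z * g x y z := by
        have := sum_support w hw.nn (fun x => ∑ y, ∑ z, w y * w z * g x y z)
        calc _ = ∑ x : {v // 0 < w v}, w x * ∑ y, ∑ z, w y * w z * g x y z := by
              refine Finset.sum_congr rfl fun x _ => ?_
              rw [Finset.mul_sum]
              refine Finset.sum_congr rfl fun y _ => ?_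
              rw [Finset.mul_sum]
              exact Finset.sum_congr rfl fun z _ => by ring
          _ = _ := this
          _ = _ := by
              refine Finset.sum_congr rfl fun x _ => ?_
              rw [Finset.mul_sum]
              refine Finset.sum_congr rfl fun y _ => ?_
              rw [Finset.mul_sum]
              exact Finset.sum_congr rfl fun z _ => by ring
      simp only [e3, e2, e1]
    exact h1 (fun x y z => b2r (E x y z))
  have hs : ∑ v : {v // 0 < w v}, w v = 1 := by
    have := sum_support w hw.nn (fun _ => 1)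
    simp only [mul_one] at this
    rw [this, hw.one]
  have hdeg : ∀ v : {v // 0 < w v}, deg (fun a b c : {v // 0 < w v} => E a b c) (fun a => w a) v
      = deg E w v := by
    intro v
    unfold deg
    have e3 : ∀ y : V, ∑ z : {v // 0 < w v}, w y * w z * b2r (E v y z) =
        ∑ z, w y * w z * b2r (E v y z) := by
      intro y
      have := sum_support w hw.nn (fun z => w y * b2r (E v y z))
      calc _ = ∑ z : {v // 0 < w v}, w z * (w y * b2r (E v y z)) :=
            Finset.sum_congr rfl fun z _ => by ring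
        _ = _ := this
        _ = _ := Finset.sum_congr rfl fun z _ => by ring
    simp only [e3]
    have := sum_support w hw.nn (fun y => ∑ z, w z * b2r (E v y z))
    calc _ = ∑ y : {v // 0 < w v}, w y * ∑ z, w z * b2r (E v y z) := by
          refine Finset.sum_congr rfl fun y _ => ?_
          rw [Finset.mul_sum]
          exact Finset.sum_congr rfl fun z _ => by ring
      _ = _ := this
      _ = _ := by
          refine Finset.sum_congr rfl fun y _ => ?_
          rw [Finset.mul_sum]
          exact Finset.sum_congr rfl fun z _ => by ring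
  refine ⟨⟨hE.comp _, ⟨fun v => (hw.nn _), hs⟩, fun v => v.2, fun v => ?_, fun u hu => ?_⟩, hd⟩
  · rw [hd, hdeg]
    exact deg_eq_of_max hE hw hmax v v.2
  · rw [hd]
    -- extend u by zero
    let u' : V → ℝ := fun x => if h : 0 < w x then u ⟨x, h⟩ else 0
    have hu' : ∀ x, 0 ≤ u' x := by
      intro x
      simp only [u']
      split
      · exact hu _
      · exact le_rfl
    have hsub : ∀ (f : V → ℝ), ∑ x, u' x * f x = ∑ x : {v // 0 < w v}, u x * f x := by
      intro f
      have h1 : ∑ x : {v // 0 < w v}, u x * f x = ∑ x : {v // 0 < w v}, u' x * f x := by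
        refine Finset.sum_congr rfl fun x _ => ?_
        simp only [u', dif_pos x.2]
      rw [h1]
      have h2 : ∑ v : {v // 0 < w v}, u' v * f v =
          ∑ v ∈ Finset.univ.filter (fun v => 0 < w v), u' v * f v := by
        rw [← Finset.sum_subtype_eq_sum_filter, Finset.subtype_univ]
      rw [h2, Finset.sum_filter]
      refine Finset.sum_congr rfl fun v _ => ?_
      split
      · rfl
      · rename_i h
        simp only [u', dif_neg h, zero_mul]
    have hsum : ∑ x, u' x = ∑ x, u x := by
      have := hsub (fun _ => 1)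
      simpa using this
    have hdu : dens E u' = dens (fun a b c : {v // 0 < w v} => E a b c) u := by
      unfold dens
      have e3 : ∀ x y : V, ∑ z, u' x * u' y * u' z * b2r (E x y z) =
          ∑ z : {v // 0 < w v}, u' x * u' y * u z * b2r (E x y z) := by
        intro x y
        have := hsub (fun z => u' x * u' y * b2r (E x y z))
        calc _ = ∑ z, u' z * (u' x * u' y * b2r (E x y z)) :=
              Finset.sum_congr rfl fun z _ => by ring
          _ = _ := this
          _ = _ := Finset.sum_congr rfl fun z _ => by ring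
      have e2 : ∀ x : V, ∑ y, ∑ z : {v // 0 < w v}, u' x * u' y * u z * b2r (E x y z) =
          ∑ y : {v // 0 < w v}, ∑ z : {v // 0 < w v}, u' x * u y * u z * b2r (E x y z) := by
        intro x
        have := hsub (fun y => ∑ z : {v // 0 < w v}, u' x * u z * b2r (E x y z))
        calc _ = ∑ y, u' y * ∑ z : {v // 0 < w v}, u' x * u z * b2r (E x y z) := by
              refine Finset.sum_congr rfl fun y _ => ?_
              rw [Finset.mul_sum]
              exact Finset.sum_congr rfl fun z _ => by ring
          _ = _ := this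
          _ = _ := by
              refine Finset.sum_congr rfl fun y _ => ?_
              rw [Finset.mul_sum]
              exact Finset.sum_congr rfl fun z _ => by ring
      simp only [e3, e2]
      have := hsub (fun x => ∑ y : {v // 0 < w v}, ∑ z : {v // 0 < w v}, u y * u z * b2r (E x y z))
      calc _ = ∑ x, u' x * ∑ y : {v // 0 < w v}, ∑ z : {v // 0 < w v}, u y * u z * b2r (E x y z) := by
            refine Finset.sum_congr rfl fun x _ => ?_
            rw [Finset.mul_sum]
            refine Finset.sum_congr rfl fun y _ => ?_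
            rw [Finset.mul_sum]
            exact Finset.sum_congr rfl fun z _ => by ring
        _ = _ := this
        _ = _ := by
            refine Finset.sum_congr rfl fun x _ => ?_
            rw [Finset.mul_sum]
            refine Finset.sum_congr rfl fun y _ => ?_
            rw [Finset.mul_sum]
            exact Finset.sum_congr rfl fun z _ => by ring
    have := hmax u' hu'
    rw [hsum, hdu] at this
    exact this

/-- Near-optimal configurations which are optimal for their own 3-graph. -/
theorem exists_opt {ε : ℝ} (hε : 0 < ε) : ∃ (n : ℕ) (E : Fin n → Fin n → Fin n → Bool)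
    (w : Fin n → ℝ), Opt E w ∧ L - ε < dens E w := by
  obtain ⟨x, ⟨n, E, w, hE, hw, rfl⟩, hx⟩ := exists_lt_of_lt_csSup vals_nonempty (sub_lt_self L hε)
  have hne : Nonempty (Fin n) := by
    by_contra h
    rw [not_nonempty_iff] at h
    have := hw.one
    simp at this
  obtain ⟨u, hu, hmax⟩ := exists_max E
  have h1 : dens E w ≤ dens E u := by
    have := hmax w hw.nn
    rw [hw.one] at this
    simpa using this
  obtain ⟨ho, hd⟩ := exists_opt_sub hE hu hmax
  let e := (Fintype.equivFin {v // 0 < u v}).symm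
  refine ⟨Fintype.card {v // 0 < u v}, _, fun a => u (e a), ⟨hE.comp (fun a => (e a : Fin n)),
    ⟨fun a => hu.nn _, ?_⟩, fun a => (e a).2, fun v => ?_, fun q hq => ?_⟩, ?_⟩
  · have := ho.wt.one
    rw [← this]
    exact Equiv.sum_comp e (fun a : {v // 0 < u v} => u a)
  · have h2 := deg_equiv e (fun a b c : {v // 0 < u v} => E a b c) (fun a => u a) v
    have h3 := dens_equiv e (fun a b c : {v // 0 < u v} => E a b c) (fun a => u a)
    rw [h2, h3]
    exact ho.reg _
  · have h3 := dens_equiv e (fun a b c : {v // 0 < u v} => E a b c) (fun a => u a)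
    have h4 := dens_equiv e (fun a b c : {v // 0 < u v} => E a b c) (fun a => q (e.symm a))
    simp only [Equiv.symm_apply_apply] at h4
    rw [h3, h4]
    have h5 := ho.max (fun a => q (e.symm a)) (fun a => hq _)
    rw [Equiv.sum_comp e.symm] at h5
    exact h5
  · have h3 := dens_equiv e (fun a b c : {v // 0 < u v} => E a b c) (fun a => u a)
    rw [h3, hd]
    linarith

/-- The final argument. -/
theorem final {p0 c C : ℝ} (hc : 0 < c)
    (h : ∀ (n : ℕ) (E : Fin n → Fin n → Fin n → Bool) (w : Fin n → ℝ), Opt E w →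
      ∃ A B : ℝ, (p0 - L) * A + (dens E w - p0) * B ≤ p0 - dens E w ∧ c ≤ 1 - A + B ∧ B ≤ C) :
    L ≤ p0 := by
  by_contra hcon
  push Not at hcon
  set x := L - p0 with hx
  have hx0 : 0 < x := by linarith
  have hC : 0 < |C| + 1 := by positivity
  obtain ⟨n, E, w, ho, hd⟩ := exists_opt (ε := c * x / (|C| + 1) / 2) (by positivity)
  obtain ⟨A, B, h1, h2, h3⟩ := h n E w ho
  have hle : dens E w ≤ L := dens_le_L ho.free ho.wt
  set y := L - dens E w with hy
  have hy0 : 0 ≤ y := by linarith
  have hyx : y < c * x / (|C| + 1) / 2 := by linarith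
  have h4 : x * (1 - A + B) ≤ y * (1 + B) := by nlinarith
  have h5 : c * x ≤ x * (1 - A + B) := by nlinarith
  have h6 : y * (1 + B) ≤ y * (|C| + 1) := by
    refine mul_le_mul_of_nonneg_left ?_ hy0
    have := le_abs_self C
    linarith
  have h7 : y * (|C| + 1) < c * x := by
    have h8 : y * (|C| + 1) < c * x / (|C| + 1) / 2 * (|C| + 1) :=
      mul_lt_mul_of_pos_right hyx hC
    have h9 : c * x / (|C| + 1) / 2 * (|C| + 1) = c * x / 2 := by field_simp
    have h10 : 0 < c * x := by positivity
    linarith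
  linarith

end KF
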