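import Pool.Agent.Helper91.KF.F3

set_option autoImplicit false

/-!
Table forms of the inequality families: functions of the 35 bit mask of seven sampled vertices.
-/

namespace KF

open Finset

/-- First, second and third vertex of the triples of `Fin 7` in colex order. -/
def T0 : Fin 35 → Fin 7 := ![0, 0, 0, 1, 0, 0, 1, 0, 1, 2, 0, 0, 1, 0, 1, 2, 0, 1, 2, 3,
  0, 0, 1, 0, 1, 2, 0, 1, 2, 3, 0, 1, 2, 3, 4]
def T1 : Fin 35 → Fin 7 := ![1, 1, 2, 2, 1, 2, 2, 3, 3, 3, 1, 2, 2, 3, 3, 3, 4, 4, 4, 4,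
  1, 2, 2, 3, 3, 3, 4, 4, 4, 4, 5, 5, 5, 5, 5]
def T2 : Fin 35 → Fin 7 := ![2, 3, 3, 3, 4, 4, 4, 4, 4, 4, 5, 5, 5, 5, 5, 5, 5, 5, 5, 5,
  6, 6, 6, 6, 6, 6, 6, 6, 6, 6, 6, 6, 6, 6, 6]

/-- The mask of seven vertices. -/
def msk {V : Type} (E : V → V → V → Bool) (φ : Fin 7 → V) : ℕ :=
  Nat.ofBits (fun b : Fin 35 => E (φ (T0 b)) (φ (T1 b)) (φ (T2 b)))

theorem ofBits_slice {n : ℕ} (f : Fin n → Bool) (s l : ℕ) (h : s + l ≤ n) :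
    (Nat.ofBits f / 2 ^ s) % 2 ^ l = Nat.ofBits (fun i : Fin l => f ⟨s + i, by omega⟩) := by
  refine Nat.eq_of_testBit_eq fun i => ?_
  rw [Nat.testBit_mod_two_pow, Nat.testBit_div_two_pow]
  by_cases hi : i < l
  · rw [Nat.testBit_ofBits_lt (fun i : Fin l => f ⟨s + i, by omega⟩) _ hi,
      Nat.testBit_ofBits_lt f _ (by omega : i + s < n)]
    simp [hi, Nat.add_comm]
  · rw [Nat.testBit_ofBits_ge (fun i : Fin l => f ⟨s + i, by omega⟩) _ (by omega)]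
    simp [hi]

theorem ofBits_cat (a b : ℕ) (f : Fin (a + b) → Bool) :
    Nat.ofBits f = Nat.ofBits (fun i : Fin a => f (Fin.castAdd b i)) +
      2 ^ a * Nat.ofBits (fun i : Fin b => f (Fin.natAdd a i)) := by
  have h1 := ofBits_slice f 0 a (by omega)
  have h2 := ofBits_slice f a b le_rfl
  rw [pow_zero, Nat.div_one] at h1
  have h3 : Nat.ofBits f / 2 ^ a < 2 ^ b := by
    rw [Nat.div_lt_iff_lt_mul (by positivity), ← pow_add, Nat.add_comm b a]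
    exact Nat.ofBits_lt_two_pow f
  rw [Nat.mod_eq_of_lt h3] at h2
  have h4 := Nat.mod_add_div (Nat.ofBits f) (2 ^ a)
  rw [h1, h2] at h4
  rw [← h4]
  congr 2
  congr 1
  funext i
  congr 1
  exact Fin.ext (by simp)

section
variable {V : Type} (E : V → V → V → Bool)

/-- Mask of four vertices. -/
def m4 (ρ : Fin 4 → V) : ℕ :=
  Nat.ofBits ![E (ρ 0) (ρ 1) (ρ 2), E (ρ 0) (ρ 1) (ρ 3), E (ρ 0) (ρ 2) (ρ 3), E (ρ 1) (ρ 2) (ρ 3)]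

/-- Link of a vertex on four vertices. -/
def l4 (ρ : Fin 4 → V) (x : V) : ℕ :=
  Nat.ofBits ![E (ρ 0) (ρ 1) x, E (ρ 0) (ρ 2) x, E (ρ 1) (ρ 2) x, E (ρ 0) (ρ 3) x,
    E (ρ 1) (ρ 3) x, E (ρ 2) (ρ 3) x]

/-- Mask of five vertices. -/
def m5 (ρ : Fin 5 → V) : ℕ :=
  Nat.ofBits ![E (ρ 0) (ρ 1) (ρ 2), E (ρ 0) (ρ 1) (ρ 3), E (ρ 0) (ρ 2) (ρ 3), E (ρ 1) (ρ 2) (ρ 3),
    E (ρ 0) (ρ 1) (ρ 4), E (ρ 0) (ρ 2) (ρ 4), E (ρ 1) (ρ 2) (ρ 4), E (ρ 0) (ρ 3) (ρ 4),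
    E (ρ 1) (ρ 3) (ρ 4), E (ρ 2) (ρ 3) (ρ 4)]

/-- Link of a vertex on five vertices. -/
def l5 (ρ : Fin 5 → V) (x : V) : ℕ :=
  Nat.ofBits ![E (ρ 0) (ρ 1) x, E (ρ 0) (ρ 2) x, E (ρ 1) (ρ 2) x, E (ρ 0) (ρ 3) x,
    E (ρ 1) (ρ 3) x, E (ρ 2) (ρ 3) x, E (ρ 0) (ρ 4) x, E (ρ 1) (ρ 4) x, E (ρ 2) (ρ 4) x,
    E (ρ 3) (ρ 4) x]

theorem msk_m4 (φ : Fin 7 → V) : msk E φ % 16 = m4 E ![φ 0, φ 1, φ 2, φ 3] := by
  have h := ofBits_slice (fun b : Fin 35 => E (φ (T0 b)) (φ (T1 b)) (φ (T2 b))) 0 4 (by norm_num)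
  have h1 : msk E φ % 16 = (Nat.ofBits (fun b : Fin 35 => E (φ (T0 b)) (φ (T1 b)) (φ (T2 b))) /
    2 ^ 0) % 2 ^ 4 := by rw [pow_zero, Nat.div_one]; rfl
  rw [h1, h]
  unfold m4
  congr 1
  funext i
  fin_cases i <;> rfl

theorem msk_m5 (φ : Fin 7 → V) : msk E φ % 2 ^ 10 = m5 E ![φ 0, φ 1, φ 2, φ 3, φ 4] := by
  have h := ofBits_slice (fun b : Fin 35 => E (φ (T0 b)) (φ (T1 b)) (φ (T2 b))) 0 10 (by norm_num)
  have h1 : msk E φ % 2 ^ 10 = (Nat.ofBits (fun b : Fin 35 => E (φ (T0 b)) (φ (T1 b)) (φ (T2 b))) /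
    2 ^ 0) % 2 ^ 10 := by rw [pow_zero, Nat.div_one]; rfl
  rw [h1, h]
  unfold m5
  congr 1
  funext i
  fin_cases i <;> rfl

theorem msk_l4a (φ : Fin 7 → V) : msk E φ / 16 % 64 = l4 E ![φ 0, φ 1, φ 2, φ 3] (φ 4) := by
  have h := ofBits_slice (fun b : Fin 35 => E (φ (T0 b)) (φ (T1 b)) (φ (T2 b))) 4 6 (by norm_num)
  have h1 : msk E φ / 16 % 64 = (Nat.ofBits (fun b : Fin 35 => E (φ (T0 b)) (φ (T1 b)) (φ (T2 b))) /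
    2 ^ 4) % 2 ^ 6 := rfl
  rw [h1, h]
  unfold l4
  congr 1
  funext i
  fin_cases i <;> rfl

theorem msk_l4b (φ : Fin 7 → V) : msk E φ / 2 ^ 10 % 64 = l4 E ![φ 0, φ 1, φ 2, φ 3] (φ 5) := by
  have h := ofBits_slice (fun b : Fin 35 => E (φ (T0 b)) (φ (T1 b)) (φ (T2 b))) 10 6 (by norm_num)
  have h1 : msk E φ / 2 ^ 10 % 64 =
    (Nat.ofBits (fun b : Fin 35 => E (φ (T0 b)) (φ (T1 b)) (φ (T2 b))) /
    2 ^ 10) % 2 ^ 6 := rfl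
  rw [h1, h]
  unfold l4
  congr 1
  funext i
  fin_cases i <;> rfl

theorem msk_l4c (φ : Fin 7 → V) : msk E φ / 2 ^ 20 % 64 = l4 E ![φ 0, φ 1, φ 2, φ 3] (φ 6) := by
  have h := ofBits_slice (fun b : Fin 35 => E (φ (T0 b)) (φ (T1 b)) (φ (T2 b))) 20 6 (by norm_num)
  have h1 : msk E φ / 2 ^ 20 % 64 =
    (Nat.ofBits (fun b : Fin 35 => E (φ (T0 b)) (φ (T1 b)) (φ (T2 b))) /
    2 ^ 20) % 2 ^ 6 := rfl
  rw [h1, h]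
  unfold l4
  congr 1
  funext i
  fin_cases i <;> rfl

theorem msk_l5a (φ : Fin 7 → V) : msk E φ / 2 ^ 10 % 2 ^ 10 =
    l5 E ![φ 0, φ 1, φ 2, φ 3, φ 4] (φ 5) := by
  have h := ofBits_slice (fun b : Fin 35 => E (φ (T0 b)) (φ (T1 b)) (φ (T2 b))) 10 10 (by norm_num)
  have h1 : msk E φ / 2 ^ 10 % 2 ^ 10 =
    (Nat.ofBits (fun b : Fin 35 => E (φ (T0 b)) (φ (T1 b)) (φ (T2 b))) /
    2 ^ 10) % 2 ^ 10 := rfl
  rw [h1, h]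
  unfold l5
  congr 1
  funext i
  fin_cases i <;> rfl

theorem msk_l5b (φ : Fin 7 → V) : msk E φ / 2 ^ 20 % 2 ^ 10 =
    l5 E ![φ 0, φ 1, φ 2, φ 3, φ 4] (φ 6) := by
  have h := ofBits_slice (fun b : Fin 35 => E (φ (T0 b)) (φ (T1 b)) (φ (T2 b))) 20 10 (by norm_num)
  have h1 : msk E φ / 2 ^ 20 % 2 ^ 10 =
    (Nat.ofBits (fun b : Fin 35 => E (φ (T0 b)) (φ (T1 b)) (φ (T2 b))) /
    2 ^ 20) % 2 ^ 10 := rfl
  rw [h1, h]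
  unfold l5
  congr 1
  funext i
  fin_cases i <;> rfl

theorem msk_bit (φ : Fin 7 → V) (b : ℕ) (hb : b < 35) :
    (msk E φ).testBit b = E (φ (T0 ⟨b, hb⟩)) (φ (T1 ⟨b, hb⟩)) (φ (T2 ⟨b, hb⟩)) :=
  Nat.testBit_ofBits_lt _ _ hb

/-- Mask of the first three vertices and the last two. -/
def sl3 (m : ℕ) : ℕ := m % 2 + 2 * (m / 2 ^ 10 % 8) + 16 * (m / 2 ^ 20 % 8) + 128 * (m / 2 ^ 30 % 8)

theorem msk_sl3 (φ : Fin 7 → V) : sl3 (msk E φ) = m5 E ![φ 0, φ 1, φ 2, φ 5, φ 6] := by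
  have h0 := ofBits_slice (fun b : Fin 35 => E (φ (T0 b)) (φ (T1 b)) (φ (T2 b))) 0 1 (by norm_num)
  have h1 := ofBits_slice (fun b : Fin 35 => E (φ (T0 b)) (φ (T1 b)) (φ (T2 b))) 10 3 (by norm_num)
  have h2 := ofBits_slice (fun b : Fin 35 => E (φ (T0 b)) (φ (T1 b)) (φ (T2 b))) 20 3 (by norm_num)
  have h3 := ofBits_slice (fun b : Fin 35 => E (φ (T0 b)) (φ (T1 b)) (φ (T2 b))) 30 3 (by norm_num)
  have e : sl3 (msk E φ) =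
    (Nat.ofBits (fun b : Fin 35 => E (φ (T0 b)) (φ (T1 b)) (φ (T2 b))) / 2 ^ 0) % 2 ^ 1 +
    2 * ((Nat.ofBits (fun b : Fin 35 => E (φ (T0 b)) (φ (T1 b)) (φ (T2 b))) / 2 ^ 10) % 2 ^ 3) +
    16 * ((Nat.ofBits (fun b : Fin 35 => E (φ (T0 b)) (φ (T1 b)) (φ (T2 b))) / 2 ^ 20) % 2 ^ 3) +
    128 * ((Nat.ofBits (fun b : Fin 35 => E (φ (T0 b)) (φ (T1 b)) (φ (T2 b))) / 2 ^ 30) % 2 ^ 3) := by
    rw [pow_zero, Nat.div_one]; rfl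
  rw [e, h0, h1, h2, h3]
  unfold m5
  set g : Fin 10 → Bool := ![E (φ 0) (φ 1) (φ 2), E (φ 0) (φ 1) (φ 5), E (φ 0) (φ 2) (φ 5),
    E (φ 1) (φ 2) (φ 5), E (φ 0) (φ 1) (φ 6), E (φ 0) (φ 2) (φ 6), E (φ 1) (φ 2) (φ 6),
    E (φ 0) (φ 5) (φ 6), E (φ 1) (φ 5) (φ 6), E (φ 2) (φ 5) (φ 6)] with hg
  have c1 := ofBits_cat 1 9 g
  have c2 := ofBits_cat 3 6 (fun i : Fin 9 => g (Fin.natAdd 1 i))
  have c3 := ofBits_cat 3 3 (fun i : Fin 6 => g (Fin.natAdd 1 (Fin.natAdd 3 i)))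
  have k0 : (fun i : Fin 1 => E (φ (T0 ⟨0 + i, by omega⟩)) (φ (T1 ⟨0 + i, by omega⟩))
      (φ (T2 ⟨0 + i, by omega⟩))) = fun i : Fin 1 => g (Fin.castAdd 9 i) := by
    funext i
    fin_cases i <;> rfl
  have k1 : (fun i : Fin 3 => E (φ (T0 ⟨10 + i, by omega⟩)) (φ (T1 ⟨10 + i, by omega⟩))
      (φ (T2 ⟨10 + i, by omega⟩))) = fun i : Fin 3 => g (Fin.natAdd 1 (Fin.castAdd 6 i)) := by
    funext i
    fin_cases i <;> rfl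
  have k2 : (fun i : Fin 3 => E (φ (T0 ⟨20 + i, by omega⟩)) (φ (T1 ⟨20 + i, by omega⟩))
      (φ (T2 ⟨20 + i, by omega⟩))) =
      fun i : Fin 3 => g (Fin.natAdd 1 (Fin.natAdd 3 (Fin.castAdd 3 i))) := by
    funext i
    fin_cases i <;> rfl
  have k3 : (fun i : Fin 3 => E (φ (T0 ⟨30 + i, by omega⟩)) (φ (T1 ⟨30 + i, by omega⟩))
      (φ (T2 ⟨30 + i, by omega⟩))) =
      fun i : Fin 3 => g (Fin.natAdd 1 (Fin.natAdd 3 (Fin.natAdd 3 i))) := by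
    funext i
    fin_cases i <;> rfl
  rw [k0, k1, k2, k3]
  refine Eq.trans ?_ c1.symm
  rw [c2, c3]
  ring

/-- Mask of the first vertex and the last three. -/
def sl1 (m : ℕ) : ℕ := m / 2 ^ 16 % 2 + 2 * (m / 2 ^ 26 % 2) + 4 * (m / 2 ^ 30 % 2) +
  8 * (m / 2 ^ 34 % 2)

theorem msk_sl1 (φ : Fin 7 → V) : sl1 (msk E φ) = m4 E ![φ 0, φ 4, φ 5, φ 6] := by
  have h0 := ofBits_slice (fun b : Fin 35 => E (φ (T0 b)) (φ (T1 b)) (φ (T2 b))) 16 1 (by norm_num)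
  have h1 := ofBits_slice (fun b : Fin 35 => E (φ (T0 b)) (φ (T1 b)) (φ (T2 b))) 26 1 (by norm_num)
  have h2 := ofBits_slice (fun b : Fin 35 => E (φ (T0 b)) (φ (T1 b)) (φ (T2 b))) 30 1 (by norm_num)
  have h3 := ofBits_slice (fun b : Fin 35 => E (φ (T0 b)) (φ (T1 b)) (φ (T2 b))) 34 1 (by norm_num)
  have e : sl1 (msk E φ) =
    (Nat.ofBits (fun b : Fin 35 => E (φ (T0 b)) (φ (T1 b)) (φ (T2 b))) / 2 ^ 16) % 2 ^ 1 +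
    2 * ((Nat.ofBits (fun b : Fin 35 => E (φ (T0 b)) (φ (T1 b)) (φ (T2 b))) / 2 ^ 26) % 2 ^ 1) +
    4 * ((Nat.ofBits (fun b : Fin 35 => E (φ (T0 b)) (φ (T1 b)) (φ (T2 b))) / 2 ^ 30) % 2 ^ 1) +
    8 * ((Nat.ofBits (fun b : Fin 35 => E (φ (T0 b)) (φ (T1 b)) (φ (T2 b))) / 2 ^ 34) % 2 ^ 1) := rfl
  rw [e, h0, h1, h2, h3]
  unfold m4
  set g : Fin 4 → Bool := ![E (φ 0) (φ 4) (φ 5), E (φ 0) (φ 4) (φ 6), E (φ 0) (φ 5) (φ 6),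
    E (φ 4) (φ 5) (φ 6)] with hg
  have c1 := ofBits_cat 1 3 g
  have c2 := ofBits_cat 1 2 (fun i : Fin 3 => g (Fin.natAdd 1 i))
  have c3 := ofBits_cat 1 1 (fun i : Fin 2 => g (Fin.natAdd 1 (Fin.natAdd 1 i)))
  have k0 : (fun i : Fin 1 => E (φ (T0 ⟨16 + i, by omega⟩)) (φ (T1 ⟨16 + i, by omega⟩))
      (φ (T2 ⟨16 + i, by omega⟩))) = fun i : Fin 1 => g (Fin.castAdd 3 i) := by
    funext i
    fin_cases i <;> rfl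
  have k1 : (fun i : Fin 1 => E (φ (T0 ⟨26 + i, by omega⟩)) (φ (T1 ⟨26 + i, by omega⟩))
      (φ (T2 ⟨26 + i, by omega⟩))) = fun i : Fin 1 => g (Fin.natAdd 1 (Fin.castAdd 2 i)) := by
    funext i
    fin_cases i <;> rfl
  have k2 : (fun i : Fin 1 => E (φ (T0 ⟨30 + i, by omega⟩)) (φ (T1 ⟨30 + i, by omega⟩))
      (φ (T2 ⟨30 + i, by omega⟩))) =
      fun i : Fin 1 => g (Fin.natAdd 1 (Fin.natAdd 1 (Fin.castAdd 1 i))) := by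
    funext i
    fin_cases i <;> rfl
  have k3 : (fun i : Fin 1 => E (φ (T0 ⟨34 + i, by omega⟩)) (φ (T1 ⟨34 + i, by omega⟩))
      (φ (T2 ⟨34 + i, by omega⟩))) =
      fun i : Fin 1 => g (Fin.natAdd 1 (Fin.natAdd 1 (Fin.natAdd 1 i))) := by
    funext i
    fin_cases i <;> rfl
  rw [k0, k1, k2, k3]
  refine Eq.trans ?_ c1.symm
  rw [c2, c3]
  ring

theorem m4_lt (ρ : Fin 4 → V) : m4 E ρ < 16 := Nat.ofBits_lt_two_pow _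
theorem m5_lt (ρ : Fin 5 → V) : m5 E ρ < 1024 := Nat.ofBits_lt_two_pow _
theorem l4_lt (ρ : Fin 4 → V) (x : V) : l4 E ρ x < 64 := Nat.ofBits_lt_two_pow _
theorem l5_lt (ρ : Fin 5 → V) (x : V) : l5 E ρ x < 1024 := Nat.ofBits_lt_two_pow _

end

/-- A positive semidefinite table on `[0, n)`. -/
def Psd (n : ℕ) (q : ℕ → ℕ → ℝ) : Prop :=
  ∀ f : ℕ → ℝ, 0 ≤ ∑ a ∈ range n, ∑ b ∈ range n, q a b * f a * f b

section
variable {V : Type} [Fintype V]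

theorem Ev_psd (l n : ℕ) (w : V → ℝ) (κ : (Fin l → V) → ℕ) (hκ : ∀ ψ, κ ψ < n)
    {q : ℕ → ℕ → ℝ} (hq : Psd n q) :
    0 ≤ Ev (l + l) w (fun ψ => q (κ (fun i => ψ (Fin.castAdd l i)))
      (κ (fun i => ψ (Fin.natAdd l i)))) := by
  have h := hq (fun a => Ev l w (fun ψ => if κ ψ = a then 1 else 0))
  have e : Ev (l + l) w (fun ψ => q (κ (fun i => ψ (Fin.castAdd l i)))
      (κ (fun i => ψ (Fin.natAdd l i)))) =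
      ∑ a ∈ range n, ∑ b ∈ range n, q a b * Ev l w (fun ψ => if κ ψ = a then 1 else 0) *
        Ev l w (fun ψ => if κ ψ = b then 1 else 0) := by
    have h1 : ∀ ψ : Fin (l + l) → V, q (κ (fun i => ψ (Fin.castAdd l i)))
        (κ (fun i => ψ (Fin.natAdd l i))) = ∑ a ∈ range n, ∑ b ∈ range n,
          q a b * ((if κ (fun i => ψ (Fin.castAdd l i)) = a then (1 : ℝ) else 0) *
            (if κ (fun i => ψ (Fin.natAdd l i)) = b then (1 : ℝ) else 0)) := by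
      intro ψ
      rw [Finset.sum_eq_single (κ (fun i => ψ (Fin.castAdd l i))),
        Finset.sum_eq_single (κ (fun i => ψ (Fin.natAdd l i)))]
      · rw [if_pos rfl, if_pos rfl, mul_one, mul_one]
      · intro b _ hb
        rw [if_neg (Ne.symm hb), mul_zero, mul_zero]
      · intro h2
        exact absurd (Finset.mem_range.2 (hκ _)) h2
      · intro a _ ha
        refine Finset.sum_eq_zero fun b _ => ?_
        rw [if_neg (Ne.symm ha), zero_mul, mul_zero]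
      · intro h2
        exact absurd (Finset.mem_range.2 (hκ _)) h2
    rw [Ev_congr (l + l) w h1, Ev_sum]
    refine Finset.sum_congr rfl fun a _ => ?_
    rw [Ev_sum]
    refine Finset.sum_congr rfl fun b _ => ?_
    rw [Ev_mul, Ev_mul_indep l l w (fun ψ => if κ ψ = a then (1 : ℝ) else 0)
      (fun ψ => if κ ψ = b then (1 : ℝ) else 0)]
    ring
  rw [e]
  exact h

/-- Five roots. -/
def gS5 (Q : ℕ → ℕ → ℕ → ℝ) (m : ℕ) : ℝ :=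
  Q (m % 2 ^ 10) (m / 2 ^ 10 % 2 ^ 10) (m / 2 ^ 20 % 2 ^ 10)

/-- Three roots. -/
def gS3 (Q : ℕ → ℕ → ℕ → ℝ) (m : ℕ) : ℝ := Q (m % 2) (m % 2 ^ 10) (sl3 m)

/-- One root. -/
def gS1 (Q : ℕ → ℕ → ℝ) (m : ℕ) : ℝ := Q (m % 16) (sl1 m)

theorem evS5 (E : V → V → V → Bool) {w : V → ℝ} (hw : ∀ v, 0 ≤ w v) {Q : ℕ → ℕ → ℕ → ℝ}
    (hQ : ∀ r, Psd 1024 (Q r)) : 0 ≤ Ev 7 w (fun φ => gS5 Q (msk E φ)) := by
  rw [Ev_append 5 2 w]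
  refine Ev_nonneg 5 w hw fun ρ => ?_
  have h := Ev_psd 1 1024 w (fun ψ => l5 E ρ (ψ 0)) (fun ψ => l5_lt E ρ _) (hQ (m5 E ρ))
  refine h.trans_eq (Ev_congr 2 w fun ψ => ?_)
  unfold gS5
  rw [msk_m5, msk_l5a, msk_l5b]
  have e : (![Fin.append ρ ψ 0, Fin.append ρ ψ 1, Fin.append ρ ψ 2, Fin.append ρ ψ 3,
      Fin.append ρ ψ 4] : Fin 5 → V) = ρ := by
    funext i
    fin_cases i <;> rfl
  rw [e]
  rfl

theorem evS3 (E : V → V → V → Bool) {w : V → ℝ} (hw : ∀ v, 0 ≤ w v) {Q : ℕ → ℕ → ℕ → ℝ}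
    (hQ : ∀ r, Psd 1024 (Q r)) : 0 ≤ Ev 7 w (fun φ => gS3 Q (msk E φ)) := by
  rw [Ev_append 3 4 w]
  refine Ev_nonneg 3 w hw fun ρ => ?_
  have h := Ev_psd 2 1024 w (fun ψ => m5 E ![ρ 0, ρ 1, ρ 2, ψ 0, ψ 1]) (fun ψ => m5_lt E _)
    (hQ (m4 E ![ρ 0, ρ 1, ρ 2, ρ 2] % 2))
  refine h.trans_eq (Ev_congr 4 w fun ψ => ?_)
  unfold gS3
  have e1 : ∀ m : ℕ, m % 2 = m % 2 ^ 4 % 2 := by intro m; omega
  rw [e1 (msk E _), show (2 : ℕ) ^ 4 = 16 from rfl, msk_m4, msk_m5, msk_sl3]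
  have e2 : m4 E ![ρ 0, ρ 1, ρ 2, ρ 2] % 2 =
    m4 E ![Fin.append ρ ψ 0, Fin.append ρ ψ 1, Fin.append ρ ψ 2, Fin.append ρ ψ 3] % 2 := by
    unfold m4
    rw [ofBits_cat 1 3, ofBits_cat 1 3 (![E _ _ _, E _ _ _, E _ _ _, E _ _ _])]
    have : ∀ a b : ℕ, (a + 2 ^ 1 * b) % 2 = a % 2 := by intro a b; omega
    rw [this, this]
    congr 2
    funext i
    fin_cases i
    rfl
  rw [e2]
  rfl

theorem evS1 (E : V → V → V → Bool) {w : V → ℝ} (hw : ∀ v, 0 ≤ w v) {Q : ℕ → ℕ → ℝ}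
    (hQ : Psd 16 Q) : 0 ≤ Ev 7 w (fun φ => gS1 Q (msk E φ)) := by
  rw [Ev_append 1 6 w]
  refine Ev_nonneg 1 w hw fun ρ => ?_
  have h := Ev_psd 3 16 w (fun ψ => m4 E ![ρ 0, ψ 0, ψ 1, ψ 2]) (fun ψ => m4_lt E _) hQ
  refine h.trans_eq (Ev_congr 6 w fun ψ => ?_)
  unfold gS1
  rw [msk_m4, msk_sl1]
  rfl

/-- The product of the three weights. -/
def cub (μ : ℕ → ℝ) (C : ℕ → ℕ → ℝ) (m : ℕ) : ℝ :=
  μ (m % 16) * (C (m % 16) (m / 16 % 64) * C (m % 16) (m / 2 ^ 10 % 64) *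
    C (m % 16) (m / 2 ^ 20 % 64))

/-- The pair products of the weights. -/
def par (μ : ℕ → ℝ) (C : ℕ → ℕ → ℝ) (m : ℕ) : ℝ :=
  μ (m % 16) * (C (m % 16) (m / 16 % 64) * C (m % 16) (m / 2 ^ 10 % 64) +
    C (m % 16) (m / 16 % 64) * C (m % 16) (m / 2 ^ 20 % 64) +
    C (m % 16) (m / 2 ^ 10 % 64) * C (m % 16) (m / 2 ^ 20 % 64))

/-- Integrand of (M). -/
def gM (μ : ℕ → ℝ) (C : ℕ → ℕ → ℝ) (p : ℝ) (m : ℕ) : ℝ :=
  cub μ C m * (p - b2r (m.testBit 34))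

/-- Integrand of (R'). -/
def gR (μ : ℕ → ℝ) (C : ℕ → ℕ → ℝ) (p : ℝ) (m : ℕ) : ℝ :=
  par μ C m * b2r (m.testBit 34) - 2 * (cub μ C m * b2r (m.testBit 34)) - p * cub μ C m

/-- Integrand of (H). -/
def gH (μ : ℕ → ℝ) (C : ℕ → ℕ → ℝ) (p : ℝ) (m : ℕ) : ℝ :=
  par μ C m * (p - b2r (m.testBit 34))

/-- Integrand of (D). -/
def gD (K : ℕ → ℝ) (p : ℝ) (m : ℕ) : ℝ := K (m % 2 ^ 10) * (b2r (m.testBit 30) - p)

theorem app4 (ρ : Fin 4 → V) (ψ : Fin 3 → V) :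
    (![(Fin.append ρ ψ : Fin 7 → V) 0, (Fin.append ρ ψ : Fin 7 → V) 1,
      (Fin.append ρ ψ : Fin 7 → V) 2, (Fin.append ρ ψ : Fin 7 → V) 3] : Fin 4 → V) = ρ := by
  funext i
  fin_cases i <;> rfl

theorem app5 (ρ : Fin 5 → V) (ψ : Fin 2 → V) :
    (![(Fin.append ρ ψ : Fin 7 → V) 0, (Fin.append ρ ψ : Fin 7 → V) 1,
      (Fin.append ρ ψ : Fin 7 → V) 2, (Fin.append ρ ψ : Fin 7 → V) 3,
      (Fin.append ρ ψ : Fin 7 → V) 4] : Fin 5 → V) = ρ := by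
  funext i
  fin_cases i <;> rfl

theorem bit34 (E : V → V → V → Bool) (φ : Fin 7 → V) :
    (msk E φ).testBit 34 = E (φ 4) (φ 5) (φ 6) := by
  rw [msk_bit E φ 34 (by norm_num)]
  rfl

theorem bit30 (E : V → V → V → Bool) (φ : Fin 7 → V) :
    (msk E φ).testBit 30 = E (φ 0) (φ 5) (φ 6) := by
  rw [msk_bit E φ 30 (by norm_num)]
  rfl

theorem evM {E : V → V → V → Bool} (hE : K4m E) {w : V → ℝ} (hw : ∀ v, 0 ≤ w v)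
    {μ : ℕ → ℝ} {C : ℕ → ℕ → ℝ} (hμ : ∀ r, 0 ≤ μ r) (hC : ∀ r l, 0 ≤ C r l) :
    0 ≤ Ev 7 w (fun φ => gM μ C L (msk E φ)) := by
  rw [Ev_append 4 3 w]
  refine Ev_nonneg 4 w hw fun ρ => ?_
  have h := ineqM hE hw (c := fun x => C (m4 E ρ) (l4 E ρ x)) (fun x => hC _ _)
  have h2 := mul_nonneg (hμ (m4 E ρ)) h
  rw [← Ev_mul] at h2
  refine h2.trans_eq (Ev_congr 3 w fun ψ => ?_)
  unfold gM cub
  rw [msk_m4, msk_l4a, msk_l4b, msk_l4c, bit34, app4]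
  rw [show (Fin.append ρ ψ : Fin 7 → V) 4 = ψ 0 from rfl,
    show (Fin.append ρ ψ : Fin 7 → V) 5 = ψ 1 from rfl,
    show (Fin.append ρ ψ : Fin 7 → V) 6 = ψ 2 from rfl]
  ring

theorem pair_symm {E : V → V → V → Bool} (hE : K4m E) (w : V → ℝ) (hw : ∑ v, w v = 1)
    (c : V → ℝ) (p q : ℝ) :
    Ev 3 w (fun ψ => (c (ψ 0) * c (ψ 1) + c (ψ 0) * c (ψ 2) + c (ψ 1) * c (ψ 2)) *
      (p - q * b2r (E (ψ 0) (ψ 1) (ψ 2)))) =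
    3 * Ev 3 w (fun ψ => c (ψ 0) * c (ψ 1) * (p - q * b2r (E (ψ 0) (ψ 1) (ψ 2)))) := by
  have h1 : Ev 3 w (fun ψ => c (ψ 0) * c (ψ 2) * (p - q * b2r (E (ψ 0) (ψ 1) (ψ 2)))) =
      Ev 3 w (fun ψ => c (ψ 0) * c (ψ 1) * (p - q * b2r (E (ψ 0) (ψ 1) (ψ 2)))) := by
    rw [← Ev_perm (Equiv.swap 1 2) w hw]
    refine Ev_congr 3 w fun ψ => ?_
    have e0 : (Equiv.swap (1 : Fin 3) 2) 0 = 0 := by decide
    have e1 : (Equiv.swap (1 : Fin 3) 2) 1 = 2 := by decide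
    have e2 : (Equiv.swap (1 : Fin 3) 2) 2 = 1 := by decide
    beta_reduce
    rw [e0, e1, e2, hE.s23]
  have h2 : Ev 3 w (fun ψ => c (ψ 1) * c (ψ 2) * (p - q * b2r (E (ψ 0) (ψ 1) (ψ 2)))) =
      Ev 3 w (fun ψ => c (ψ 0) * c (ψ 1) * (p - q * b2r (E (ψ 0) (ψ 1) (ψ 2)))) := by
    rw [← Ev_perm (Equiv.swap 0 2) w hw]
    refine Ev_congr 3 w fun ψ => ?_
    have e0 : (Equiv.swap (0 : Fin 3) 2) 0 = 2 := by decide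
    have e1 : (Equiv.swap (0 : Fin 3) 2) 1 = 1 := by decide
    have e2 : (Equiv.swap (0 : Fin 3) 2) 2 = 0 := by decide
    beta_reduce
    rw [e0, e1, e2, hE.s12, hE.s23, hE.s12]
    ring
  have h3 : Ev 3 w (fun ψ => (c (ψ 0) * c (ψ 1) + c (ψ 0) * c (ψ 2) + c (ψ 1) * c (ψ 2)) *
      (p - q * b2r (E (ψ 0) (ψ 1) (ψ 2)))) =
      Ev 3 w (fun ψ => c (ψ 0) * c (ψ 1) * (p - q * b2r (E (ψ 0) (ψ 1) (ψ 2)))) +
      Ev 3 w (fun ψ => c (ψ 0) * c (ψ 2) * (p - q * b2r (E (ψ 0) (ψ 1) (ψ 2)))) +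
      Ev 3 w (fun ψ => c (ψ 1) * c (ψ 2) * (p - q * b2r (E (ψ 0) (ψ 1) (ψ 2)))) := by
    rw [← Ev_add, ← Ev_add]
    exact Ev_congr 3 w fun ψ => by ring
  rw [h3, h1, h2]
  ring

theorem evR {E : V → V → V → Bool} (hE : K4m E) {w : V → ℝ} (hw : Wt w)
    {μ : ℕ → ℝ} {C : ℕ → ℕ → ℝ} (hμ : ∀ r, 0 ≤ μ r) (hC : ∀ r l, 0 ≤ C r l)
    (hC1 : ∀ r l, C r l ≤ 1) :
    -(L - dens E w) * Ev 7 w (fun φ => μ (msk E φ % 16)) ≤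
      Ev 7 w (fun φ => gR μ C L (msk E φ)) := by
  rw [← Ev_mul, Ev_append 4 3 w, Ev_append 4 3 w]
  refine Ev_mono 4 w hw.nn fun ρ => ?_
  have h := ineqR hE hw (c := fun x => C (m4 E ρ) (l4 E ρ x)) (fun x => hC _ _) (fun x => hC1 _ _)
  have h2 := mul_le_mul_of_nonneg_left h (hμ (m4 E ρ))
  have e1 : Ev 3 w (fun ψ => -(L - dens E w) * μ (msk E (Fin.append ρ ψ : Fin 7 → V) % 16)) =
      μ (m4 E ρ) * -(L - dens E w) := by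
    rw [← Ev_const 3 w hw.one (μ (m4 E ρ) * -(L - dens E w))]
    refine Ev_congr 3 w fun ψ => ?_
    rw [msk_m4, app4]
    ring
  have e2 : Ev 3 w (fun ψ => gR μ C L (msk E (Fin.append ρ ψ : Fin 7 → V))) =
      μ (m4 E ρ) * Ev 3 w (fun ψ =>
        3 * (C (m4 E ρ) (l4 E ρ (ψ 0)) * C (m4 E ρ) (l4 E ρ (ψ 1)) *
          b2r (E (ψ 0) (ψ 1) (ψ 2))) -
        2 * (C (m4 E ρ) (l4 E ρ (ψ 0)) * C (m4 E ρ) (l4 E ρ (ψ 1)) *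
          C (m4 E ρ) (l4 E ρ (ψ 2)) * b2r (E (ψ 0) (ψ 1) (ψ 2))) -
        L * (C (m4 E ρ) (l4 E ρ (ψ 0)) * C (m4 E ρ) (l4 E ρ (ψ 1)) *
          C (m4 E ρ) (l4 E ρ (ψ 2)))) := by
    have h3 := pair_symm hE w hw.one (fun x => C (m4 E ρ) (l4 E ρ x)) 0 (-1)
    have h4 : ∀ ψ : Fin 3 → V, gR μ C L (msk E (Fin.append ρ ψ : Fin 7 → V)) =
        μ (m4 E ρ) * (((C (m4 E ρ) (l4 E ρ (ψ 0)) * C (m4 E ρ) (l4 E ρ (ψ 1)) +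
          C (m4 E ρ) (l4 E ρ (ψ 0)) * C (m4 E ρ) (l4 E ρ (ψ 2)) +
          C (m4 E ρ) (l4 E ρ (ψ 1)) * C (m4 E ρ) (l4 E ρ (ψ 2))) *
          (0 - -1 * b2r (E (ψ 0) (ψ 1) (ψ 2)))) -
        (2 * (C (m4 E ρ) (l4 E ρ (ψ 0)) * C (m4 E ρ) (l4 E ρ (ψ 1)) *
          C (m4 E ρ) (l4 E ρ (ψ 2)) * b2r (E (ψ 0) (ψ 1) (ψ 2))) +
        L * (C (m4 E ρ) (l4 E ρ (ψ 0)) * C (m4 E ρ) (l4 E ρ (ψ 1)) *
          C (m4 E ρ) (l4 E ρ (ψ 2))))) := by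
      intro ψ
      unfold gR cub par
      rw [msk_m4, msk_l4a, msk_l4b, msk_l4c, bit34, app4]
      rw [show (Fin.append ρ ψ : Fin 7 → V) 4 = ψ 0 from rfl,
        show (Fin.append ρ ψ : Fin 7 → V) 5 = ψ 1 from rfl,
        show (Fin.append ρ ψ : Fin 7 → V) 6 = ψ 2 from rfl]
      ring
    rw [Ev_congr 3 w h4, Ev_mul, Ev_sub, h3]
    congr 1
    rw [← Ev_mul, ← Ev_sub]
    exact Ev_congr 3 w fun ψ => by ring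
  rw [e1, e2]
  exact h2

theorem evH {E : V → V → V → Bool} {w : V → ℝ} (ho : Opt E w)
    {μ : ℕ → ℝ} {C : ℕ → ℕ → ℝ} (hμ : ∀ r, 0 ≤ μ r) :
    0 ≤ Ev 7 w (fun φ => gH μ C (dens E w) (msk E φ)) := by
  rw [Ev_append 4 3 w]
  refine Ev_nonneg 4 w ho.wt.nn fun ρ => ?_
  have h := ineqH ho (fun x => C (m4 E ρ) (l4 E ρ x))
  have h2 := mul_nonneg (hμ (m4 E ρ)) h
  have h3 := pair_symm ho.free w ho.wt.one (fun x => C (m4 E ρ) (l4 E ρ x)) (dens E w) 1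
  have h4 : ∀ ψ : Fin 3 → V, gH μ C (dens E w) (msk E (Fin.append ρ ψ : Fin 7 → V)) =
        μ (m4 E ρ) * (((C (m4 E ρ) (l4 E ρ (ψ 0)) * C (m4 E ρ) (l4 E ρ (ψ 1)) +
          C (m4 E ρ) (l4 E ρ (ψ 0)) * C (m4 E ρ) (l4 E ρ (ψ 2)) +
          C (m4 E ρ) (l4 E ρ (ψ 1)) * C (m4 E ρ) (l4 E ρ (ψ 2))) *
          (dens E w - 1 * b2r (E (ψ 0) (ψ 1) (ψ 2))))) := by
    intro ψ
    unfold gH par
    rw [msk_m4, msk_l4a, msk_l4b, msk_l4c, bit34, app4]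
    rw [show (Fin.append ρ ψ : Fin 7 → V) 4 = ψ 0 from rfl,
      show (Fin.append ρ ψ : Fin 7 → V) 5 = ψ 1 from rfl,
      show (Fin.append ρ ψ : Fin 7 → V) 6 = ψ 2 from rfl]
    ring
  rw [Ev_congr 3 w h4, Ev_mul, h3]
  have e : Ev 3 w (fun ψ => C (m4 E ρ) (l4 E ρ (ψ 0)) * C (m4 E ρ) (l4 E ρ (ψ 1)) *
      (dens E w - 1 * b2r (E (ψ 0) (ψ 1) (ψ 2)))) =
      Ev 3 w (fun ψ => C (m4 E ρ) (l4 E ρ (ψ 0)) * C (m4 E ρ) (l4 E ρ (ψ 1)) *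
      (dens E w - b2r (E (ψ 0) (ψ 1) (ψ 2)))) := Ev_congr 3 w fun ψ => by ring
  rw [e]
  nlinarith [h2]

theorem evD {E : V → V → V → Bool} {w : V → ℝ} (ho : Opt E w) (K : ℕ → ℝ) :
    Ev 7 w (fun φ => gD K (dens E w) (msk E φ)) = 0 := by
  rw [Ev_append 5 2 w]
  have h : ∀ ρ : Fin 5 → V, Ev 2 w (fun ψ => gD K (dens E w)
      (msk E (Fin.append ρ ψ : Fin 7 → V))) = 0 := by
    intro ρ
    have h1 := eqD ho (ρ 0)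
    have h2 : ∀ ψ : Fin 2 → V, gD K (dens E w) (msk E (Fin.append ρ ψ : Fin 7 → V)) =
        K (m5 E ρ) * (b2r (E (ρ 0) (ψ 0) (ψ 1)) - dens E w) := by
      intro ψ
      unfold gD
      rw [msk_m5, bit30, app5]
      rfl
    rw [Ev_congr 2 w h2, Ev_mul, h1, mul_zero]
  have h2 : (fun ρ : Fin 5 → V => Ev 2 w (fun ψ => gD K (dens E w)
      (msk E (Fin.append ρ ψ : Fin 7 → V)))) = fun _ => (0 : ℝ) := funext h
  rw [h2, Ev_const 5 w ho.wt.one]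

theorem gM_split (μ : ℕ → ℝ) (C : ℕ → ℕ → ℝ) (p q : ℝ) (m : ℕ) :
    gM μ C q m = gM μ C p m + (q - p) * cub μ C m := by
  unfold gM; ring

theorem gR_split (μ : ℕ → ℝ) (C : ℕ → ℕ → ℝ) (p q : ℝ) (m : ℕ) :
    gR μ C q m = gR μ C p m - (q - p) * cub μ C m := by
  unfold gR; ring

theorem gH_split (μ : ℕ → ℝ) (C : ℕ → ℕ → ℝ) (p q : ℝ) (m : ℕ) :
    gH μ C q m = gH μ C p m + (q - p) * par μ C m := by
  unfold gH; ring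

theorem gD_split (K : ℕ → ℝ) (p q : ℝ) (m : ℕ) :
    gD K q m = gD K p m - (q - p) * K (m % 2 ^ 10) := by
  unfold gD; ring

/-- The density as a function of the mask. -/
theorem ev_dens (E : V → V → V → Bool) {w : V → ℝ} (hw : ∑ v, w v = 1) :
    Ev 7 w (fun φ => b2r ((msk E φ).testBit 0)) = dens E w := by
  have h : ∀ φ : Fin 7 → V, b2r ((msk E φ).testBit 0) = b2r (E (φ 0) (φ 1) (φ 2)) := by
    intro φ
    rw [msk_bit E φ 0 (by norm_num)]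
    rfl
  rw [Ev_congr 7 w h, Ev_triple w hw (fun x y z => b2r (E x y z)) 0 1 2 (by decide) (by decide)
    (by decide)]
  rfl

end

end KF
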