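import Pool.Agent.Helper91.KF.F5

set_option autoImplicit false

/-!
Replacement of a set by a module with an admissible outside link, and the degree inequality
inside a set.
-/

namespace KF

open Finset

/-- New 3-graph: `Fin m` is a module with outside link `N` and inside structure `E'`. -/
def modl {V : Type} (E : V → V → V → Bool) (N : V → V → Bool) {m : ℕ}
    (E' : Fin m → Fin m → Fin m → Bool) : V ⊕ Fin m → V ⊕ Fin m → V ⊕ Fin m → Bool
  | .inl a, .inl b, .inl c => E a b c
  | .inr _, .inl b, .inl c => N b c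
  | .inl a, .inr _, .inl c => N a c
  | .inl a, .inl b, .inr _ => N a b
  | .inr i, .inr j, .inr k => E' i j k
  | _, _, _ => false

theorem modl_K4m {V : Type} {E : V → V → V → Bool} (hE : K4m E) {N : V → V → Bool}
    (hN : Adm E N) {m : ℕ} {E' : Fin m → Fin m → Fin m → Bool} (hE' : K4m E') :
    K4m (modl E N E') := by
  have s12 := hE.s12
  have s23 := hE.s23
  refine ⟨?_, ?_, ?_, ?_⟩
  · rintro (a | i) (b | j) (c | k) <;> simp only [modl] <;>
      first
      | exact hE.s12 _ _ _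
      | exact hE'.s12 _ _ _
      | exact hN.symm _ _
  · rintro (a | i) (b | j) (c | k) <;> simp only [modl] <;>
      first
      | exact hE.s23 _ _ _
      | exact hE'.s23 _ _ _
      | exact hN.symm _ _
  · rintro (a | i) (b | j) <;> simp only [modl] <;>
      first
      | exact hE.irr _ _
      | exact hE'.irr _ _
      | exact hN.irr _
  · rintro (a | i) (b | j) (c | k) (d | l) h1 h2 h3 <;> simp only [modl] at h1 h2 h3 <;>
      first
      | exact absurd h1 Bool.false_ne_true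
      | exact absurd h2 Bool.false_ne_true
      | exact absurd h3 Bool.false_ne_true
      | exact hE.free _ _ _ _ h1 h2 h3
      | exact hE'.free _ _ _ _ h1 h2 h3
      | exact hN.tri _ _ _ h1 h2 h3
      | exact hN.path _ _ _ h1 h2 h3
      | exact hN.path _ _ _ h1 h3 h2
      | exact hN.path _ _ _ h2 h1 h3
      | exact hN.path _ _ _ h2 h3 h1
      | exact hN.path _ _ _ h3 h1 h2
      | exact hN.path _ _ _ h3 h2 h1
      | (refine hN.path _ _ _ h1 h2 ?_; rw [s23]; exact h3)

theorem dens_modl {V : Type} [Fintype V] (E : V → V → V → Bool) (N : V → V → Bool) {m : ℕ}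
    (E' : Fin m → Fin m → Fin m → Bool) (q : V → ℝ) (s : ℝ) {w' : Fin m → ℝ}
    (hw' : ∑ i, w' i = 1) :
    dens (modl E N E') (Sum.elim q (fun i => s * w' i)) =
      dens E q + 3 * s * ∑ y, ∑ z, q y * q z * b2r (N y z) + s ^ 3 * dens E' w' := by
  unfold dens
  simp only [Fintype.sum_sum_type, Sum.elim_inl, Sum.elim_inr, modl,
    b2r_false, mul_zero, Finset.sum_const_zero, add_zero, zero_add, Finset.sum_add_distrib]
  have h1 : ∑ i : Fin m, ∑ y, ∑ z, s * w' i * q y * q z * b2r (N y z) =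
      s * ∑ y, ∑ z, q y * q z * b2r (N y z) := by
    calc _ = ∑ i : Fin m, w' i * (s * ∑ y, ∑ z, q y * q z * b2r (N y z)) := by
          refine Finset.sum_congr rfl fun i _ => ?_
          simp only [Finset.mul_sum]
          exact Finset.sum_congr rfl fun y _ => Finset.sum_congr rfl fun z _ => by ring
      _ = _ := by rw [← Finset.sum_mul, hw', one_mul]
  have h2 : ∑ x, ∑ i : Fin m, ∑ z, q x * (s * w' i) * q z * b2r (N x z) =
      s * ∑ y, ∑ z, q y * q z * b2r (N y z) := by
    rw [Finset.mul_sum]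
    refine Finset.sum_congr rfl fun x _ => ?_
    calc _ = ∑ i : Fin m, w' i * (s * ∑ z, q x * q z * b2r (N x z)) := by
          refine Finset.sum_congr rfl fun i _ => ?_
          simp only [Finset.mul_sum]
          exact Finset.sum_congr rfl fun z _ => by ring
      _ = _ := by rw [← Finset.sum_mul, hw', one_mul]
  have h3 : ∑ x, ∑ y, ∑ i : Fin m, q x * q y * (s * w' i) * b2r (N x y) =
      s * ∑ y, ∑ z, q y * q z * b2r (N y z) := by
    rw [Finset.mul_sum]
    refine Finset.sum_congr rfl fun x _ => ?_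
    rw [Finset.mul_sum]
    refine Finset.sum_congr rfl fun y _ => ?_
    calc _ = ∑ i : Fin m, w' i * (s * (q x * q y * b2r (N x y))) := by
          exact Finset.sum_congr rfl fun i _ => by ring
      _ = _ := by rw [← Finset.sum_mul, hw', one_mul]
  have h4 : ∑ i : Fin m, ∑ j : Fin m, ∑ k : Fin m,
      s * w' i * (s * w' j) * (s * w' k) * b2r (E' i j k) =
      s ^ 3 * ∑ i, ∑ j, ∑ k, w' i * w' j * w' k * b2r (E' i j k) := by
    simp only [Finset.mul_sum]
    exact Finset.sum_congr rfl fun i _ => Finset.sum_congr rfl fun j _ =>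
      Finset.sum_congr rfl fun k _ => by ring
  rw [h1, h2, h3, h4]
  ring

/-- Passing to the supremum over the inside structures. -/
theorem sup_inside {K s : ℝ} (hs : 0 ≤ s) (h : ∀ x ∈ Vals, K + s ^ 3 * x ≤ L) :
    K + s ^ 3 * L ≤ L := by
  rcases hs.eq_or_lt with h0 | h0
  · obtain ⟨x, hx⟩ := vals_nonempty
    have := h x hx
    rw [← h0] at this ⊢
    simpa using this
  · have h3 : L ≤ (L - K) / s ^ 3 := by
      refine csSup_le vals_nonempty fun x hx => ?_
      rw [le_div_iff₀ (by positivity)]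
      have := h x hx
      linarith
    rw [le_div_iff₀ (by positivity)] at h3
    linarith

section
variable {V : Type} [Fintype V]

/-- Replacement of the set `c` by a module with outside link `N`. -/
theorem ineqMN {E : V → V → V → Bool} (hE : K4m E) {w : V → ℝ} (hw : Wt w)
    {N : V → V → Bool} (hN : Adm E N) {c : V → ℝ} (hc : ∀ v, 0 ≤ c v) (hc1 : ∀ v, c v ≤ 1) :
    dens E (fun v => w v * (1 - c v)) + 3 * (∑ v, w v * c v) *
      (∑ y, ∑ z, (w y * (1 - c y)) * (w z * (1 - c z)) * b2r (N y z)) +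
      (∑ v, w v * c v) ^ 3 * L ≤ L := by
  have hs0 : 0 ≤ ∑ v, w v * c v := Finset.sum_nonneg fun v _ => mul_nonneg (hw.nn v) (hc v)
  refine sup_inside hs0 ?_
  rintro x ⟨m, E', w', hE', hw', rfl⟩
  have h := dens_modl E N E' (fun v => w v * (1 - c v)) (∑ v, w v * c v) hw'.one
  rw [← h]
  refine dens_le_L (modl_K4m hE hN hE') ⟨?_, ?_⟩
  · rintro (v | i)
    · simp only [Sum.elim_inl]
      exact mul_nonneg (hw.nn v) (by linarith [hc1 v])
    · simp only [Sum.elim_inr]
      exact mul_nonneg hs0 (hw'.nn i)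
  · simp only [Fintype.sum_sum_type, Sum.elim_inl, Sum.elim_inr, ← Finset.mul_sum, hw'.one,
      mul_one]
    rw [← Finset.sum_add_distrib]
    have e0 : ∑ v, (w v * (1 - c v) + w v * c v) = ∑ v, w v :=
      Finset.sum_congr rfl fun v _ => by ring
    rw [e0, hw.one]

/-- The link of a vertex is admissible. -/
theorem adm_link {E : V → V → V → Bool} (hE : K4m E) (v : V) : Adm E (fun b c => E v b c) := by
  refine ⟨fun a b => hE.s23 _ _ _, fun a => ?_, fun a b c h1 h2 h3 => hE.free v a b c h1 h2 h3,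
    fun a b c h1 h2 h3 => ?_⟩
  · have := hE.irr a v
    rw [hE.s23, hE.s12] at this
    exact this
  · refine hE.free a v b c ?_ ?_ h3
    · rw [hE.s12]; exact h1
    · rw [hE.s12]; exact h2

/-- The quadratic form of the link of `v`. -/
noncomputable def qf (E : V → V → V → Bool) (v : V) (p q : V → ℝ) : ℝ :=
  ∑ y, ∑ z, p y * q z * b2r (E v y z)

theorem qf_symm {E : V → V → V → Bool} (hE : K4m E) (v : V) (p q : V → ℝ) :
    qf E v p q = qf E v q p := by
  unfold qf
  rw [Finset.sum_comm]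
  refine Finset.sum_congr rfl fun y _ => Finset.sum_congr rfl fun z _ => ?_
  rw [hE.s23]; ring

theorem qf_sub {E : V → V → V → Bool} (hE : K4m E) (v : V) (w p : V → ℝ) :
    qf E v (w + (-1 : ℝ) • p) (w + (-1 : ℝ) • p) = qf E v w w - 2 * qf E v p w + qf E v p p := by
  have h := qf_symm hE v p w
  have e : qf E v (w + (-1 : ℝ) • p) (w + (-1 : ℝ) • p) =
      qf E v w w - qf E v p w - qf E v w p + qf E v p p := by
    unfold qf
    rw [← Finset.sum_sub_distrib, ← Finset.sum_sub_distrib, ← Finset.sum_add_distrib]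
    refine Finset.sum_congr rfl fun y _ => ?_
    rw [← Finset.sum_sub_distrib, ← Finset.sum_sub_distrib, ← Finset.sum_add_distrib]
    refine Finset.sum_congr rfl fun z _ => ?_
    simp only [Pi.add_apply, Pi.smul_apply, smul_eq_mul]
    ring
  rw [e, ← h]; ring

theorem qf_sum (E : V → V → V → Bool) (u p q : V → ℝ) :
    ∑ v, u v * qf E v p q = tri E u p q := by
  unfold qf tri
  refine Finset.sum_congr rfl fun x _ => ?_
  rw [Finset.mul_sum]
  refine Finset.sum_congr rfl fun y _ => ?_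
  rw [Finset.mul_sum]
  refine Finset.sum_congr rfl fun z _ => by ring

/-- Degree inside a set, for one vertex. -/
theorem degV {E : V → V → V → Bool} {w : V → ℝ} (ho : Opt E w)
    {c : V → ℝ} (hc : ∀ v, 0 ≤ c v) (hc1 : ∀ v, c v ≤ 1) (v : V) :
    -((L * (∑ x, w x * c x) ^ 3 - dens E (fun x => w x * c x)) + 2 * (L - dens E w)) ≤
      3 * (∑ x, w x * c x) * (2 * qf E v (fun x => w x * c x) w -
        qf E v (fun x => w x * c x) (fun x => w x * c x) - L * (∑ x, w x * c x) ^ 2) := by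
  have hE := ho.free
  have h1 := ineqMN hE ho.wt (adm_link hE v) hc hc1
  set p : V → ℝ := fun x => w x * c x with hp
  have hq : (fun x => w x * (1 - c x)) = w + (-1 : ℝ) • p := by
    funext x
    simp only [hp, Pi.add_apply, Pi.smul_apply, smul_eq_mul]; ring
  have h2 : (∑ y, ∑ z, (w y * (1 - c y)) * (w z * (1 - c z)) * b2r (E v y z)) =
      qf E v w w - 2 * qf E v p w + qf E v p p := by
    rw [← qf_sub hE, ← hq]
    rfl
  have h3 : qf E v w w = dens E w := ho.reg v
  have hlin : tri E p w w = dens E w * ∑ x, p x := by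
    have : tri E p w w = ∑ v, p v * deg E w v := by
      rw [← qf_sum]
      rfl
    rw [this, Finset.mul_sum]
    refine Finset.sum_congr rfl fun x _ => ?_
    rw [ho.reg x]; ring
  have h4 : dens E (fun x => w x * (1 - c x)) = dens E w - 3 * (dens E w * ∑ x, p x) +
      3 * tri E p p w - dens E p := by
    rw [hq, dens_eq_tri, dens_eq_tri, dens_eq_tri]
    simp only [tri_add1, tri_add2 hE, tri_add3 hE, tri_smul1, tri_smul2 hE, tri_smul3 hE]
    rw [tri_swap23 hE p w p, tri_swap13 hE w p p, tri_swap13 hE w w p, tri_swap12 hE w p w, hlin,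
      dens_eq_tri E w]
    ring
  have hR := ineqR hE ho.wt hc hc1
  have e1 : tri E p p w = Ev 3 w (fun ψ => c (ψ 0) * c (ψ 1) * b2r (E (ψ 0) (ψ 1) (ψ 2))) := by
    have := tri_mul E w c c (fun _ => 1)
    simp only [mul_one] at this
    rw [← this]
  have e2 : dens E p = _ := dens_mul E w c
  have e3 : (∑ x, p x) ^ 3 = Ev 3 w (fun ψ => c (ψ 0) * c (ψ 1) * c (ψ 2)) := by
    rw [← prod3]; ring
  have e4 : Ev 3 w (fun ψ => 3 * (c (ψ 0) * c (ψ 1) * b2r (E (ψ 0) (ψ 1) (ψ 2))) -
      2 * (c (ψ 0) * c (ψ 1) * c (ψ 2) * b2r (E (ψ 0) (ψ 1) (ψ 2))) -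
      L * (c (ψ 0) * c (ψ 1) * c (ψ 2))) =
      3 * Ev 3 w (fun ψ => c (ψ 0) * c (ψ 1) * b2r (E (ψ 0) (ψ 1) (ψ 2))) -
      2 * Ev 3 w (fun ψ => c (ψ 0) * c (ψ 1) * c (ψ 2) * b2r (E (ψ 0) (ψ 1) (ψ 2))) -
      L * Ev 3 w (fun ψ => c (ψ 0) * c (ψ 1) * c (ψ 2)) := by
    rw [← Ev_mul, ← Ev_mul, ← Ev_mul, ← Ev_sub, ← Ev_sub]
  rw [e4, ← e1, ← e2, ← e3] at hR
  rw [h2, h3, h4] at h1
  nlinarith [h1, hR]

/-- (V) for fixed roots. -/
theorem ineqV {E : V → V → V → Bool} {w : V → ℝ} (ho : Opt E w)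
    {c g : V → ℝ} (hc1 : ∀ v, c v ≤ 1) (hg : ∀ v, 0 ≤ g v) (hgc : ∀ v, g v ≤ c v) :
    -(2 * (L - dens E w)) ≤ Ev 3 w (fun ψ =>
      3 * (g (ψ 0) * ((c (ψ 1) + c (ψ 2) - c (ψ 1) * c (ψ 2)) * b2r (E (ψ 0) (ψ 1) (ψ 2)) -
        L * (c (ψ 1) * c (ψ 2)))) +
      c (ψ 0) * c (ψ 1) * c (ψ 2) * (L - b2r (E (ψ 0) (ψ 1) (ψ 2)))) := by
  have hE := ho.free
  have hw := ho.wt
  have hc : ∀ v, 0 ≤ c v := fun v => (hg v).trans (hgc v)
  set p : V → ℝ := fun x => w x * c x with hp
  set s := ∑ x, w x * c x with hs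
  have hs0 : 0 ≤ s := Finset.sum_nonneg fun v _ => mul_nonneg (hw.nn v) (hc v)
  have hgs : ∑ v, w v * g v ≤ s :=
    Finset.sum_le_sum fun v _ => mul_le_mul_of_nonneg_left (hgc v) (hw.nn v)
  have hg0 : 0 ≤ ∑ v, w v * g v := Finset.sum_nonneg fun v _ => mul_nonneg (hw.nn v) (hg v)
  set κ := (L * s ^ 3 - dens E p) + 2 * (L - dens E w) with hκ
  have hκ0 : 0 ≤ κ := by
    have h1 : dens E p ≤ L * s ^ 3 :=
      dens_le_L_hom hE (u := p) (fun v => mul_nonneg (hw.nn v) (hc v))
    have h2 : dens E w ≤ L := dens_le_L hE hw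
    rw [hκ]; linarith
  set T : V → ℝ := fun v => 2 * qf E v p w - qf E v p p - L * s ^ 2 with hT
  have hd : ∀ v, -κ ≤ 3 * s * T v := fun v => degV ho hc hc1 v
  have key : -κ ≤ 3 * ∑ v, w v * g v * T v := by
    rcases hs0.eq_or_lt with h0 | h0
    · have h1 : ∀ v, w v * g v = 0 := by
        intro v
        have h2 : ∑ v, w v * g v = 0 := le_antisymm (by rw [h0]; exact hgs) hg0
        exact (Finset.sum_eq_zero_iff_of_nonneg (fun v _ => mul_nonneg (hw.nn v) (hg v))).1 h2 v
          (Finset.mem_univ v)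
      have h3 : ∑ v, w v * g v * T v = 0 := Finset.sum_eq_zero fun v _ => by rw [h1 v, zero_mul]
      rw [h3]; linarith
    · have h1 : ∀ v, -κ / (3 * s) ≤ T v := by
        intro v
        rw [div_le_iff₀ (by positivity)]
        have := hd v
        linarith
      have h2 : (∑ v, w v * g v) * (-κ / (3 * s)) ≤ ∑ v, w v * g v * T v := by
        rw [Finset.sum_mul]
        exact Finset.sum_le_sum fun v _ =>
          mul_le_mul_of_nonneg_left (h1 v) (mul_nonneg (hw.nn v) (hg v))
      have h3 : s * (-κ / (3 * s)) ≤ (∑ v, w v * g v) * (-κ / (3 * s)) := by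
        refine mul_le_mul_of_nonpos_right hgs ?_
        exact div_nonpos_of_nonpos_of_nonneg (by linarith) (by positivity)
      have h4 : s * (-κ / (3 * s)) = -κ / 3 := by field_simp
      linarith
  -- rewriting as an expectation
  have e1 : ∑ v, w v * g v * T v = Ev 3 w (fun ψ =>
      g (ψ 0) * ((c (ψ 1) + c (ψ 2) - c (ψ 1) * c (ψ 2)) * b2r (E (ψ 0) (ψ 1) (ψ 2)) -
        L * (c (ψ 1) * c (ψ 2)))) := by
    have f1 : ∑ v, w v * g v * T v = 2 * tri E (fun v => w v * g v) p w -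
        tri E (fun v => w v * g v) p p - L * ((∑ v, w v * g v) * s ^ 2) := by
      rw [← qf_sum, ← qf_sum, Finset.sum_mul, Finset.mul_sum, Finset.mul_sum,
        ← Finset.sum_sub_distrib, ← Finset.sum_sub_distrib]
      exact Finset.sum_congr rfl fun v _ => by simp only [hT]; ring
    have f2 : tri E (fun v => w v * g v) p w =
        Ev 3 w (fun ψ => g (ψ 0) * c (ψ 1) * 1 * b2r (E (ψ 0) (ψ 1) (ψ 2))) := by
      have := tri_mul E w g c (fun _ => 1)
      simp only [mul_one] at this ⊢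
      exact this
    have f2' : tri E (fun v => w v * g v) p w =
        Ev 3 w (fun ψ => g (ψ 0) * 1 * c (ψ 2) * b2r (E (ψ 0) (ψ 1) (ψ 2))) := by
      rw [tri_swap23 hE]
      have := tri_mul E w g (fun _ => 1) c
      simp only [mul_one] at this ⊢
      exact this
    have f3 : tri E (fun v => w v * g v) p p =
        Ev 3 w (fun ψ => g (ψ 0) * c (ψ 1) * c (ψ 2) * b2r (E (ψ 0) (ψ 1) (ψ 2))) :=
      tri_mul E w g c c
    have f4 : (∑ v, w v * g v) * s ^ 2 = Ev 3 w (fun ψ => g (ψ 0) * c (ψ 1) * c (ψ 2)) := by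
      rw [← prod3]; ring
    rw [f1, f3, f4, two_mul]
    nth_rewrite 1 [f2]
    rw [f2', ← Ev_add, ← Ev_mul, ← Ev_sub, ← Ev_sub]
    exact Ev_congr 3 w fun ψ => by ring
  have e2 : L * s ^ 3 - dens E p = Ev 3 w (fun ψ =>
      c (ψ 0) * c (ψ 1) * c (ψ 2) * (L - b2r (E (ψ 0) (ψ 1) (ψ 2)))) := by
    have f1 : dens E p = _ := dens_mul E w c
    have f2 : s ^ 3 = Ev 3 w (fun ψ => c (ψ 0) * c (ψ 1) * c (ψ 2)) := by
      rw [← prod3]; ring
    rw [f1, f2, ← Ev_mul, ← Ev_sub]
    exact Ev_congr 3 w fun ψ => by ring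
  rw [Ev_add, Ev_mul, ← e1, ← e2]
  linarith

end

end KF
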