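import Pool.Agent.Helper25.K4.Master
import Pool.Agent.Helper91.KF.F7

set_option autoImplicit false

/-!
The final argument with a second certificate for the slope.
-/

namespace KC

open KF Finset

/-- As `final2`, but one may assume that the density is larger than `p0`. -/
theorem final3 {p0 c C : ℝ} (hc : 0 < c)
    (h : p0 < L → ∀ η : ℝ, 0 < η → ∃ θ : ℝ, 0 < θ ∧ ∀ (n : ℕ)
      (E : Fin n → Fin n → Fin n → Bool) (w : Fin n → ℝ), Opt E w → L - θ < dens E w →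
      p0 < dens E w →
      ∃ A B : ℝ, (p0 - L) * A + (dens E w - p0) * B - η ≤ p0 - dens E w ∧ c ≤ 1 - A + B ∧ B ≤ C) :
    L ≤ p0 := by
  by_contra hcon
  push Not at hcon
  refine absurd (final2 (p0 := p0) (c := c) (C := C) hc ?_) (not_le.2 hcon)
  intro η hη
  obtain ⟨θ, hθ, hh⟩ := h hcon η hη
  refine ⟨min θ (L - p0), lt_min hθ (by linarith), fun n E w ho hd => ?_⟩
  refine hh n E w ho ?_ ?_
  · exact lt_of_le_of_lt (by linarith [min_le_left θ (L - p0)]) hd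
  · exact lt_of_le_of_lt (by linarith [min_le_right θ (L - p0)]) hd

/-- The master theorem with a slope condition needed only for densities larger than `p0`. -/
theorem masterS {p0 c C : ℝ} {S A B : ℕ → ℝ} (hc : 0 < c)
    (hpt : ∀ m, Adm m → S m ≤ 35 * p0 - pcr m)
    (hS : ∀ η : ℝ, 0 < η → ∃ θ : ℝ, 0 < θ ∧ ∀ (n : ℕ) (E : Fin n → Fin n → Fin n → Bool)
      (w : Fin n → ℝ), Opt E w → L - θ < dens E w →
      (p0 - L) * Ev 7 w (fun φ => A (msk E φ)) + (dens E w - p0) * Ev 7 w (fun φ => B (msk E φ)) - η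
        ≤ Ev 7 w (fun φ => S (msk E φ)))
    (hA : ∀ (n : ℕ) (E : Fin n → Fin n → Fin n → Bool) (w : Fin n → ℝ), Opt E w →
      p0 < dens E w → c ≤ 35 - Ev 7 w (fun φ => A (msk E φ)) + Ev 7 w (fun φ => B (msk E φ)))
    (hB : ∀ m, Adm m → B m ≤ C) : L ≤ p0 := by
  refine final3 (p0 := p0) (c := c / 35) (C := C / 35) (by positivity) ?_
  intro _ η hη
  obtain ⟨θ, hθ, h⟩ := hS (35 * η) (by positivity)
  refine ⟨θ, hθ, fun n E w ho hd hd2 => ?_⟩
  refine ⟨Ev 7 w (fun φ => A (msk E φ)) / 35, Ev 7 w (fun φ => B (msk E φ)) / 35, ?_, ?_, ?_⟩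
  · have h1 := h n E w ho hd
    have h2 : Ev 7 w (fun φ => S (msk E φ)) ≤ 35 * p0 - 35 * dens E w := by
      have h3 := Ev_mono_adm ho.free ho.wt hpt
      rw [Ev_sub, Ev_const 7 w ho.wt.one, Ev_pcr E ho.wt] at h3
      exact h3
    linarith
  · have := hA n E w ho hd2
    linarith
  · have h3 := Ev_mono_adm ho.free ho.wt (g := fun _ => C) hB
    rw [Ev_const 7 w ho.wt.one] at h3
    linarith

/-- The slope condition from a second pointwise certificate `S2`. -/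
theorem slope_of_cert {p0 c κ : ℝ} {A B S2 : ℕ → ℝ} (hκ : 0 ≤ κ)
    (hpt : ∀ m, Adm m → c + S2 m + κ * (pcr m - 35 * p0) ≤ 35 - A m + B m)
    {V : Type} [Fintype V] {E : V → V → V → Bool} {w : V → ℝ} (ho : Opt E w)
    (hd : p0 < dens E w) (hS2 : 0 ≤ Ev 7 w (fun φ => S2 (msk E φ))) :
    c ≤ 35 - Ev 7 w (fun φ => A (msk E φ)) + Ev 7 w (fun φ => B (msk E φ)) := by
  have h3 := Ev_mono_adm ho.free ho.wt hpt
  rw [Ev_add, Ev_add, Ev_add, Ev_sub, Ev_mul, Ev_sub, Ev_const 7 w ho.wt.one,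
    Ev_const 7 w ho.wt.one, Ev_const 7 w ho.wt.one, Ev_pcr E ho.wt] at h3
  have h4 : 0 ≤ κ * (35 * dens E w - 35 * p0) := mul_nonneg hκ (by linarith)
  linarith

end KC
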