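import Pool.Agent.Helper91.KF.F3

set_option autoImplicit false

/-!
Blow-ups with inside structures: the exact upper bound and the recursive lower bound for the
Turan number of K4^-.
-/

namespace KF

open Finset hiding dens

/-- Blow-up of `E` with the structures `F v` inside the parts. -/
def inn {V W : Type} [DecidableEq V] (E : V → V → V → Bool) (F : V → W → W → W → Bool) :
    V × W → V × W → V × W → Bool :=
  fun a b c => if a.1 = b.1 ∧ a.1 = c.1 then F a.1 a.2 b.2 c.2 else E a.1 b.1 c.1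

theorem ne3 {V : Type} {E : V → V → V → Bool} (hE : K4m E) {a b c : V} (h : E a b c = true) :
    a ≠ b ∧ a ≠ c ∧ b ≠ c := by
  refine ⟨?_, ?_, ?_⟩
  · rintro rfl
    rw [hE.irr] at h
    exact Bool.false_ne_true h
  · rintro rfl
    rw [hE.s23, hE.irr] at h
    exact Bool.false_ne_true h
  · rintro rfl
    rw [hE.s12, hE.s23, hE.irr] at h
    exact Bool.false_ne_true h

theorem inn_K4m {V W : Type} [DecidableEq V] {E : V → V → V → Bool} (hE : K4m E)
    {F : V → W → W → W → Bool} (hF : ∀ v, K4m (F v)) : K4m (inn E F) := by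
  have key : ∀ a b c : V × W, inn E F a b c = true →
      (a.1 = b.1 ∧ a.1 = c.1 ∧ F a.1 a.2 b.2 c.2 = true) ∨
      (a.1 ≠ b.1 ∧ a.1 ≠ c.1 ∧ b.1 ≠ c.1 ∧ E a.1 b.1 c.1 = true) := by
    intro a b c h
    unfold inn at h
    split at h
    · rename_i h1
      exact Or.inl ⟨h1.1, h1.2, h⟩
    · obtain ⟨n1, n2, n3⟩ := ne3 hE h
      exact Or.inr ⟨n1, n2, n3, h⟩
  refine ⟨?_, ?_, ?_, ?_⟩
  · rintro ⟨a, x⟩ ⟨b, y⟩ ⟨c, z⟩
    unfold inn
    by_cases h : a = b ∧ a = c
    · obtain ⟨rfl, rfl⟩ := h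
      simp [(hF a).s12 x y z]
    · have h' : ¬ (b = a ∧ b = c) := fun e => h ⟨e.1.symm, e.1.symm.trans e.2⟩
      simp only [h, h', if_false]
      exact hE.s12 _ _ _
  · rintro ⟨a, x⟩ ⟨b, y⟩ ⟨c, z⟩
    unfold inn
    by_cases h : a = b ∧ a = c
    · obtain ⟨rfl, rfl⟩ := h
      simp [(hF a).s23 x y z]
    · have h' : ¬ (a = c ∧ a = b) := fun e => h ⟨e.2, e.1⟩
      simp only [h, h', if_false]
      exact hE.s23 _ _ _
  · rintro ⟨a, x⟩ ⟨b, y⟩
    unfold inn
    by_cases h : a = b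
    · subst h
      simp [(hF a).irr x y]
    · simp [h, hE.irr]
  · rintro ⟨a, x⟩ ⟨b, y⟩ ⟨c, z⟩ ⟨d, t⟩ h1 h2 h3
    rcases key _ _ _ h1 with ⟨e1, e2, e3⟩ | ⟨e1, e2, e3, e4⟩
    · simp only at e1 e2 e3
      subst e1 e2
      rcases key _ _ _ h2 with ⟨f1, f2, f3⟩ | ⟨f1, f2, f3, f4⟩
      · simp only at f1 f2 f3
        subst f2
        rcases key _ _ _ h3 with ⟨g1, g2, g3⟩ | ⟨g1, g2, g3, g4⟩
        · exact (hF a).free _ _ _ _ e3 f3 g3
        · exact g1 rfl
      · exact f1 rfl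
    · rcases key _ _ _ h2 with ⟨f1, f2, f3⟩ | ⟨f1, f2, f3, f4⟩
      · exact e1 f1
      · rcases key _ _ _ h3 with ⟨g1, g2, g3⟩ | ⟨g1, g2, g3, g4⟩
        · exact e2 g1
        · exact hE.free _ _ _ _ e4 f4 g4

theorem b2r_inn {V W : Type} [DecidableEq V] {E : V → V → V → Bool} (hE : K4m E)
    (F : V → W → W → W → Bool) (a b c : V × W) : b2r (inn E F a b c) =
      (if a.1 = b.1 ∧ a.1 = c.1 then b2r (F a.1 a.2 b.2 c.2) else 0) + b2r (E a.1 b.1 c.1) := by
  unfold inn
  by_cases h : a.1 = b.1 ∧ a.1 = c.1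
  · rw [if_pos h, if_pos h, ← h.1, hE.irr]
    simp
  · rw [if_neg h, if_neg h, zero_add]

/-- The sum of a diagonal function. -/
theorem sum_diag {V : Type} [Fintype V] [DecidableEq V] (g : V → V → V → ℝ) :
    ∑ x, ∑ y, ∑ z, (if x = y ∧ x = z then g x y z else 0) = ∑ x, g x x x := by
  refine sum_congr rfl fun x _ => ?_
  rw [sum_eq_single x]
  · rw [sum_eq_single x]
    · simp
    · intro z _ hz
      rw [if_neg fun h => hz h.2.symm]
    · intro h
      exact absurd (mem_univ x) h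
  · intro y _ hy
    exact sum_eq_zero fun z _ => if_neg fun h => hy h.1.symm
  · intro h
    exact absurd (mem_univ x) h

theorem dens_inn {V W : Type} [Fintype V] [Fintype W] [DecidableEq V] {E : V → V → V → Bool}
    (hE : K4m E) (F : W → W → W → Bool) (u : V → ℝ) {w : W → ℝ} (hw : ∑ i, w i = 1) :
    dens (inn E fun _ => F) (fun a => u a.1 * w a.2) = dens E u + (∑ v, u v ^ 3) * dens F w := by
  have h0 : dens (inn E fun _ => F) (fun a => u a.1 * w a.2) =
      ∑ x, ∑ i, ∑ y, ∑ j, ∑ z, ∑ k, (u x * w i * (u y * w j) * (u z * w k) *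
        (if x = y ∧ x = z then b2r (F i j k) else 0) +
        u x * u y * u z * b2r (E x y z) * (w i * w j * w k)) := by
    unfold dens
    rw [Fintype.sum_prod_type]
    refine sum_congr rfl fun x _ => sum_congr rfl fun i _ => ?_
    rw [Fintype.sum_prod_type]
    refine sum_congr rfl fun y _ => sum_congr rfl fun j _ => ?_
    rw [Fintype.sum_prod_type]
    refine sum_congr rfl fun z _ => sum_congr rfl fun k _ => ?_
    rw [b2r_inn hE]
    ring
  have swap : ∀ g : V → W → V → W → V → W → ℝ, ∑ x, ∑ i, ∑ y, ∑ j, ∑ z, ∑ k, g x i y j z k =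
      ∑ x, ∑ y, ∑ z, ∑ i, ∑ j, ∑ k, g x i y j z k := by
    intro g
    refine sum_congr rfl fun x _ => ?_
    calc ∑ i, ∑ y, ∑ j, ∑ z, ∑ k, g x i y j z k
        = ∑ i, ∑ y, ∑ z, ∑ j, ∑ k, g x i y j z k :=
          sum_congr rfl fun i _ => sum_congr rfl fun y _ => sum_comm
      _ = ∑ y, ∑ i, ∑ z, ∑ j, ∑ k, g x i y j z k := sum_comm
      _ = _ := sum_congr rfl fun y _ => sum_comm
  rw [h0, swap]
  simp only [sum_add_distrib]
  have hA : ∑ x, ∑ y, ∑ z, ∑ i, ∑ j, ∑ k, (u x * w i * (u y * w j) * (u z * w k) *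
      (if x = y ∧ x = z then b2r (F i j k) else 0)) = (∑ v, u v ^ 3) * dens F w := by
    have e : ∀ x y z : V, ∑ i, ∑ j, ∑ k, (u x * w i * (u y * w j) * (u z * w k) *
        (if x = y ∧ x = z then b2r (F i j k) else 0)) =
        if x = y ∧ x = z then u x * u y * u z * dens F w else 0 := by
      intro x y z
      split
      · unfold dens
        simp only [mul_sum]
        exact sum_congr rfl fun i _ => sum_congr rfl fun j _ => sum_congr rfl fun k _ => by ring
      · simp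
    simp only [e]
    rw [sum_diag (fun x y z => u x * u y * u z * dens F w), sum_mul]
    exact sum_congr rfl fun x _ => by ring
  have hB : ∑ x, ∑ y, ∑ z, ∑ i, ∑ j, ∑ k, (u x * u y * u z * b2r (E x y z) * (w i * w j * w k)) =
      dens E u := by
    unfold dens
    refine sum_congr rfl fun x _ => sum_congr rfl fun y _ => sum_congr rfl fun z _ => ?_
    simp only [← mul_sum, hw, mul_one]
  rw [hA, hB]
  ring

/-- The bound with near-optimal structures inside the vertices. -/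
theorem dens_add_le {V : Type} [Fintype V] {E : V → V → V → Bool} (hE : K4m E) {u : V → ℝ}
    (hu : ∀ v, 0 ≤ u v) : dens E u + L * ∑ v, u v ^ 3 ≤ L * (∑ v, u v) ^ 3 := by
  classical
  set q : ℝ := ∑ v, u v ^ 3 with hq
  have hq0 : 0 ≤ q := sum_nonneg fun v _ => pow_nonneg (hu v) 3
  have h1 : ∀ x ∈ Vals, dens E u + q * x ≤ L * (∑ v, u v) ^ 3 := by
    rintro x ⟨m, F, w, hF, hw, rfl⟩
    rw [hq, ← dens_inn hE F u hw.one]
    have h2 := dens_le_L_hom (inn_K4m hE (F := fun _ => F) fun _ => hF)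
      (u := fun a : V × Fin m => u a.1 * w a.2) (fun a => mul_nonneg (hu _) (hw.nn _))
    rw [Fintype.sum_prod_type] at h2
    simpa only [← mul_sum, hw.one, mul_one] using h2
  rcases hq0.eq_or_lt with h | h
  · obtain ⟨x, hx⟩ := vals_nonempty
    have := h1 x hx
    rw [← h] at this ⊢
    simpa using this
  · have h3 : L ≤ (L * (∑ v, u v) ^ 3 - dens E u) / q := by
      refine csSup_le vals_nonempty fun x hx => ?_
      rw [le_div_iff₀ h]
      have := h1 x hx
      linarith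
    rw [le_div_iff₀ h] at h3
    linarith

theorem dens_one {n : ℕ} {H : Finset (Finset (Fin n))} (h1 : IsGraph3 H) :
    dens (ofSet H) (fun _ => (1 : ℝ)) = 6 * (H.card : ℝ) := by
  rw [← sum_ofSet H h1]
  unfold dens
  simp

theorem ex_upper2 (n : ℕ) : 6 * (ex n : ℝ) ≤ L * ((n : ℝ) ^ 3 - n) := by
  obtain ⟨H, h1, h2, h3⟩ := ex_mem n
  have h4 := dens_add_le (ofSet_K4m h2) (u := fun _ => (1 : ℝ)) (fun _ => zero_le_one)
  rw [dens_one h1, h3] at h4
  simp only [one_pow, sum_const, card_univ, Fintype.card_fin, nsmul_eq_mul, mul_one] at h4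
  linarith

/-- The Turan number bounds all structures on `n` vertices. -/
theorem sum_le_ex {V : Type} [Fintype V] {E : V → V → V → Bool} (hE : K4m E) :
    ∑ x, ∑ y, ∑ z, b2r (E x y z) ≤ 6 * (ex (Fintype.card V) : ℝ) := by
  let e := (Fintype.equivFin V).symm
  have hK := hE.comp e
  have h2 := sum_ofSet (toSet (fun a b c => E (e a) (e b) (e c))) (toSet_card hK)
  rw [ofSet_toSet hK] at h2
  have h3 : (toSet (fun a b c => E (e a) (e b) (e c))).card ≤ ex (Fintype.card V) :=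
    le_csSup (ex_bdd _) ⟨_, toSet_card hK, toSet_free hK, rfl⟩
  have h4 : ((toSet (fun a b c => E (e a) (e b) (e c))).card : ℝ) ≤ ex (Fintype.card V) := by
    exact_mod_cast h3
  have h5 : ∑ x, ∑ y, ∑ z, b2r (E (e x) (e y) (e z)) = ∑ x, ∑ y, ∑ z, b2r (E x y z) := by
    rw [← Equiv.sum_comp e]
    refine sum_congr rfl fun x _ => ?_
    rw [← Equiv.sum_comp e]
    refine sum_congr rfl fun y _ => ?_
    rw [← Equiv.sum_comp e (fun z => b2r (E (e x) (e y) z))]
  rw [← h5, h2]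
  linarith

/-- Extension of a structure on `Fin s` to the natural numbers. -/
def exn {s : ℕ} (E : Fin s → Fin s → Fin s → Bool) : ℕ → ℕ → ℕ → Bool := fun a b c =>
  if h : a < s ∧ b < s ∧ c < s then E ⟨a, h.1⟩ ⟨b, h.2.1⟩ ⟨c, h.2.2⟩ else false

theorem exn_val {s : ℕ} (E : Fin s → Fin s → Fin s → Bool) (a b c : Fin s) :
    exn E a b c = E a b c := by
  unfold exn
  rw [dif_pos ⟨a.2, b.2, c.2⟩]

theorem exn_K4m {s : ℕ} {E : Fin s → Fin s → Fin s → Bool} (hE : K4m E) : K4m (exn E) := by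
  refine ⟨fun a b c => ?_, fun a b c => ?_, fun a b => ?_, fun a b c d h1 h2 h3 => ?_⟩
  · unfold exn
    by_cases h : a < s ∧ b < s ∧ c < s
    · rw [dif_pos h, dif_pos ⟨h.2.1, h.1, h.2.2⟩, hE.s12]
    · rw [dif_neg h, dif_neg fun e => h ⟨e.2.1, e.1, e.2.2⟩]
  · unfold exn
    by_cases h : a < s ∧ b < s ∧ c < s
    · rw [dif_pos h, dif_pos ⟨h.1, h.2.2, h.2.1⟩, hE.s23]
    · rw [dif_neg h, dif_neg fun e => h ⟨e.1, e.2.2, e.2.1⟩]
  · unfold exn
    split
    · exact hE.irr _ _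
    · rfl
  · unfold exn at h1 h2 h3
    split at h1
    · split at h2
      · split at h3
        · exact hE.free _ _ _ _ h1 h2 h3
        · exact Bool.false_ne_true h3
      · exact Bool.false_ne_true h2
    · exact Bool.false_ne_true h1

/-- The recursive lower bound. -/
theorem ex_blow (s : Fin 6 → ℕ) :
    ∑ i, ∑ j, ∑ k, (s i : ℝ) * s j * s k * b2r (D6 i j k) + 6 * ∑ i, (ex (s i) : ℝ) ≤
      6 * (ex (∑ i, s i) : ℝ) := by
  choose H h1 h2 h3 using fun i => ex_mem (s i)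
  have hF : ∀ i, K4m (exn (ofSet (H i))) := fun i => exn_K4m (ofSet_K4m (h2 i))
  have hK : K4m (fun x y z : (Σ i : Fin 6, Fin (s i)) => inn D6 (fun i => exn (ofSet (H i)))
      (x.1, x.2.val) (y.1, y.2.val) (z.1, z.2.val)) :=
    (inn_K4m D6_K4m hF).comp (fun x : (Σ i : Fin 6, Fin (s i)) => (x.1, x.2.val))
  have h4 := sum_le_ex hK
  have hc : Fintype.card (Σ i : Fin 6, Fin (s i)) = ∑ i, s i := by simp
  rw [hc] at h4
  refine le_trans (le_of_eq ?_) h4
  have e0 : ∑ x : (Σ i : Fin 6, Fin (s i)), ∑ y : (Σ i : Fin 6, Fin (s i)),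
      ∑ z : (Σ i : Fin 6, Fin (s i)), b2r (inn D6 (fun i => exn (ofSet (H i)))
      (x.1, x.2.val) (y.1, y.2.val) (z.1, z.2.val)) =
      ∑ i, ∑ a : Fin (s i), ∑ j, ∑ b : Fin (s j), ∑ k, ∑ c : Fin (s k),
        ((if i = j ∧ i = k then b2r (exn (ofSet (H i)) a b c) else 0) + b2r (D6 i j k)) := by
    rw [Fintype.sum_sigma]
    refine sum_congr rfl fun i _ => sum_congr rfl fun a _ => ?_
    rw [Fintype.sum_sigma]
    refine sum_congr rfl fun j _ => sum_congr rfl fun b _ => ?_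
    rw [Fintype.sum_sigma]
    exact sum_congr rfl fun k _ => sum_congr rfl fun c _ => by rw [b2r_inn D6_K4m]
  rw [e0]
  have swap : ∀ g : (i : Fin 6) → Fin (s i) → (j : Fin 6) → Fin (s j) → (k : Fin 6) →
      Fin (s k) → ℝ, ∑ i, ∑ a, ∑ j, ∑ b, ∑ k, ∑ c, g i a j b k c =
      ∑ i, ∑ j, ∑ k, ∑ a, ∑ b, ∑ c, g i a j b k c := by
    intro g
    refine sum_congr rfl fun x _ => ?_
    calc ∑ i, ∑ y, ∑ j, ∑ z, ∑ k, g x i y j z k
        = ∑ i, ∑ y, ∑ z, ∑ j, ∑ k, g x i y j z k :=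
          sum_congr rfl fun i _ => sum_congr rfl fun y _ => sum_comm
      _ = ∑ y, ∑ i, ∑ z, ∑ j, ∑ k, g x i y j z k := sum_comm
      _ = _ := sum_congr rfl fun y _ => sum_comm
  rw [swap]
  simp only [sum_add_distrib]
  rw [add_comm]
  congr 1
  · have e1 : ∀ i j k : Fin 6, ∑ a : Fin (s i), ∑ b : Fin (s j), ∑ c : Fin (s k),
        (if i = j ∧ i = k then b2r (exn (ofSet (H i)) a b c) else 0) =
        if i = j ∧ i = k then 6 * (ex (s i) : ℝ) else 0 := by
      intro i j k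
      by_cases h : i = j ∧ i = k
      · obtain ⟨rfl, rfl⟩ := h
        simp only [and_self, if_true, exn_val]
        rw [sum_ofSet (H i) (h1 i), h3 i]
      · simp [h]
    simp only [e1]
    rw [sum_diag (fun i _ _ => 6 * (ex (s i) : ℝ)), mul_sum]
  · refine sum_congr rfl fun i _ => sum_congr rfl fun j _ => sum_congr rfl fun k _ => ?_
    simp only [sum_const, card_univ, Fintype.card_fin, nsmul_eq_mul]
    ring

end KF
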