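import Pool.Agent.Helper91.KF.G1

set_option autoImplicit false

/-!
The Turan number of K4^- up to `n log n`, and exactly at the powers of six, from `L ≤ 2/7`.
-/

namespace KF

open Finset hiding dens

theorem sum_blk (s : Fin 6 → ℝ) : ∑ i, ∑ j, ∑ k, s i * s j * s k * b2r (D6 i j k) =
    6 * (s 0 * s 1 * s 2 + s 0 * s 1 * s 3 + s 0 * s 2 * s 4 + s 0 * s 3 * s 5 + s 0 * s 4 * s 5 +
      s 1 * s 2 * s 5 + s 1 * s 3 * s 4 + s 1 * s 4 * s 5 + s 2 * s 3 * s 4 + s 2 * s 3 * s 5) := by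
  simp [Fin.sum_univ_six, D6, b2r]
  ring

/-- The number of triples of the blow-up with parts of sizes `s`. -/
def blk (s : Fin 6 → ℕ) : ℕ :=
  s 0 * s 1 * s 2 + s 0 * s 1 * s 3 + s 0 * s 2 * s 4 + s 0 * s 3 * s 5 + s 0 * s 4 * s 5 +
    s 1 * s 2 * s 5 + s 1 * s 3 * s 4 + s 1 * s 4 * s 5 + s 2 * s 3 * s 4 + s 2 * s 3 * s 5

/-- The recursive lower bound, for natural numbers. -/
theorem blk_le (s : Fin 6 → ℕ) : blk s + ∑ i, ex (s i) ≤ ex (∑ i, s i) := by
  have h := ex_blow s
  rw [sum_blk (fun i => (s i : ℝ))] at h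
  have h2 : ((blk s + ∑ i, ex (s i) : ℕ) : ℝ) ≤ ((ex (∑ i, s i) : ℕ) : ℝ) := by
    unfold blk
    push_cast
    linarith
  exact_mod_cast h2

/-- The upper bound. -/
theorem ex_le (hL : L ≤ 2 / 7) (n : ℕ) : 21 * ex n + n ≤ n ^ 3 := by
  have h := ex_upper2 n
  have h0 : (0 : ℝ) ≤ (n : ℝ) ^ 3 - n := by
    rcases Nat.eq_zero_or_pos n with rfl | hn
    · simp
    · have h1 : (1 : ℝ) ≤ n := by exact_mod_cast hn
      have h2 : (n : ℝ) ^ 3 - n = n * ((n - 1) * (n + 1)) := by ring
      rw [h2]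
      exact mul_nonneg (by linarith) (mul_nonneg (by linarith) (by linarith))
  have h1 := mul_le_mul_of_nonneg_right hL h0
  have h2 : (((21 * ex n + n : ℕ)) : ℝ) ≤ ((n ^ 3 : ℕ) : ℝ) := by
    push_cast
    linarith
  exact_mod_cast h2

theorem ex_zero : ex 0 = 0 := by
  obtain ⟨H, h1, h2, h3⟩ := ex_mem 0
  rw [← h3, Finset.card_eq_zero, Finset.eq_empty_iff_forall_notMem]
  intro e he
  have h4 := h1 e he
  have h5 := Finset.card_le_univ e
  rw [h4] at h5
  simp at h5

theorem ex_one : ex 1 = 0 := by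
  obtain ⟨H, h1, h2, h3⟩ := ex_mem 1
  rw [← h3, Finset.card_eq_zero, Finset.eq_empty_iff_forall_notMem]
  intro e he
  have h4 := h1 e he
  have h5 := Finset.card_le_univ e
  rw [h4] at h5
  simp at h5

/-- The value at the powers of six. -/
theorem ex_pow (hL : L ≤ 2 / 7) (k : ℕ) : 21 * ex (6 ^ k) + 6 ^ k = (6 ^ k) ^ 3 := by
  refine le_antisymm (ex_le hL _) ?_
  induction k with
  | zero => simp
  | succ k ih =>
    have h := blk_le (fun _ => 6 ^ k)
    simp only [sum_const, card_univ, Fintype.card_fin, smul_eq_mul, blk] at h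
    have e : (6 : ℕ) ^ (k + 1) = 6 * 6 ^ k := by ring
    rw [e]
    set n := (6 : ℕ) ^ k
    have e2 : (6 * n) ^ 3 = 210 * (n * n * n) + 6 * n ^ 3 := by ring
    omega

/-- The deficit. -/
noncomputable def dft (n : ℕ) : ℤ := (n : ℤ) ^ 3 - n - 21 * (ex n : ℤ)

theorem dft_zero : dft 0 = 0 := by simp [dft, ex_zero]

theorem dft_one : dft 1 = 0 := by simp [dft, ex_one]

/-- One step of the recursion. -/
theorem dft_step (q r : ℕ) (hr : r < 6) :
    dft (6 * q + r) ≤ r * dft (q + 1) + (6 - r) * dft q + 27 * q + 18 := by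
  have key : ∀ s : Fin 6 → ℕ, ∑ i, s i = 6 * q + r →
      ((blk s : ℕ) : ℤ) + ∑ i, (ex (s i) : ℤ) ≤ (ex (6 * q + r) : ℤ) := by
    intro s hs
    have := blk_le s
    rw [hs] at this
    exact_mod_cast this
  unfold dft
  have hq : (0 : ℤ) ≤ q := by positivity
  interval_cases r
  · have h := key ![q, q, q, q, q, q] (by simp [Fin.sum_univ_six]; ring)
    simp only [blk, Fin.sum_univ_six] at h
    simp at h ⊢
    nlinarith [h]
  · have h := key ![q + 1, q, q, q, q, q] (by simp [Fin.sum_univ_six]; ring)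
    simp only [blk, Fin.sum_univ_six] at h
    simp at h ⊢
    nlinarith [h]
  · have h := key ![q + 1, q + 1, q, q, q, q] (by simp [Fin.sum_univ_six]; ring)
    simp only [blk, Fin.sum_univ_six] at h
    simp at h ⊢
    nlinarith [h]
  · have h := key ![q + 1, q + 1, q + 1, q, q, q] (by simp [Fin.sum_univ_six]; ring)
    simp only [blk, Fin.sum_univ_six] at h
    simp at h ⊢
    nlinarith [h]
  · have h := key ![q + 1, q + 1, q + 1, q + 1, q, q] (by simp [Fin.sum_univ_six]; ring)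
    simp only [blk, Fin.sum_univ_six] at h
    simp at h ⊢
    nlinarith [h]
  · have h := key ![q + 1, q + 1, q + 1, q + 1, q + 1, q] (by simp [Fin.sum_univ_six]; ring)
    simp only [blk, Fin.sum_univ_six] at h
    simp at h ⊢
    nlinarith [h]

/-- The deficit is of order `n log n`. -/
theorem dft_le (n : ℕ) (hn : 1 ≤ n) : dft n ≤ 9 * n * (Nat.log 2 n : ℤ) := by
  induction n using Nat.strong_induction_on with
  | _ n ih =>
    obtain ⟨q, r, hr, rfl⟩ : ∃ q r, r < 6 ∧ n = 6 * q + r :=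
      ⟨n / 6, n % 6, Nat.mod_lt _ (by norm_num), (Nat.div_add_mod n 6).symm⟩
    have hs := dft_step q r hr
    rcases Nat.eq_zero_or_pos q with rfl | hq
    · rw [show 6 * 0 + r = r by ring] at *
      rw [dft_zero, show 0 + 1 = 1 by ring, dft_one] at hs
      rcases Nat.lt_or_ge r 2 with h | h
      · have : r = 1 := by omega
        subst this
        rw [dft_one]; simp
      · have h1 : 1 ≤ Nat.log 2 r := (Nat.le_log_iff_pow_le (by norm_num) (by omega)).2 (by omega)
        have h2 : (1 : ℤ) ≤ (Nat.log 2 r : ℤ) := by exact_mod_cast h1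
        have h3 : (2 : ℤ) ≤ r := by exact_mod_cast h
        push_cast at hs
        nlinarith
    · have hl1 : Nat.log 2 q + 1 ≤ Nat.log 2 (6 * q + r) := by
        rw [← Nat.log_mul_base (by norm_num) (by omega)]
        exact Nat.log_mono_right (by omega)
      have h1 := ih q (by omega) hq
      have hq' : (1 : ℤ) ≤ q := by exact_mod_cast hq
      have hl1' : (Nat.log 2 q : ℤ) + 1 ≤ (Nat.log 2 (6 * q + r) : ℤ) := by exact_mod_cast hl1
      set ℓ : ℤ := (Nat.log 2 (6 * q + r) : ℤ) with hℓ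
      have hr0 : (0 : ℤ) ≤ r := by positivity
      have hr6 : (r : ℤ) ≤ 5 := by exact_mod_cast (by omega : r ≤ 5)
      have h1' : dft q ≤ 9 * q * (ℓ - 1) := h1.trans (by nlinarith)
      have h2' : (r : ℤ) * dft (q + 1) ≤ r * (9 * (q + 1) * (ℓ - 1)) := by
        rcases Nat.eq_zero_or_pos r with rfl | hr1
        · simp
        · refine mul_le_mul_of_nonneg_left ?_ hr0
          have hl2 : Nat.log 2 (q + 1) + 1 ≤ Nat.log 2 (6 * q + r) := by
            rw [← Nat.log_mul_base (by norm_num) (by omega)]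
            exact Nat.log_mono_right (by omega)
          have h2 := ih (q + 1) (by omega) (by omega)
          have hl2' : (Nat.log 2 (q + 1) : ℤ) + 1 ≤ ℓ := by rw [hℓ]; exact_mod_cast hl2
          push_cast at h2
          exact h2.trans (by nlinarith)
      have h3 : (6 - (r : ℤ)) * dft q ≤ (6 - r) * (9 * q * (ℓ - 1)) :=
        mul_le_mul_of_nonneg_left h1' (by linarith)
      push_cast
      nlinarith

/-- The lower bound. -/
theorem ex_ge (n : ℕ) (hn : 1 ≤ n) : n ^ 3 ≤ 21 * ex n + n + 9 * n * Nat.log 2 n := by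
  have h := dft_le n hn
  unfold dft at h
  have h2 : ((n ^ 3 : ℕ) : ℤ) ≤ ((21 * ex n + n + 9 * n * Nat.log 2 n : ℕ) : ℤ) := by
    push_cast
    linarith
  exact_mod_cast h2

end KF
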